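import Pool.Agent.MP_67227b_nt.Al.AlApB
import Pool.Agent.MP_67227b_nt.Al.AlApG
import Pool.Agent.MP_67227b_nt.Al.AlApS
import Pool.Agent.MP_67227b_nt.Al.AlApEq
import Pool.Agent.MP_67227b_nt.Al.AlHS
import Pool.Agent.MP_67227b_nt.Al.AlWt

set_option autoImplicit false

open Filter Topology Set MeasureTheory Complex
open scoped Real ArithmeticFunction ContDiff

namespace Pool.Agent.MP_67227b_nt.Lw

open Pool.Agent.Lib.ZetaCount_helper33 Pool.Agent.MP_67227b_nt Pool.Agent.MP_67227b_nt.Mo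
open Pool.Agent.MP_67227b_nt.Sg Pool.Agent.MP_67227b_nt.Pp Pool.Agent.MP_67227b_nt.Al

/-- The support of the coefficients. -/
theorem apa_supp {T η κ : ℝ} {a : ℕ → ℝ} (hT : 1 < T) (hη : 0 < η) {i0 i1 K n : ℕ}
    (h : apa a T η κ i0 i1 K n ≠ 0) : 1 ≤ n ∧ (n : ℝ) ≤ T ^ κ := by
  classical
  have hlT : 0 < Real.log T := Real.log_pos hT
  unfold apa at h
  obtain ⟨k, _, hk⟩ := Finset.exists_ne_zero_of_sum_ne_zero h
  obtain ⟨J, hJ, hk2⟩ := Finset.exists_ne_zero_of_sum_ne_zero (right_ne_zero_of_mul hk)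
  obtain ⟨p, hp, hk3⟩ := Finset.exists_ne_zero_of_sum_ne_zero hk2
  have hpp : (∀ j, (p j).Prime) ∧ ∏ j, p j = n := by
    unfold PT' at hp
    obtain ⟨h1, h2⟩ := Finset.mem_filter.1 hp
    exact ⟨fun j => (Finset.mem_filter.1 (Fintype.mem_piFinset.1 h1 j)).2, h2⟩
  have h1 : ∀ j, Real.log (p j) ≤ ((J j : ℝ) + 2) * η * Real.log T := by
    intro j
    have h2 := Finset.prod_ne_zero_iff.1 hk3 j (Finset.mem_univ j)
    by_contra h3
    push Not at h3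
    exact (right_ne_zero_of_mul h2) (ph_zero_right hη (by rw [le_div_iff₀ hlT]; exact h3.le))
  have hJ2 : ∑ j, ((J j : ℝ) + 2) * η ≤ κ := by
    unfold Tup at hJ
    exact (Finset.mem_filter.1 hJ).2
  have hpos : ∀ j, (0 : ℝ) < p j := fun j => by exact_mod_cast (hpp.1 j).pos
  have h4 : Real.log ((∏ j, p j : ℕ) : ℝ) ≤ κ * Real.log T := by
    rw [Nat.cast_prod, Real.log_prod (fun j _ => (hpos j).ne')]
    calc ∑ j, Real.log (p j) ≤ ∑ j, ((J j : ℝ) + 2) * η * Real.log T :=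
          Finset.sum_le_sum (fun j _ => h1 j)
      _ = (∑ j, ((J j : ℝ) + 2) * η) * Real.log T := by rw [Finset.sum_mul]
      _ ≤ κ * Real.log T := mul_le_mul_of_nonneg_right hJ2 hlT.le
  have h5 : 0 < ∏ j, p j := Finset.prod_pos (fun j _ => (hpp.1 j).pos)
  rw [hpp.2] at h4 h5
  refine ⟨h5, ?_⟩
  have h6 : (0 : ℝ) < (n : ℝ) := by exact_mod_cast h5
  rw [← Real.log_le_log_iff h6 (by positivity), Real.log_rpow (by linarith)]
  exact h4

/-- Superpositions of the coefficients. -/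
noncomputable def apw (a : ℕ → ℝ) (T η : ℝ) (i0 i1 K : ℕ) {n : ℕ} (w κs : Fin n → ℝ) (m : ℕ) : ℝ :=
  ∑ i, w i * apa a T η (κs i) i0 i1 K m

/-- Superpositions of the resonators. -/
noncomputable def Apw (a : ℕ → ℝ) (T η : ℝ) (i0 i1 K : ℕ) {n : ℕ} (w κs : Fin n → ℝ) (s : ℂ) : ℂ :=
  ∑ i, (w i : ℂ) * Apa a T η (κs i) i0 i1 K s

theorem Apw_eq {T η κ : ℝ} (hT : 1 < T) (hη : 0 < η) (a : ℕ → ℝ) (i0 i1 K : ℕ) {n : ℕ}
    {w κs : Fin n → ℝ} (hκs : ∀ i, 0 < κs i ∧ κs i ≤ κ) (s : ℂ) :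
    Apw a T η i0 i1 K w κs s = Aa (apw a T η i0 i1 K w κs) ⌊T ^ κ⌋₊ s := by
  have hT0 : 0 < T := by linarith
  have h1 : ∀ i, Apa a T η (κs i) i0 i1 K s = Aa (apa a T η (κs i) i0 i1 K) ⌊T ^ κ⌋₊ s := by
    intro i
    rw [Apa_eq hT hη (hκs i).1.le]
    unfold Aa
    refine Finset.sum_subset ?_ ?_
    · exact Finset.Icc_subset_Icc le_rfl (Nat.floor_mono
        (Real.rpow_le_rpow_of_exponent_le hT.le (hκs i).2))
    · intro m hm hm2
      have : apa a T η (κs i) i0 i1 K m = 0 := by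
        by_contra hne
        obtain ⟨h3, h4⟩ := apa_supp hT hη hne
        exact hm2 (Finset.mem_Icc.2 ⟨h3, Nat.le_floor h4⟩)
      rw [this]
      simp
  unfold Apw
  simp only [h1]
  unfold Aa apw
  simp only [Finset.mul_sum]
  rw [Finset.sum_comm]
  refine Finset.sum_congr rfl fun m _ => ?_
  push_cast
  rw [Finset.sum_mul]
  refine Finset.sum_congr rfl fun i _ => ?_
  ring

theorem apw_bound {T η M : ℝ} {a : ℕ → ℝ} (hη : 0 < η) (hM : ∀ i, |a i| ≤ M) (i0 i1 K : ℕ)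
    {n : ℕ} (w κs : Fin n → ℝ) (m : ℕ) :
    |apw a T η i0 i1 K w κs m| ≤ (∑ i, |w i|) * Real.exp (K * M) := by
  unfold apw
  refine (Finset.abs_sum_le_sum_abs _ _).trans ?_
  rw [Finset.sum_mul]
  refine Finset.sum_le_sum fun i _ => ?_
  rw [abs_mul]
  exact mul_le_mul_of_nonneg_left (apa_bound hη hM i0 i1 K m) (abs_nonneg _)

theorem continuous_Apw (a : ℕ → ℝ) (T η : ℝ) (i0 i1 K : ℕ) {n : ℕ} (w κs : Fin n → ℝ)
    (hc : ∀ i, Continuous (Apa a T η (κs i) i0 i1 K)) : Continuous (Apw a T η i0 i1 K w κs) := by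
  unfold Apw
  exact continuous_finsetSum _ fun i _ => continuous_const.mul (hc i)

/-- The bilinear mass. -/
noncomputable def S0b (A B : ℕ → ℝ) (b : ℝ) (N : ℕ) : ℝ :=
  ∑ m ∈ Finset.Icc 1 N, A m * B m * (m : ℝ) ^ (-(1 + 2 * b))

/-- The bilinear first moment. -/
noncomputable def S1b (A B : ℕ → ℝ) (α b : ℝ) (N : ℕ) : ℝ :=
  -∑ m ∈ Finset.Icc 1 N, A m * (m : ℝ) ^ (-(1 + 2 * b)) *
    ∑ p ∈ m.divisorsAntidiagonal, Λ p.1 * B p.2 *
      ∫ y in (0 : ℝ)..α, Real.cos ((y - α / 2) * Real.log p.1)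

theorem S0_apw (a : ℕ → ℝ) (T η : ℝ) (i0 i1 K : ℕ) {n : ℕ} (w κs : Fin n → ℝ) (b : ℝ) (N : ℕ) :
    S0 (apw a T η i0 i1 K w κs) b N = ∑ i, ∑ j, w i * w j *
      S0b (apa a T η (κs i) i0 i1 K) (apa a T η (κs j) i0 i1 K) b N := by
  unfold S0 S0b
  have h1 : ∀ m : ℕ, apw a T η i0 i1 K w κs m ^ 2 * (m : ℝ) ^ (-(1 + 2 * b)) =
      ∑ i, ∑ j, w i * w j * (apa a T η (κs i) i0 i1 K m * apa a T η (κs j) i0 i1 K m *
        (m : ℝ) ^ (-(1 + 2 * b))) := by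
    intro m
    unfold apw
    rw [sq, Finset.sum_mul_sum, Finset.sum_mul]
    refine Finset.sum_congr rfl fun i _ => ?_
    rw [Finset.sum_mul]
    refine Finset.sum_congr rfl fun j _ => ?_
    ring
  rw [Finset.sum_congr rfl fun m _ => h1 m, Finset.sum_comm]
  refine Finset.sum_congr rfl fun i _ => ?_
  rw [Finset.sum_comm]
  refine Finset.sum_congr rfl fun j _ => ?_
  rw [Finset.mul_sum]

theorem S1_apw (a : ℕ → ℝ) (T η : ℝ) (i0 i1 K : ℕ) {n : ℕ} (w κs : Fin n → ℝ) (α b : ℝ) (N : ℕ) :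
    S1 (apw a T η i0 i1 K w κs) α b N = ∑ i, ∑ j, w i * w j *
      S1b (apa a T η (κs i) i0 i1 K) (apa a T η (κs j) i0 i1 K) α b N := by
  unfold S1 S1b
  have h1 : ∀ m : ℕ, apw a T η i0 i1 K w κs m * (m : ℝ) ^ (-(1 + 2 * b)) *
      ∑ p ∈ m.divisorsAntidiagonal, Λ p.1 * apw a T η i0 i1 K w κs p.2 *
        (∫ y in (0 : ℝ)..α, Real.cos ((y - α / 2) * Real.log p.1)) =
      ∑ i, ∑ j, w i * w j * (apa a T η (κs i) i0 i1 K m * (m : ℝ) ^ (-(1 + 2 * b)) *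
        ∑ p ∈ m.divisorsAntidiagonal, Λ p.1 * apa a T η (κs j) i0 i1 K p.2 *
          ∫ y in (0 : ℝ)..α, Real.cos ((y - α / 2) * Real.log p.1)) := by
    intro m
    have h2 : ∑ p ∈ m.divisorsAntidiagonal, Λ p.1 * apw a T η i0 i1 K w κs p.2 *
        (∫ y in (0 : ℝ)..α, Real.cos ((y - α / 2) * Real.log p.1)) =
        ∑ j, w j * ∑ p ∈ m.divisorsAntidiagonal, Λ p.1 * apa a T η (κs j) i0 i1 K p.2 *
          ∫ y in (0 : ℝ)..α, Real.cos ((y - α / 2) * Real.log p.1) := by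
      simp only [Finset.mul_sum]
      rw [Finset.sum_comm]
      refine Finset.sum_congr rfl fun p _ => ?_
      unfold apw
      rw [Finset.mul_sum, Finset.sum_mul]
      refine Finset.sum_congr rfl fun j _ => ?_
      ring
    rw [h2]
    unfold apw
    rw [mul_assoc, Finset.sum_mul]
    refine Finset.sum_congr rfl fun i _ => ?_
    rw [Finset.mul_sum, Finset.mul_sum]
    refine Finset.sum_congr rfl fun j _ => ?_
    ring
  rw [Finset.sum_congr rfl fun m _ => h1 m, Finset.sum_comm]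
  rw [← Finset.sum_neg_distrib]
  refine Finset.sum_congr rfl fun i _ => ?_
  rw [Finset.sum_comm, ← Finset.sum_neg_distrib]
  refine Finset.sum_congr rfl fun j _ => ?_
  rw [← Finset.mul_sum, mul_neg]

end Pool.Agent.MP_67227b_nt.Lw
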