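import Pool.Agent.MP_67227b_nt.Lw.LwCut

set_option autoImplicit false

/-! # The gain of a cut-off function is bounded -/

open Filter Topology Set MeasureTheory
open scoped Real

namespace Pool.Agent.MP_67227b_nt.Lw

open Pool.Agent.MP_67227b_nt.Lg

theorem DP_ii {q : ℝ} {P : ℝ → ℝ} (hq : 0 < q) (hP : Continuous P) (a b : ℝ) :
    IntervalIntegrable (fun x : ℝ => P x ^ 2 * x ^ (q - 1)) volume a b :=
  (rpow_ii hq a b).continuousOn_mul (hP.pow 2).continuousOn

theorem DP_nonneg (q : ℝ) (P : ℝ → ℝ) : 0 ≤ DP q P := by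
  unfold DP
  refine intervalIntegral.integral_nonneg zero_le_one fun x hx => ?_
  exact mul_nonneg (sq_nonneg _) (Real.rpow_nonneg hx.1 _)

private theorem scale {q b : ℝ} (P : ℝ → ℝ) (hb : 0 < b) :
    ∫ x in (0 : ℝ)..b, P (x / b) ^ 2 * x ^ (q - 1) = b ^ q * DP q P := by
  have h1 := intervalIntegral.integral_comp_mul_left (a := 0) (b := 1)
    (fun x => P (x / b) ^ 2 * x ^ (q - 1)) hb.ne'
  rw [mul_zero, mul_one, smul_eq_mul] at h1
  have h2 : (∫ x in (0 : ℝ)..b, P (x / b) ^ 2 * x ^ (q - 1)) =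
      b * ∫ x in (0 : ℝ)..1, P (b * x / b) ^ 2 * (b * x) ^ (q - 1) := by
    rw [h1]
    field_simp
  rw [h2]
  have h3 : (∫ x in (0 : ℝ)..1, P (b * x / b) ^ 2 * (b * x) ^ (q - 1)) =
      ∫ x in (0 : ℝ)..1, b ^ (q - 1) * (P x ^ 2 * x ^ (q - 1)) := by
    refine intervalIntegral.integral_congr fun x hx => ?_
    rw [uIcc_of_le zero_le_one] at hx
    show P (b * x / b) ^ 2 * (b * x) ^ (q - 1) = b ^ (q - 1) * (P x ^ 2 * x ^ (q - 1))
    rw [mul_div_cancel_left₀ _ hb.ne', Real.mul_rpow hb.le hx.1]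
    ring
  rw [h3, intervalIntegral.integral_const_mul, ← mul_assoc]
  congr 1
  have h4 : b ^ q = b ^ (1 + (q - 1)) := by congr 1; ring
  rw [h4, Real.rpow_add hb, Real.rpow_one]

/-- The decay of the correlation. -/
theorem WP_decay {q : ℝ} {P : ℝ → ℝ} (hq : 0 < q) (hP : Continuous P) (hPa : Antitone P)
    (hP1 : 0 ≤ P 1) {y : ℝ} (hy0 : 0 ≤ y) (hy : y < 1) :
    WP q P y ≤ (1 - y) ^ (q / 2) * DP q P := by
  set b : ℝ := 1 - y with hb
  have hb0 : 0 < b := by rw [hb]; linarith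
  set c : ℝ := b ^ (q / 2) with hc
  have hc0 : 0 < c := Real.rpow_pos_of_pos hb0 _
  have hcc : b ^ q = c * c := by
    rw [hc, ← Real.rpow_add hb0]
    congr 1
    ring
  have h1 : WP q P y ≤ ∫ x in (0 : ℝ)..b,
      (c / 2 * (P x ^ 2 * x ^ (q - 1)) + 1 / (2 * c) * (P (x / b) ^ 2 * x ^ (q - 1))) := by
    unfold WP
    have hi : IntervalIntegrable (fun x => P (x / b) ^ 2 * x ^ (q - 1)) volume 0 b :=
      (rpow_ii hq 0 b).continuousOn_mul
        ((hP.comp (continuous_id.div_const b)).pow 2).continuousOn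
    refine intervalIntegral.integral_mono_on hb0.le (WP_ii hq hP _ _ _)
      (((DP_ii hq hP 0 b).const_mul _).add (hi.const_mul _)) fun x hx => ?_
    have hxq : 0 ≤ x ^ (q - 1) := Real.rpow_nonneg hx.1 _
    have e1 : P (x + y) ≤ P (x / b) := by
      refine hPa ?_
      rw [div_le_iff₀ hb0]
      have : 0 ≤ y * (b - x) := mul_nonneg hy0 (by linarith [hx.2])
      rw [hb] at this ⊢
      nlinarith
    have hx1 : x ≤ 1 := by linarith [hx.2]
    have e2 : 0 ≤ P x := P_nonneg hPa hP1 hx1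
    have e3 : P x * P (x / b) ≤ c / 2 * P x ^ 2 + 1 / (2 * c) * P (x / b) ^ 2 := by
      have : 0 ≤ 1 / (2 * c) * (c * P x - P (x / b)) ^ 2 := by positivity
      have e4 : 1 / (2 * c) * (c * P x - P (x / b)) ^ 2 =
          c / 2 * P x ^ 2 + 1 / (2 * c) * P (x / b) ^ 2 - P x * P (x / b) := by
        field_simp
        ring
      linarith
    have e5 : P x * P (x + y) ≤ c / 2 * P x ^ 2 + 1 / (2 * c) * P (x / b) ^ 2 :=
      (mul_le_mul_of_nonneg_left e1 e2).trans e3
    calc P x * P (x + y) * x ^ (q - 1) ≤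
        (c / 2 * P x ^ 2 + 1 / (2 * c) * P (x / b) ^ 2) * x ^ (q - 1) :=
          mul_le_mul_of_nonneg_right e5 hxq
      _ = _ := by ring
  have hi : IntervalIntegrable (fun x => P (x / b) ^ 2 * x ^ (q - 1)) volume 0 b :=
    (rpow_ii hq 0 b).continuousOn_mul
      ((hP.comp (continuous_id.div_const b)).pow 2).continuousOn
  rw [intervalIntegral.integral_add ((DP_ii hq hP 0 b).const_mul _) (hi.const_mul _),
    intervalIntegral.integral_const_mul, intervalIntegral.integral_const_mul, scale P hb0] at h1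
  have h2 : (∫ x in (0 : ℝ)..b, P x ^ 2 * x ^ (q - 1)) ≤ DP q P := by
    unfold DP
    rw [← intervalIntegral.integral_add_adjacent_intervals (b := b) (DP_ii hq hP 0 b)
      (DP_ii hq hP b 1)]
    have h3 : 0 ≤ ∫ x in b..1, P x ^ 2 * x ^ (q - 1) := by
      refine intervalIntegral.integral_nonneg (by rw [hb]; linarith) fun x hx => ?_
      exact mul_nonneg (sq_nonneg _) (Real.rpow_nonneg (hb0.le.trans hx.1) _)
    linarith
  have h4 : c / 2 * (∫ x in (0 : ℝ)..b, P x ^ 2 * x ^ (q - 1)) ≤ c / 2 * DP q P :=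
    mul_le_mul_of_nonneg_left h2 (by positivity)
  have h5 : 1 / (2 * c) * (b ^ q * DP q P) = c / 2 * DP q P := by
    rw [hcc]
    field_simp
  rw [h5] at h1
  linarith

/-- The bound for the gain. -/
theorem NP_le {q s : ℝ} {P : ℝ → ℝ} (hq : 0 < q) (hs : 0 < s) (hP : Continuous P)
    (hPa : Antitone P) (hP1 : 0 ≤ P 1) :
    2 * Real.sqrt q * NP q P s ≤ 2 * s * (π * DP q P) := by
  have hp := Real.pi_pos
  have hD := DP_nonneg q P
  have hsq := Real.sqrt_nonneg q
  have hq2 : Real.sqrt q ^ 2 = q := Real.sq_sqrt hq.le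
  have hi : IntervalIntegrable (fun y : ℝ => (1 - y) ^ (q / 2)) volume 0 1 := by
    apply ContinuousOn.intervalIntegrable
    exact ContinuousOn.rpow_const (by fun_prop) fun x _ => Or.inr (by positivity)
  have h1 : NP q P s ≤ ∫ y in (0 : ℝ)..1, π * s * DP q P * (1 - y) ^ (q / 2) := by
    rw [NP_eq P hs]
    refine intervalIntegral.integral_mono_on_of_le_Ioo zero_le_one (NP_ii hq hP hPa hP1)
      (hi.const_mul _) fun y hy => ?_
    have e1 := WP_decay hq hP hPa hP1 hy.1.le hy.2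
    have e2 : ks s y ≤ π * s := by
      unfold ks
      have h1 : |Real.sinc (π * s * y)| ≤ 1 := by
        rw [abs_le]
        exact ⟨Real.neg_one_le_sinc _, Real.sinc_le_one _⟩
      exact mul_le_of_le_one_right (by positivity) h1
    calc ks s y * WP q P y ≤ (π * s) * ((1 - y) ^ (q / 2) * DP q P) :=
          mul_le_mul e2 e1 (WP_nonneg hPa hP1 hy.1.le hy.2.le) (by positivity)
      _ = _ := by ring
  have h2 : (∫ y in (0 : ℝ)..1, π * s * DP q P * (1 - y) ^ (q / 2)) =
      π * s * DP q P / (q / 2 + 1) := by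
    rw [intervalIntegral.integral_const_mul]
    have h3 := intervalIntegral.integral_comp_sub_left (a := 0) (b := 1)
      (fun x : ℝ => x ^ (q / 2)) 1
    rw [h3, sub_self, sub_zero, integral_rpow (Or.inl (by linarith)), Real.one_rpow,
      Real.zero_rpow (by linarith)]
    ring
  rw [h2] at h1
  have h6 := mul_le_mul_of_nonneg_left h1 (by positivity : 0 ≤ 2 * Real.sqrt q)
  refine h6.trans ?_
  rw [mul_div_assoc', div_le_iff₀ (by positivity)]
  have h7 : 2 * Real.sqrt q ≤ 2 * (q / 2 + 1) := by nlinarith [sq_nonneg (Real.sqrt q - 1)]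
  have h8 : 0 ≤ π * s * DP q P := by positivity
  nlinarith [mul_le_mul_of_nonneg_right h7 h8]

end Pool.Agent.MP_67227b_nt.Lw
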