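import Pool.Agent.MP_67227b_nt.Lg.LgNum

set_option autoImplicit false

/-! # Cut-off functions: basic facts -/

open Filter Topology Set MeasureTheory
open scoped Real

namespace Pool.Agent.MP_67227b_nt.Lw

open Pool.Agent.MP_67227b_nt.Lg

/-- The correlation of the cut-off. -/
noncomputable def WP (q : ℝ) (P : ℝ → ℝ) (y : ℝ) : ℝ :=
  ∫ x in (0 : ℝ)..(1 - y), P x * P (x + y) * x ^ (q - 1)

/-- The mass of the cut-off. -/
noncomputable def DP (q : ℝ) (P : ℝ → ℝ) : ℝ := ∫ x in (0 : ℝ)..1, P x ^ 2 * x ^ (q - 1)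

/-- The first moment of the cut-off. -/
noncomputable def NP (q : ℝ) (P : ℝ → ℝ) (s : ℝ) : ℝ :=
  ∫ y in (0 : ℝ)..1, |Real.sin (π * s * y)| / y * WP q P y

theorem rpow_ii {q : ℝ} (hq : 0 < q) (a b : ℝ) :
    IntervalIntegrable (fun x : ℝ => x ^ (q - 1)) volume a b :=
  intervalIntegral.intervalIntegrable_rpow' (by linarith)

theorem int_rpow {q m : ℝ} (hq : 0 < q) : ∫ x in (0 : ℝ)..m, x ^ (q - 1) = m ^ q / q := by
  rw [integral_rpow (Or.inl (by linarith)), sub_add_cancel, Real.zero_rpow hq.ne', sub_zero]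

theorem WP_ii {q : ℝ} {P : ℝ → ℝ} (hq : 0 < q) (hP : Continuous P) (y a b : ℝ) :
    IntervalIntegrable (fun x : ℝ => P x * P (x + y) * x ^ (q - 1)) volume a b := by
  refine (rpow_ii hq a b).continuousOn_mul ?_
  exact (hP.mul (hP.comp (continuous_id.add continuous_const))).continuousOn

theorem P_nonneg {P : ℝ → ℝ} (hPa : Antitone P) (hP1 : 0 ≤ P 1) {x : ℝ} (hx : x ≤ 1) :
    0 ≤ P x := hP1.trans (hPa hx)

theorem WP_nonneg {q : ℝ} {P : ℝ → ℝ} (hPa : Antitone P) (hP1 : 0 ≤ P 1)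
    {y : ℝ} (hy0 : 0 ≤ y) (hy : y ≤ 1) : 0 ≤ WP q P y := by
  unfold WP
  refine intervalIntegral.integral_nonneg (by linarith) fun x hx => ?_
  exact mul_nonneg (mul_nonneg (P_nonneg hPa hP1 (by linarith [hx.2]))
    (P_nonneg hPa hP1 (by linarith [hx.2]))) (Real.rpow_nonneg hx.1 _)

theorem WP_anti {q : ℝ} {P : ℝ → ℝ} (hq : 0 < q) (hP : Continuous P) (hPa : Antitone P)
    (hP1 : 0 ≤ P 1) : AntitoneOn (WP q P) (Icc 0 1) := by
  intro y hy y' hy' hyy
  unfold WP
  have h1 : (∫ x in (0 : ℝ)..(1 - y'), P x * P (x + y') * x ^ (q - 1)) ≤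
      ∫ x in (0 : ℝ)..(1 - y'), P x * P (x + y) * x ^ (q - 1) := by
    refine intervalIntegral.integral_mono_on (by linarith [hy'.2]) (WP_ii hq hP _ _ _)
      (WP_ii hq hP _ _ _) fun x hx => ?_
    refine mul_le_mul_of_nonneg_right ?_ (Real.rpow_nonneg hx.1 _)
    exact mul_le_mul_of_nonneg_left (hPa (by linarith))
      (P_nonneg hPa hP1 (by linarith [hx.2, hy'.1]))
  refine h1.trans ?_
  rw [← intervalIntegral.integral_add_adjacent_intervals (b := 1 - y')
    (WP_ii hq hP y 0 (1 - y')) (WP_ii hq hP y (1 - y') (1 - y))]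
  have h2 : 0 ≤ ∫ x in (1 - y')..(1 - y), P x * P (x + y) * x ^ (q - 1) := by
    refine intervalIntegral.integral_nonneg (by linarith) fun x hx => ?_
    exact mul_nonneg (mul_nonneg (P_nonneg hPa hP1 (by linarith [hx.2, hy.1]))
      (P_nonneg hPa hP1 (by linarith [hx.2]))) (Real.rpow_nonneg (by linarith [hx.1, hy'.2]) _)
  linarith

theorem WP_le {q : ℝ} {P : ℝ → ℝ} (hq : 0 < q) (hP : Continuous P) (hPa : Antitone P)
    (hP1 : 0 ≤ P 1) {y : ℝ} (hy : y ∈ Icc (0 : ℝ) 1) : WP q P y ≤ WP q P 0 :=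
  WP_anti hq hP hPa hP1 ⟨le_rfl, zero_le_one⟩ hy hy.1

theorem WP_zero (q : ℝ) (P : ℝ → ℝ) : WP q P 0 = DP q P := by
  unfold WP DP
  rw [sub_zero]
  refine intervalIntegral.integral_congr fun x _ => ?_
  simp only [add_zero]
  ring

theorem WP_intInt {q : ℝ} {P : ℝ → ℝ} (hq : 0 < q) (hP : Continuous P) (hPa : Antitone P)
    (hP1 : 0 ≤ P 1) : IntervalIntegrable (WP q P) volume 0 1 := by
  apply AntitoneOn.intervalIntegrable
  rw [uIcc_of_le zero_le_one]
  exact WP_anti hq hP hPa hP1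

theorem NP_eq {q s : ℝ} (P : ℝ → ℝ) (hs : 0 < s) :
    NP q P s = ∫ y in (0 : ℝ)..1, ks s y * WP q P y := by
  unfold NP
  refine intervalIntegral.integral_congr_ae (Eventually.of_forall fun y hy => ?_)
  rw [uIoc_of_le zero_le_one] at hy
  rw [ks_eq hs hy.1]

theorem NP_ii {q s : ℝ} {P : ℝ → ℝ} (hq : 0 < q) (hP : Continuous P) (hPa : Antitone P)
    (hP1 : 0 ≤ P 1) : IntervalIntegrable (fun y => ks s y * WP q P y) volume 0 1 :=
  (WP_intInt hq hP hPa hP1).continuousOn_mul (ks_cont s).continuousOn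

/-- The first moment is continuous in `s`. -/
theorem NP_cont {q s : ℝ} {P : ℝ → ℝ} (hq : 0 < q) (hP : Continuous P) (hPa : Antitone P)
    (hP1 : 0 ≤ P 1) (hs : 0 < s) : ContinuousAt (NP q P) s := by
  have hp := Real.pi_pos
  set C : ℝ := π * WP q P 0 with hC
  have hW0 : 0 ≤ WP q P 0 := WP_nonneg hPa hP1 le_rfl zero_le_one
  have hC0 : 0 ≤ C := by positivity
  have key : ∀ s', 0 < s' → |NP q P s' - NP q P s| ≤ C * |s' - s| := by
    intro s' hs'
    rw [NP_eq P hs, NP_eq P hs', ← intervalIntegral.integral_sub (NP_ii hq hP hPa hP1)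
      (NP_ii hq hP hPa hP1)]
    have h1 := intervalIntegral.norm_integral_le_of_norm_le_const (a := (0 : ℝ)) (b := 1)
      (f := fun y => ks s' y * WP q P y - ks s y * WP q P y) (C := C * |s' - s|) (by
      intro y hy
      rw [uIoc_of_le zero_le_one] at hy
      rw [← sub_mul, norm_mul, Real.norm_eq_abs, Real.norm_eq_abs,
        abs_of_nonneg (WP_nonneg hPa hP1 hy.1.le hy.2), ← ks_eq hs hy.1, ← ks_eq hs' hy.1,
        ← sub_div, abs_div, abs_of_pos hy.1]
      have h2 : abs (|Real.sin (π * s' * y)| - |Real.sin (π * s * y)|) ≤ π * |s' - s| * y := by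
        calc abs (|Real.sin (π * s' * y)| - |Real.sin (π * s * y)|)
            ≤ |Real.sin (π * s' * y) - Real.sin (π * s * y)| := abs_abs_sub_abs_le _ _
          _ ≤ |π * s' * y - π * s * y| := Real.abs_sin_sub_sin_le _ _
          _ = π * |s' - s| * y := by
              rw [show π * s' * y - π * s * y = π * (s' - s) * y by ring, abs_mul, abs_mul,
                abs_of_pos hp, abs_of_pos hy.1]
      have h3 : abs (|Real.sin (π * s' * y)| - |Real.sin (π * s * y)|) / y ≤ π * |s' - s| := by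
        rw [div_le_iff₀ hy.1]
        exact h2
      calc _ ≤ π * |s' - s| * WP q P 0 :=
            mul_le_mul h3 (WP_le hq hP hPa hP1 ⟨hy.1.le, hy.2⟩)
              (WP_nonneg hPa hP1 hy.1.le hy.2) (by positivity)
        _ = C * |s' - s| := by rw [hC]; ring)
    rw [Real.norm_eq_abs, sub_zero, abs_one, mul_one] at h1
    exact h1
  rw [Metric.continuousAt_iff]
  intro ε hε
  refine ⟨min s (ε / (C + 1)), lt_min hs (by positivity), fun s' hs' => ?_⟩
  rw [Real.dist_eq] at hs' ⊢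
  have h1 : |s' - s| < s := lt_of_lt_of_le hs' (min_le_left _ _)
  have h2 : |s' - s| < ε / (C + 1) := lt_of_lt_of_le hs' (min_le_right _ _)
  have h3 : 0 < s' := by
    have := (abs_lt.1 h1).1
    linarith
  refine lt_of_le_of_lt (key s' h3) ?_
  rw [lt_div_iff₀ (by positivity)] at h2
  nlinarith [abs_nonneg (s' - s)]

end Pool.Agent.MP_67227b_nt.Lw
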