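import Pool.Agent.MP_67227b_nt.Lw.LwStep

set_option autoImplicit false

/-! # The gain of a cut-off function -/

open Filter Topology Set MeasureTheory
open scoped Real

namespace Pool.Agent.MP_67227b_nt.Lw

open Pool.Agent.MP_67227b_nt.Lg

theorem pw_scale {κ q x : ℝ} (hκ : 0 < κ) : pw κ q (κ * x) = (max 0 x) ^ q := by
  unfold pw
  have h : max 0 (κ * x) = κ * max 0 x := by
    rw [mul_max_of_nonneg _ _ hκ.le, mul_zero]
  rw [h, mul_div_cancel_left₀ _ hκ.ne']

private theorem kern_cont {q s : ℝ} (hq : 0 < q) (c c' : ℝ) :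
    Continuous fun y : ℝ => 2 * Real.sqrt q * ks s y * (max 0 (min (c - y) c')) ^ q := by
  refine (continuous_const.mul (ks_cont s)).mul ?_
  refine Continuous.rpow_const ?_ fun _ => Or.inr hq.le
  exact continuous_const.max ((continuous_const.sub continuous_id).min continuous_const)

/-- The substitution `t = κ y`. -/
theorem Jp_scale {u κ q c c' : ℝ} (hκ : 0 < κ) (hq : 0 < q) (hc : c ≤ 1) :
    Jp u κ q (κ * c) (κ * c') =
      ∫ y in (0 : ℝ)..1, 2 * Real.sqrt q * ks (u * κ) y * (max 0 (min (c - y) c')) ^ q := by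
  set f : ℝ → ℝ := fun t => 2 * Real.sqrt q * ks u t * pw κ q (min (κ * c - t) (κ * c')) with hf
  have hfc : Continuous f := by
    refine (continuous_const.mul (ks_cont u)).mul ((pw_cont hq.le).comp ?_)
    exact (continuous_const.sub continuous_id).min continuous_const
  have h1 : Jp u κ q (κ * c) (κ * c') = ∫ t in (0 : ℝ)..κ, f t := by
    have h2 : (∫ t in (κ * c)..κ, f t) = 0 := by
      rw [intervalIntegral.integral_congr_ae (g := fun _ => (0 : ℝ))
        (Eventually.of_forall fun t ht => ?_)]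
      · simp
      · rw [uIoc_of_le (by nlinarith)] at ht
        have h3 : pw κ q (min (κ * c - t) (κ * c')) = 0 := by
          unfold pw
          rw [max_eq_left ((min_le_left _ _).trans (by linarith [ht.1])), zero_div,
            Real.zero_rpow hq.ne']
        simp only [hf, h3, mul_zero]
    have h3 : (∫ t in (0 : ℝ)..κ, f t) =
        (∫ t in (0 : ℝ)..(κ * c), f t) + ∫ t in (κ * c)..κ, f t :=
      (intervalIntegral.integral_add_adjacent_intervals (hfc.intervalIntegrable _ _)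
        (hfc.intervalIntegrable _ _)).symm
    rw [h3, h2, add_zero]
    rfl
  have h4 := intervalIntegral.integral_comp_mul_left (a := 0) (b := 1) f hκ.ne'
  rw [mul_zero, mul_one, smul_eq_mul] at h4
  have h5 : (∫ t in (0 : ℝ)..κ, f t) = κ * ∫ y in (0 : ℝ)..1, f (κ * y) := by
    rw [h4]
    field_simp
  rw [h1, h5, ← intervalIntegral.integral_const_mul]
  refine intervalIntegral.integral_congr fun y _ => ?_
  simp only [hf]
  have h6 : min (κ * c - κ * y) (κ * c') = κ * min (c - y) c' := by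
    rw [mul_min_of_nonneg _ _ hκ.le, mul_sub]
  have h7 : κ * ks u (κ * y) = ks (u * κ) y := by
    unfold ks
    rw [show π * u * (κ * y) = π * (u * κ) * y by ring]
    ring
  rw [h6, pw_scale hκ, ← h7]
  ring

private theorem corr_ge {P : ℝ → ℝ} {q y : ℝ} {n : ℕ} (hn : 0 < n) (hq : 0 < q)
    (hP : Continuous P) (hPa : Antitone P) (hP1 : 0 ≤ P 1) (hy0 : 0 ≤ y) (hy1 : y ≤ 1) :
    q * WP q P y ≤ ∑ i, ∑ j, wst P n i * wst P n j *
      (max 0 (min (cst n i - y) (cst n j))) ^ q := by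
  have h1 := stf_corr (w := wst P n) (c := cst n) hq hy1 fun i => (cst_mem hn i).2
  have h2 : WP q P y ≤
      ∫ x in (0 : ℝ)..(1 - y), stf (wst P n) (cst n) x * stf (wst P n) (cst n) (x + y) *
        x ^ (q - 1) := by
    unfold WP
    refine intervalIntegral.integral_mono_on_of_le_Ioo (by linarith) (WP_ii hq hP _ _ _)
      (stf_ii _ _ hq _ _ _) fun x hx => ?_
    refine mul_le_mul_of_nonneg_right ?_ (Real.rpow_nonneg hx.1.le _)
    have e1 := stf_ge hPa hn hx.1 (by linarith [hx.2])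
    have e2 := stf_ge hPa hn (x := x + y) (by linarith [hx.1]) (by linarith [hx.2])
    have e3 := P_nonneg hPa hP1 (x := x) (by linarith [hx.2])
    have e4 := P_nonneg hPa hP1 (x := x + y) (by linarith [hx.2])
    exact mul_le_mul e1 e2 e4 (e3.trans e1)
  rw [h1] at h2
  have h3 := mul_le_mul_of_nonneg_left h2 hq.le
  refine h3.trans (le_of_eq ?_)
  rw [Finset.mul_sum]
  refine Finset.sum_congr rfl fun i _ => ?_
  rw [Finset.mul_sum]
  refine Finset.sum_congr rfl fun j _ => ?_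
  field_simp

theorem N_ge {P : ℝ → ℝ} {q u κ : ℝ} {n : ℕ} (hn : 0 < n) (hq : 0 < q) (hu : 0 < u)
    (hκ : 0 < κ) (hP : Continuous P) (hPa : Antitone P) (hP1 : 0 ≤ P 1) :
    2 * Real.sqrt q * q * NP q P (u * κ) ≤ ∑ i, ∑ j, wst P n i * wst P n j *
      Jp u κ q (κ * cst n i) (κ * cst n j) := by
  have hs : 0 < u * κ := mul_pos hu hκ
  have h1 : ∑ i, ∑ j, wst P n i * wst P n j * Jp u κ q (κ * cst n i) (κ * cst n j) =
      ∫ y in (0 : ℝ)..1, ∑ i, ∑ j, wst P n i * wst P n j *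
        (2 * Real.sqrt q * ks (u * κ) y * (max 0 (min (cst n i - y) (cst n j))) ^ q) := by
    have h2 : ∀ i j, IntervalIntegrable (fun y => wst P n i * wst P n j *
        (2 * Real.sqrt q * ks (u * κ) y * (max 0 (min (cst n i - y) (cst n j))) ^ q))
        volume 0 1 := fun i j =>
      (continuous_const.mul (kern_cont hq _ _)).intervalIntegrable _ _
    rw [intervalIntegral.integral_finsetSum fun i _ => ?_]
    · refine Finset.sum_congr rfl fun i _ => ?_
      rw [intervalIntegral.integral_finsetSum fun j _ => h2 i j]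
      refine Finset.sum_congr rfl fun j _ => ?_
      rw [intervalIntegral.integral_const_mul, Jp_scale hκ hq (cst_mem hn i).2]
    · exact (continuous_finsetSum _ fun j _ =>
        continuous_const.mul (kern_cont hq _ _)).intervalIntegrable _ _
  rw [h1, NP_eq P hs, ← intervalIntegral.integral_const_mul]
  refine intervalIntegral.integral_mono_on zero_le_one ((NP_ii hq hP hPa hP1).const_mul _) ?_
    fun y hy => ?_
  · exact (continuous_finsetSum _ fun i _ => continuous_finsetSum _ fun j _ =>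
      continuous_const.mul (kern_cont hq _ _)).intervalIntegrable _ _
  · have h3 := corr_ge hn hq hP hPa hP1 hy.1 hy.2
    have h4 : 0 ≤ 2 * Real.sqrt q * ks (u * κ) y :=
      mul_nonneg (by positivity) (ks_nonneg hs.le y)
    have h5 := mul_le_mul_of_nonneg_left h3 h4
    calc 2 * Real.sqrt q * q * (ks (u * κ) y * WP q P y) =
        2 * Real.sqrt q * ks (u * κ) y * (q * WP q P y) := by ring
      _ ≤ _ := h5
      _ = _ := by
        rw [Finset.mul_sum]
        refine Finset.sum_congr rfl fun i _ => ?_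
        rw [Finset.mul_sum]
        exact Finset.sum_congr rfl fun j _ => by ring

theorem D_le {P : ℝ → ℝ} {q κ ε : ℝ} (hq : 0 < q) (hκ : 0 < κ) (hε : 0 < ε)
    (hP : Continuous P) (hPa : Antitone P) (hP1 : 0 ≤ P 1) :
    ∃ n : ℕ, 0 < n ∧ ∑ i, ∑ j, wst P n i * wst P n j *
      pw κ q (min (κ * cst n i) (κ * cst n j)) ≤ q * DP q P + (2 * P 0 + ε) * ε := by
  obtain ⟨n₀, hn₀⟩ := stf_le hP hε
  refine ⟨n₀ + 1, Nat.succ_pos _, ?_⟩
  set n : ℕ := n₀ + 1 with hn
  have hn0 : 0 < n := Nat.succ_pos _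
  have h1 := stf_corr (w := wst P n) (c := cst n) (y := 0) hq zero_le_one
    fun i => (cst_mem hn0 i).2
  rw [sub_zero] at h1
  have h2 : ∑ i, ∑ j, wst P n i * wst P n j * pw κ q (min (κ * cst n i) (κ * cst n j)) =
      q * ∑ i, ∑ j, wst P n i * wst P n j *
        ((max 0 (min (cst n i - 0) (cst n j))) ^ q / q) := by
    rw [Finset.mul_sum]
    refine Finset.sum_congr rfl fun i _ => ?_
    rw [Finset.mul_sum]
    refine Finset.sum_congr rfl fun j _ => ?_
    have h3 : min (κ * cst n i) (κ * cst n j) = κ * min (cst n i) (cst n j) :=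
      (mul_min_of_nonneg _ _ hκ.le).symm
    rw [h3, pw_scale hκ, sub_zero]
    field_simp
  rw [h2, ← h1]
  have hi1 := rpow_ii hq 0 1
  have hi2 : IntervalIntegrable (fun x => P x ^ 2 * x ^ (q - 1)) volume 0 1 :=
    hi1.continuousOn_mul (hP.pow 2).continuousOn
  have h4 : (∫ x in (0 : ℝ)..1, stf (wst P n) (cst n) x * stf (wst P n) (cst n) (x + 0) *
      x ^ (q - 1)) ≤
      ∫ x in (0 : ℝ)..1, (P x ^ 2 * x ^ (q - 1) + (2 * P 0 + ε) * ε * x ^ (q - 1)) := by
    refine intervalIntegral.integral_mono_on_of_le_Ioo zero_le_one (stf_ii _ _ hq _ _ _)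
      (hi2.add (hi1.const_mul _)) fun x hx => ?_
    rw [← add_mul, add_zero]
    refine mul_le_mul_of_nonneg_right ?_ (Real.rpow_nonneg hx.1.le _)
    have e1 := stf_ge hPa hn0 hx.1 hx.2.le
    have e2 := hn₀ n (by omega) hn0 x hx.1 hx.2.le
    have e3 := P_nonneg hPa hP1 (x := x) hx.2.le
    have e4 : P x ≤ P 0 := hPa hx.1.le
    have e5 : 0 ≤ stf (wst P n) (cst n) x := e3.trans e1
    calc stf (wst P n) (cst n) x * stf (wst P n) (cst n) x ≤ (P x + ε) * (P x + ε) :=
          mul_le_mul e2 e2 e5 (by linarith)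
      _ = P x ^ 2 + (2 * P x + ε) * ε := by ring
      _ ≤ P x ^ 2 + (2 * P 0 + ε) * ε := by
          have : (2 * P x + ε) * ε ≤ (2 * P 0 + ε) * ε :=
            mul_le_mul_of_nonneg_right (by linarith) hε.le
          linarith
  have h5 := mul_le_mul_of_nonneg_left h4 hq.le
  refine h5.trans (le_of_eq ?_)
  rw [intervalIntegral.integral_add hi2 (hi1.const_mul _), intervalIntegral.integral_const_mul,
    int_rpow hq, Real.one_rpow]
  unfold DP
  field_simp

/-- **The gain of a cut-off function.** -/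
theorem gain_P_at {sg u κ q g : ℝ} {P : ℝ → ℝ} (hsg : sg = 1 ∨ sg = -1) (hu : 0 < u)
    (hκ : 0 < κ) (hκ1 : κ ≤ 1) (hq : 0 < q) (hP : Continuous P) (hPa : Antitone P)
    (hP1 : 0 ≤ P 1) (hg : π * max g 0 * DP q P < 2 * Real.sqrt q * NP q P (u * κ)) :
    GainW sg u κ g := by
  have hp := Real.pi_pos
  set m : ℝ := π * max g 0 with hm
  have hm0 : 0 ≤ m := mul_nonneg hp.le (le_max_right _ _)
  have hP00 : 0 ≤ P 0 := P_nonneg hPa hP1 zero_le_one
  set gap : ℝ := q * (2 * Real.sqrt q * NP q P (u * κ) - m * DP q P) with hgap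
  have hgap0 : 0 < gap := mul_pos hq (by linarith)
  set ε : ℝ := min 1 (gap / (2 * (m * (2 * P 0 + 1) + 1))) with hεd
  have hden : 0 < 2 * (m * (2 * P 0 + 1) + 1) := by positivity
  have hε : 0 < ε := lt_min one_pos (div_pos hgap0 hden)
  have hε1 : ε ≤ 1 := min_le_left _ _
  have hε2 : m * ((2 * P 0 + ε) * ε) ≤ gap / 2 := by
    have h1 : ε ≤ gap / (2 * (m * (2 * P 0 + 1) + 1)) := min_le_right _ _
    rw [le_div_iff₀ hden] at h1
    have h2 : m * ((2 * P 0 + ε) * ε) ≤ m * ((2 * P 0 + 1) * ε) := by gcongr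
    have h3 : ε * (2 * (m * (2 * P 0 + 1) + 1)) = 2 * (m * ((2 * P 0 + 1) * ε)) + 2 * ε := by ring
    linarith
  obtain ⟨n, hn, hD⟩ := D_le (κ := κ) hq hκ hε hP hPa hP1
  refine main_w (w := wst P n) (κs := fun i => κ * cst n i) hsg hu hκ hκ1 hq
    (fun i => wst_nonneg hPa hP1 hn i) (fun i => ⟨mul_pos hκ (cst_mem hn i).1, ?_⟩) ?_
  · exact mul_le_of_le_one_right hκ.le (cst_mem hn i).2
  · have hN := N_ge hn hq hu hκ hP hPa hP1
    rw [← hm]
    refine lt_of_le_of_lt (mul_le_mul_of_nonneg_left hD hm0) (lt_of_lt_of_le ?_ hN)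
    have h4 : m * (q * DP q P + (2 * P 0 + ε) * ε) =
        q * (m * DP q P) + m * ((2 * P 0 + ε) * ε) := by ring
    have h5 : 2 * Real.sqrt q * q * NP q P (u * κ) = gap + q * (m * DP q P) := by
      rw [hgap]; ring
    rw [h4, h5]
    linarith

/-- **The gain of a cut-off function, at the end point.** -/
theorem gain_P {sg u θ₀ q g : ℝ} {P : ℝ → ℝ} (hsg : sg = 1 ∨ sg = -1) (hu : 0 < u)
    (hθ₀ : 0 < θ₀) (hθ₀1 : θ₀ ≤ 1) (hq : 0 < q) (hP : Continuous P) (hPa : Antitone P)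
    (hP1 : 0 ≤ P 1) (hg : π * max g 0 * DP q P < 2 * Real.sqrt q * NP q P (u * θ₀)) :
    ∃ κ : ℝ, 0 < κ ∧ κ < θ₀ ∧ GainW sg u κ g := by
  have hs : 0 < u * θ₀ := mul_pos hu hθ₀
  have hc : ContinuousAt (fun κ : ℝ => 2 * Real.sqrt q * NP q P (u * κ)) θ₀ := by
    refine continuousAt_const.mul ?_
    exact ContinuousAt.comp (f := fun κ : ℝ => u * κ) (g := NP q P)
      (NP_cont hq hP hPa hP1 hs) (by fun_prop)
  have h1 : ∀ᶠ κ in 𝓝[<] θ₀, π * max g 0 * DP q P < 2 * Real.sqrt q * NP q P (u * κ) :=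
    (hc.eventually (lt_mem_nhds hg)).filter_mono nhdsWithin_le_nhds
  have h2 : ∀ᶠ κ in 𝓝[<] θ₀, 0 < κ := (lt_mem_nhds hθ₀).filter_mono nhdsWithin_le_nhds
  have h3 : ∀ᶠ κ in 𝓝[<] θ₀, κ ∈ Iio θ₀ := self_mem_nhdsWithin
  obtain ⟨κ, ⟨hκg, hκ⟩, hκθ⟩ := ((h1.and h2).and h3).exists
  have hκθ' : κ < θ₀ := hκθ
  exact ⟨κ, hκ, hκθ', gain_P_at hsg hu hκ (by linarith) hq hP hPa hP1 hκg⟩

end Pool.Agent.MP_67227b_nt.Lw
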