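import Pool.Agent.MP_67227b_nt.Lw.LwPair

set_option autoImplicit false

open Filter Topology Set MeasureTheory Complex
open scoped Real ArithmeticFunction ContDiff

namespace Pool.Agent.MP_67227b_nt.Lw

open Pool.Agent.Lib.ZetaCount_helper33 Pool.Agent.MP_67227b_nt Pool.Agent.MP_67227b_nt.Mo
open Pool.Agent.MP_67227b_nt.Sg Pool.Agent.MP_67227b_nt.Pp Pool.Agent.MP_67227b_nt.Al
open Pool.Agent.MP_67227b_nt.Lg

/-- There are superpositions of resonators of lengths at most `T^κ` for which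
`sg (S1 + π g' S0)` is negative, where `g = sg g'`. -/
def GainW (sg u κ g : ℝ) : Prop :=
  ∃ (β η c M : ℝ) (a : ℕ → ℝ) (i0 i1 K n : ℕ) (w κs : Fin n → ℝ), 0 < β ∧ 0 < η ∧ 0 < c ∧
    1 ≤ i0 ∧ (∀ i, |a i| ≤ M) ∧ (∀ i, 0 < κs i ∧ κs i ≤ κ) ∧
    ∀ᶠ T : ℝ in atTop,
      sg * S1 (apw a T η i0 i1 K w κs) (2 * π * u / Real.log T) (β / Real.log T) ⌊T ^ κ⌋₊ +
        π * g * S0 (apw a T η i0 i1 K w κs) (β / Real.log T) ⌊T ^ κ⌋₊ ≤
        -(c * (1 + S0 (apw a T η i0 i1 K w κs) (β / Real.log T) ⌊T ^ κ⌋₊))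

/-- **The gain of a superposition.** -/
theorem main_w {sg u κ q g : ℝ} {n : ℕ} {w κs : Fin n → ℝ} (hsg : sg = 1 ∨ sg = -1)
    (hu : 0 < u) (hκ : 0 < κ) (hκ1 : κ ≤ 1) (hq : 0 < q) (hw : ∀ i, 0 ≤ w i)
    (hκs : ∀ i, 0 < κs i ∧ κs i ≤ κ)
    (hg : π * max g 0 * ∑ i, ∑ j, w i * w j * pw κ q (min (κs i) (κs j)) <
      ∑ i, ∑ j, w i * w j * Jp u κ q (κs i) (κs j)) : GainW sg u κ g := by
  have hp := Real.pi_pos
  have hpu : 0 < π * u := by positivity
  have hsq := Real.sqrt_nonneg q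
  obtain ⟨x₀, hx₀, hx⟩ : ∃ x₀ : ℝ, 0 < x₀ ∧ ∀ i, x₀ ≤ κs i := by
    rcases isEmpty_or_nonempty (Fin n) with h | h
    · exact ⟨1, one_pos, fun i => (h.false i).elim⟩
    · obtain ⟨i, hi⟩ := Finite.exists_min κs
      exact ⟨κs i, (hκs i).1, hi⟩
  set N : ℝ := ∑ i, ∑ j, w i * w j * Jp u κ q (κs i) (κs j) with hN
  set D : ℝ := ∑ i, ∑ j, w i * w j * pw κ q (min (κs i) (κs j)) with hD
  set W : ℝ := ∑ i, ∑ j, w i * w j with hW
  have hww : ∀ i j, 0 ≤ w i * w j := fun i j => mul_nonneg (hw i) (hw j)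
  have hW0 : 0 ≤ W := Finset.sum_nonneg fun i _ => Finset.sum_nonneg fun j _ => hww i j
  have hD0 : 0 ≤ D := Finset.sum_nonneg fun i _ => Finset.sum_nonneg fun j _ =>
    mul_nonneg (hww i j) (pw_nonneg hκ _)
  set C0 : ℝ := (2 * Real.sqrt q + 1) / x₀ + 1 with hC0
  set C1 : ℝ := 8 * Real.sqrt q * (π * u) + 2 * (π * u) + 2 with hC1
  have hC00 : 0 < C0 := by positivity
  have hC10 : 0 < C1 := by positivity
  set C : ℝ := W * (C0 + C1) with hC
  have hCn : 0 ≤ C := by positivity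
  have hCε : ∀ ε : ℝ, C * ε = W * C0 * ε + W * C1 * ε := fun ε => by rw [hC]; ring
  set P : ℝ := π * max g 0 with hP
  have hP0 : 0 ≤ P := mul_nonneg hp.le (le_max_right _ _)
  set gap : ℝ := N - P * D with hgap
  have hgap0 : 0 < gap := by rw [hgap]; linarith
  set ε : ℝ := min 1 (gap / (4 * (C * (1 + P) + 1))) with hεd
  have hden : 0 < 4 * (C * (1 + P) + 1) := by positivity
  have hε : 0 < ε := lt_min one_pos (div_pos hgap0 hden)
  have hε1 : ε ≤ 1 := min_le_left _ _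
  have hεg : C * ε * (1 + P) ≤ gap / 4 := by
    have h1 : ε ≤ gap / (4 * (C * (1 + P) + 1)) := min_le_right _ _
    rw [le_div_iff₀ hden] at h1
    have h2 : ε * (4 * (C * (1 + P) + 1)) = 4 * (C * ε * (1 + P)) + 4 * ε := by ring
    linarith
  obtain ⟨ρ, hρ, hρu⟩ := pw_unif (κ := κ) (q := q) hκ hq.le hε
  set ε₂ : ℝ := min (min ε x₀) (ρ / 2) with hε₂d
  have hε₂ : 0 < ε₂ := lt_min (lt_min hε hx₀) (by positivity)
  have hε₂ε : ε₂ ≤ ε := (min_le_left _ _).trans (min_le_left _ _)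
  have hε₂x : ε₂ ≤ x₀ := (min_le_left _ _).trans (min_le_right _ _)
  have hε₂ρ : ε₂ ≤ ρ / 2 := min_le_right _ _
  obtain ⟨η, M, δ, a, i0, i1, K, hη, hδ, hi0, haM, hK, hKη, hsign, hn, hle, h0, hlip, hmean⟩ :=
    grid_sharp (sg := sg) hsg hu hκ hq hε₂
  have G : Gd sg u κ q ε η M δ a i0 i1 K :=
    ⟨hη, hδ, hi0, haM, hK, hKη.trans hε₂ε, hsign, hn, hle, h0, hlip, hmean.trans hε₂ε⟩
  have e1 : ∀ᶠ T : ℝ in atTop, ∀ i j : Fin n,
      (Jp u κ q (κs i) (κs j) - C1 * ε) *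
        FW (fun p => hS (fun i => |a i|) η i0 i1 (Real.log p / Real.log T) ^ 2) T κ ≤
        -(sg * S1b (apa a T η (κs i) i0 i1 K) (apa a T η (κs j) i0 i1 K)
          (2 * π * u / Real.log T) (ε / 2 / Real.log T) ⌊T ^ κ⌋₊) := by
    refine eventually_all.2 fun i => eventually_all.2 fun j => ?_
    refine pair_S1 hsg hu hκ hκ1 (hκs i).1 (hκs i).2 (hκs j).2 hq hε G
      (hKη.trans (hε₂x.trans (hx i))) ?_
    intro x y hx hy hxy
    exact (hρu x y hx hy (by linarith)).le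
  have e2 : ∀ᶠ T : ℝ in atTop, ∀ i j : Fin n,
      S0b (apa a T η (κs i) i0 i1 K) (apa a T η (κs j) i0 i1 K) (ε / 2 / Real.log T) ⌊T ^ κ⌋₊ ≤
      (pw κ q (min (κs i) (κs j)) + C0 * ε) *
        FW (fun p => hS (fun i => |a i|) η i0 i1 (Real.log p / Real.log T) ^ 2) T κ := by
    refine eventually_all.2 fun i => eventually_all.2 fun j => ?_
    exact pair_S0 hκ1 (hκs i).2 hx₀ (hx i) (hx j) hq hε G
  refine ⟨ε / 2, η, gap / (4 * (1 + D + C)), M, a, i0, i1, K, n, w, κs, by linarith, hη,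
    by positivity, hi0, haM, hκs, ?_⟩
  filter_upwards [e1, e2, eventually_gt_atTop 1] with T h1 h2 hT
  rw [S0_apw, S1_apw]
  set F : ℝ := FW (fun p => hS (fun i => |a i|) η i0 i1 (Real.log p / Real.log T) ^ 2) T κ
    with hF
  have hF1 : 1 ≤ F := one_le_FW (fun p => sq_nonneg _) hT hκ.le
  set s0 : ℝ := ∑ i, ∑ j, w i * w j * S0b (apa a T η (κs i) i0 i1 K)
    (apa a T η (κs j) i0 i1 K) (ε / 2 / Real.log T) ⌊T ^ κ⌋₊ with hs0
  set s1 : ℝ := ∑ i, ∑ j, w i * w j * S1b (apa a T η (κs i) i0 i1 K)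
    (apa a T η (κs j) i0 i1 K) (2 * π * u / Real.log T) (ε / 2 / Real.log T) ⌊T ^ κ⌋₊ with hs1
  have hs00 : 0 ≤ s0 := by
    rw [hs0, ← S0_apw]
    unfold S0
    exact Finset.sum_nonneg fun m _ => by positivity
  have hCε' := hCε ε
  have h3 : s0 ≤ (D + C * ε) * F := by
    have h4 : s0 ≤ ∑ i, ∑ j, w i * w j * ((pw κ q (min (κs i) (κs j)) + C0 * ε) * F) :=
      Finset.sum_le_sum fun i _ => Finset.sum_le_sum fun j _ =>
        mul_le_mul_of_nonneg_left (h2 i j) (hww i j)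
    have h5 : ∑ i, ∑ j, w i * w j * ((pw κ q (min (κs i) (κs j)) + C0 * ε) * F) =
        (D + W * C0 * ε) * F := by
      rw [hD, hW, Finset.sum_mul, Finset.sum_mul, ← Finset.sum_add_distrib, Finset.sum_mul]
      refine Finset.sum_congr rfl fun i _ => ?_
      rw [Finset.sum_mul, Finset.sum_mul, ← Finset.sum_add_distrib, Finset.sum_mul]
      exact Finset.sum_congr rfl fun j _ => by ring
    rw [h5] at h4
    refine h4.trans (mul_le_mul_of_nonneg_right ?_ (by linarith))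
    have : 0 ≤ W * C1 * ε := by positivity
    linarith
  have h6 : (N - C * ε) * F ≤ -(sg * s1) := by
    have h7 : ∑ i, ∑ j, w i * w j * ((Jp u κ q (κs i) (κs j) - C1 * ε) * F) ≤
        ∑ i, ∑ j, w i * w j * (-(sg * S1b (apa a T η (κs i) i0 i1 K)
          (apa a T η (κs j) i0 i1 K) (2 * π * u / Real.log T) (ε / 2 / Real.log T) ⌊T ^ κ⌋₊)) :=
      Finset.sum_le_sum fun i _ => Finset.sum_le_sum fun j _ =>
        mul_le_mul_of_nonneg_left (h1 i j) (hww i j)
    have h8 : ∑ i, ∑ j, w i * w j * ((Jp u κ q (κs i) (κs j) - C1 * ε) * F) =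
        (N - W * C1 * ε) * F := by
      rw [hN, hW, Finset.sum_mul, Finset.sum_mul, ← Finset.sum_sub_distrib, Finset.sum_mul]
      refine Finset.sum_congr rfl fun i _ => ?_
      rw [Finset.sum_mul, Finset.sum_mul, ← Finset.sum_sub_distrib, Finset.sum_mul]
      exact Finset.sum_congr rfl fun j _ => by ring
    have h9 : ∑ i, ∑ j, w i * w j * (-(sg * S1b (apa a T η (κs i) i0 i1 K)
          (apa a T η (κs j) i0 i1 K) (2 * π * u / Real.log T) (ε / 2 / Real.log T) ⌊T ^ κ⌋₊)) =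
        -(sg * s1) := by
      rw [hs1, Finset.mul_sum, ← Finset.sum_neg_distrib]
      refine Finset.sum_congr rfl fun i _ => ?_
      rw [Finset.mul_sum, ← Finset.sum_neg_distrib]
      exact Finset.sum_congr rfl fun j _ => by ring
    rw [h8, h9] at h7
    refine le_trans (mul_le_mul_of_nonneg_right ?_ (by linarith)) h7
    have : 0 ≤ W * C0 * ε := by positivity
    linarith
  have h10 : π * g * s0 ≤ P * ((D + C * ε) * F) := by
    calc π * g * s0 ≤ P * s0 := by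
          refine mul_le_mul_of_nonneg_right ?_ hs00
          exact mul_le_mul_of_nonneg_left (le_max_left _ _) hp.le
      _ ≤ _ := mul_le_mul_of_nonneg_left h3 hP0
  have h11 : gap / (4 * (1 + D + C)) * (1 + s0) ≤ gap / 4 * F := by
    have h12 : 1 + s0 ≤ (1 + D + C) * F := by
      have h15 : C * ε * F ≤ C * F := by
        refine mul_le_mul_of_nonneg_right ?_ (by linarith)
        exact mul_le_of_le_one_right hCn hε1
      have h16 : (D + C * ε) * F = D * F + C * ε * F := by ring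
      have h17 : (1 + D + C) * F = F + D * F + C * F := by ring
      linarith
    calc gap / (4 * (1 + D + C)) * (1 + s0) ≤ gap / (4 * (1 + D + C)) * ((1 + D + C) * F) :=
          mul_le_mul_of_nonneg_left h12 (by positivity)
      _ = gap / 4 * F := by
          have : 1 + D + C ≠ 0 := by positivity
          field_simp
  have h13 : gap / 4 * F ≤ (N - C * ε) * F - P * ((D + C * ε) * F) := by
    have h14 : (N - C * ε) * F - P * ((D + C * ε) * F) = (gap - C * ε * (1 + P)) * F := by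
      rw [hgap]; ring
    rw [h14]
    refine mul_le_mul_of_nonneg_right ?_ (by linarith)
    linarith
  linarith

end Pool.Agent.MP_67227b_nt.Lw
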