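import Pool.Agent.MP_67227b_nt.Lw.LwNeg
import Pool.Agent.MP_67227b_nt.Lw.LwMain
import Pool.Agent.MP_67227b_nt.Al.AlMeanSq

set_option autoImplicit false

open Filter Topology Set MeasureTheory Complex
open scoped Real ArithmeticFunction ContDiff

namespace Pool.Agent.MP_67227b_nt.Lw

open Pool.Agent.Lib.ZetaCount_helper33 Pool.Agent.MP_67227b_nt Pool.Agent.MP_67227b_nt.Mo
open Pool.Agent.MP_67227b_nt.Sg Pool.Agent.MP_67227b_nt.Pp Pool.Agent.MP_67227b_nt.Al

/-- The mean square for superpositions. -/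
theorem mean_sq_w (hRH : RiemannHypothesis) {u β κ η ρ M : ℝ} {a : ℕ → ℝ} (hu : 0 < u)
    (hβ : 0 < β) (hκ1 : κ < 1) (hη : 0 < η) (hM : ∀ i, |a i| ≤ M) {i0 i1 K n : ℕ} (hi0 : 1 ≤ i0)
    {w κs : Fin n → ℝ} (hκs : ∀ i, 0 < κs i ∧ κs i ≤ κ)
    {θ : ℝ} (hθ : 0 < θ) (hθ1 : θ ≤ 1) :
    ∃ C : ℝ, 0 < C ∧ ∀ᶠ T : ℝ in atTop, ∀ A H : ℝ, T / 2 ≤ A → T ^ θ ≤ H → A + H ≤ 3 * T →
      ∫ t in A..(A + H), ((Th (2 * π * u / Real.log T) (β / Real.log T) t + |ρ| * π) *
        ‖Apw a T η i0 i1 K w κs (pl (1 / 2 + β / Real.log T)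
          (t + π * u / Real.log T))‖ ^ 2) ^ 2 ≤ C * H := by
  classical
  have h1 : ∀ i : Fin n, ∃ C : ℝ, 0 < C ∧ ∀ᶠ T : ℝ in atTop, ∀ A H : ℝ, T / 2 ≤ A → T ^ θ ≤ H →
      A + H ≤ 3 * T →
      ∫ t in A..(A + H), ((Th (2 * π * u / Real.log T) (β / Real.log T) t + |ρ| * π) *
        ‖Apa a T η (κs i) i0 i1 K (pl (1 / 2 + β / Real.log T)
          (t + π * u / Real.log T))‖ ^ 2) ^ 2 ≤ C * H := fun i =>
    mean_sq_al hRH hu hβ (lt_of_le_of_lt (hκs i).2 hκ1) hη hM hi0 hθ hθ1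
  choose C hC hCT using h1
  set S : ℝ := ∑ i, w i ^ 4 * C i with hS
  have hS0 : 0 ≤ S := Finset.sum_nonneg fun i _ => mul_nonneg (by positivity) (hC i).le
  refine ⟨(n : ℝ) ^ 3 * S + 1, by positivity, ?_⟩
  filter_upwards [eventually_all.2 hCT, eventually_gt_atTop 1] with T hT hT1 A H hA hH hAH
  have hT0 : 0 < T := by linarith
  have hL : 0 < Real.log T := Real.log_pos hT1
  have hH0 : 0 < H := lt_of_lt_of_le (Real.rpow_pos_of_pos hT0 _) hH
  have hb : 0 < β / Real.log T := by positivity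
  set X : ℝ → ℝ := fun t => Th (2 * π * u / Real.log T) (β / Real.log T) t + |ρ| * π with hX
  have hXc : Continuous X := (continuous_Th hRH hb).add continuous_const
  set B : Fin n → ℝ → ℝ := fun i t => ‖Apa a T η (κs i) i0 i1 K (pl (1 / 2 + β / Real.log T)
    (t + π * u / Real.log T))‖ with hB
  have hpl : Continuous fun t : ℝ => pl (1 / 2 + β / Real.log T) (t + π * u / Real.log T) := by
    unfold pl
    fun_prop
  have hBc : ∀ i, Continuous (B i) := fun i =>
    ((continuous_Apa a T η (κs i) i0 i1 K).comp hpl).norm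
  have hBw : Continuous fun t => ‖Apw a T η i0 i1 K w κs (pl (1 / 2 + β / Real.log T)
      (t + π * u / Real.log T))‖ :=
    ((continuous_Apw a T η i0 i1 K w κs fun i => continuous_Apa a T η (κs i) i0 i1 K).comp
      hpl).norm
  have hpt : ∀ t, (X t * ‖Apw a T η i0 i1 K w κs (pl (1 / 2 + β / Real.log T)
      (t + π * u / Real.log T))‖ ^ 2) ^ 2 ≤
      (n : ℝ) ^ 3 * ∑ i, w i ^ 4 * (X t * B i t ^ 2) ^ 2 := by
    intro t
    set Z : ℝ := ‖Apw a T η i0 i1 K w κs (pl (1 / 2 + β / Real.log T)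
      (t + π * u / Real.log T))‖ with hZ
    have hZ0 : 0 ≤ Z := norm_nonneg _
    have h2 : Z ≤ ∑ i, |w i| * B i t := by
      rw [hZ]
      unfold Apw
      refine (norm_sum_le _ _).trans (Finset.sum_le_sum fun i _ => ?_)
      rw [norm_mul, Complex.norm_real, Real.norm_eq_abs]
    have h3 : Z ^ 2 ≤ n * ∑ i, (|w i| * B i t) ^ 2 := by
      have h4 := pow_le_pow_left₀ hZ0 h2 2
      have h5 := sq_sum_le_card_mul_sum_sq (s := (Finset.univ : Finset (Fin n)))
        (f := fun i => |w i| * B i t)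
      rw [Finset.card_univ, Fintype.card_fin] at h5
      exact h4.trans h5
    have h6 : (Z ^ 2) ^ 2 ≤ (n : ℝ) ^ 3 * ∑ i, ((|w i| * B i t) ^ 2) ^ 2 := by
      have h4 := pow_le_pow_left₀ (sq_nonneg Z) h3 2
      have h5 := sq_sum_le_card_mul_sum_sq (s := (Finset.univ : Finset (Fin n)))
        (f := fun i => (|w i| * B i t) ^ 2)
      rw [Finset.card_univ, Fintype.card_fin] at h5
      calc (Z ^ 2) ^ 2 ≤ (n * ∑ i, (|w i| * B i t) ^ 2) ^ 2 := h4
        _ = (n : ℝ) ^ 2 * (∑ i, (|w i| * B i t) ^ 2) ^ 2 := by ring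
        _ ≤ (n : ℝ) ^ 2 * (n * ∑ i, ((|w i| * B i t) ^ 2) ^ 2) :=
            mul_le_mul_of_nonneg_left h5 (by positivity)
        _ = _ := by ring
    have h7 : (X t * Z ^ 2) ^ 2 = X t ^ 2 * (Z ^ 2) ^ 2 := by ring
    rw [h7]
    calc X t ^ 2 * (Z ^ 2) ^ 2 ≤ X t ^ 2 * ((n : ℝ) ^ 3 * ∑ i, ((|w i| * B i t) ^ 2) ^ 2) :=
          mul_le_mul_of_nonneg_left h6 (sq_nonneg _)
      _ = _ := by
          rw [mul_left_comm, Finset.mul_sum]
          congr 1
          refine Finset.sum_congr rfl fun i _ => ?_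
          have h8 : |w i| ^ 4 = w i ^ 4 := by
            rw [show (4 : ℕ) = 2 * 2 by norm_num, pow_mul, pow_mul, sq_abs]
          calc X t ^ 2 * ((|w i| * B i t) ^ 2) ^ 2 = |w i| ^ 4 * (X t * B i t ^ 2) ^ 2 := by ring
            _ = _ := by rw [h8]
  have hle : A ≤ A + H := by linarith
  have hi : ∀ i, IntervalIntegrable (fun t => w i ^ 4 * (X t * B i t ^ 2) ^ 2) volume A (A + H) :=
    fun i => (continuous_const.mul ((hXc.mul ((hBc i).pow 2)).pow 2)).intervalIntegrable _ _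
  have h9 : (∫ t in A..(A + H), (X t * ‖Apw a T η i0 i1 K w κs (pl (1 / 2 + β / Real.log T)
      (t + π * u / Real.log T))‖ ^ 2) ^ 2) ≤
      ∫ t in A..(A + H), (n : ℝ) ^ 3 * ∑ i, w i ^ 4 * (X t * B i t ^ 2) ^ 2 := by
    refine intervalIntegral.integral_mono_on hle
      (((hXc.mul (hBw.pow 2)).pow 2).intervalIntegrable _ _) ?_ (fun t _ => hpt t)
    exact (continuous_const.mul (continuous_finsetSum _ fun i _ =>
      continuous_const.mul ((hXc.mul ((hBc i).pow 2)).pow 2))).intervalIntegrable _ _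
  refine h9.trans ?_
  rw [intervalIntegral.integral_const_mul, intervalIntegral.integral_finsetSum fun i _ => hi i]
  have h10 : ∑ i, ∫ t in A..(A + H), w i ^ 4 * (X t * B i t ^ 2) ^ 2 ≤ S * H := by
    rw [hS, Finset.sum_mul]
    refine Finset.sum_le_sum fun i _ => ?_
    rw [intervalIntegral.integral_const_mul, mul_assoc]
    exact mul_le_mul_of_nonneg_left (hT i A H hA hH hAH) (by positivity)
  calc (n : ℝ) ^ 3 * ∑ i, ∫ t in A..(A + H), w i ^ 4 * (X t * B i t ^ 2) ^ 2 ≤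
      (n : ℝ) ^ 3 * (S * H) := mul_le_mul_of_nonneg_left h10 (by positivity)
    _ ≤ ((n : ℝ) ^ 3 * S + 1) * H := by nlinarith

/-- Positive measure for superpositions (as `Al.meas_al`). -/
theorem meas_w (hRH : RiemannHypothesis) {sg u κ θ₀ ρ : ℝ} (hsg : sg = 1 ∨ sg = -1)
    (hu : 0 < u) (hκ : 0 < κ) (hκθ : κ < θ₀) (hθ₀1 : θ₀ ≤ 1) (hG : GainW sg u κ (sg * (u - ρ))) :
    ∃ β c₃ : ℝ, 0 < β ∧ 0 < c₃ ∧ ∀ᶠ T : ℝ in atTop, ∀ A W : ℝ, 5 * T / 8 ≤ A → T ^ θ₀ / 4 ≤ W →
      A + W ≤ 2 * T → c₃ * W ≤ volume.real {t ∈ Icc A (A + W) |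
        sg * (Th (2 * π * u / Real.log T) (β / Real.log T) t - ρ * π) < 0} := by
  obtain ⟨β, η, c, M₀, av, i0, i1, K, n, w, κs, hβ, hη, hc, hi0, hM₀, hκs, hgain⟩ := hG
  obtain ⟨θ, hκθ1, hθθ₀⟩ := exists_between hκθ
  obtain ⟨θ₂, hθθ₂, hθ₂⟩ := exists_between hθθ₀
  have hθ : 0 < θ := hκ.trans hκθ1
  have hκ1 : κ < 1 := lt_of_lt_of_le hκθ hθ₀1
  have hθ₂0 : 0 < θ₂ := hθ.trans hθθ₂
  have hθ₂1 : θ₂ < 1 := lt_of_lt_of_le hθ₂ hθ₀1
  obtain ⟨c₂, hc₂, hN⟩ := neg_int_w hRH hsg hu hκ hκθ1 hθθ₂ hθ₂1 hβ hη hc hM₀ hκs hgain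
  obtain ⟨C, hC, hM⟩ := mean_sq_w hRH (ρ := ρ) hu hβ hκ1 hη hM₀ (i1 := i1) (K := K) (w := w) hi0
    hκs (θ := θ₂) hθ₂0 hθ₂1.le
  have hpi : 0 < Real.sqrt π := Real.sqrt_pos.mpr Real.pi_pos
  have hpi0 : 0 < π := Real.pi_pos
  set a : ℝ := c₂ / Real.sqrt π / 2 with ha
  have ha0 : 0 < a := by positivity
  refine ⟨β, a ^ 2 / C, hβ, by positivity, ?_⟩
  have ev1 : ∀ᶠ T : ℝ in atTop, (16 : ℝ) ≤ T ^ (θ₀ - θ₂) :=
    (tendsto_rpow_atTop (by linarith : 0 < θ₀ - θ₂)).eventually_ge_atTop 16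
  filter_upwards [hN, hM, ev1, eventually_gt_atTop 1] with T hN hM h16 hT A W hA1 hW1 hAW
  have hT0 : 0 < T := by linarith
  have hX0 : 0 < T ^ θ₂ := Real.rpow_pos_of_pos hT0 _
  have hXW : 4 * T ^ θ₂ ≤ W := by
    have h9 : T ^ θ₀ = T ^ (θ₀ - θ₂) * T ^ θ₂ := by
      rw [← Real.rpow_add hT0, sub_add_cancel]
    have h10 : 16 * T ^ θ₂ ≤ T ^ θ₀ := by
      rw [h9]
      gcongr
    linarith
  have hM := hM A W (by linarith) (by linarith) (by linarith)
  have hL : 0 < Real.log T := Real.log_pos hT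
  set α : ℝ := 2 * π * u / Real.log T with hαdef
  set b : ℝ := β / Real.log T with hbdef
  have hα : 0 < α := by positivity
  have hb : 0 < b := by positivity
  have hsg1 : |sg| = 1 := by rcases hsg with h | h <;> rw [h] <;> simp
  set B : ℝ → ℝ := fun t =>
    ‖Apw av T η i0 i1 K w κs (pl (1 / 2 + b) (t + π * u / Real.log T))‖ ^ 2
    with hB
  set f : ℝ → ℝ := fun t => sg * (Th α b t - ρ * π) * B t with hf
  set g : ℝ → ℝ := fun t => (Th α b t + |ρ| * π) * B t with hg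
  set E : Set ℝ := {t ∈ Icc A (A + W) | sg * (Th α b t - ρ * π) < 0} with hEdef
  have hThc : Continuous (Th α b) := continuous_Th hRH hb
  have hBc : Continuous B := by
    apply Continuous.pow
    apply Continuous.norm
    refine (continuous_Apw av T η i0 i1 K w κs
      fun i => continuous_Apa av T η (κs i) i0 i1 K).comp ?_
    unfold pl
    fun_prop
  have hfc : Continuous f :=
    (continuous_const.mul (hThc.sub continuous_const)).mul hBc
  have hgc : Continuous g := (hThc.add continuous_const).mul hBc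
  have hB0 : ∀ t, 0 ≤ B t := fun t => by positivity
  have hT0' : ∀ t, 0 ≤ Th α b t := fun t => Th_nonneg hRH hα.le hb t
  have h1 : a * W ≤ ∫ t in A..(A + W), max (-(f t)) 0 := by
    have h0 : c₂ / Real.sqrt π * (A + W - A - 2 * T ^ θ₂) ≤
        ∫ t in A..(A + W), max (-(f t)) 0 := by
      apply fub_w (Δ := T ^ θ) hX0.le (by linarith) (Real.rpow_pos_of_pos hT0 _) hc₂
        hfc.continuousOn
      intro t₀ ht₀
      exact hN t₀ ⟨by linarith [ht₀.1], by linarith [ht₀.2]⟩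
    refine le_trans ?_ h0
    have h2 : W / 2 ≤ A + W - A - 2 * T ^ θ₂ := by linarith
    calc a * W = c₂ / Real.sqrt π * (W / 2) := by rw [ha]; ring
      _ ≤ c₂ / Real.sqrt π * (A + W - A - 2 * T ^ θ₂) := by gcongr
  have hEm : MeasurableSet E := by
    have h2 : E = Icc A (A + W) ∩ {t | sg * (Th α b t - ρ * π) < 0} := by
      ext t
      simp [hEdef]
    rw [h2]
    apply measurableSet_Icc.inter
    exact (isOpen_lt (continuous_const.mul (hThc.sub continuous_const))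
      continuous_const).measurableSet
  have hle : A ≤ A + W := by linarith
  set M : ℝ := C / a with hMdef
  have hM0 : 0 < M := by positivity
  -- the pointwise bound
  have h3 : ∀ t ∈ Icc A (A + W), max (-(f t)) 0 ≤
      (1 / (2 * M)) * (g t) ^ 2 + E.indicator (fun _ => M / 2) t := by
    intro t ht
    have hg0 : 0 ≤ (1 / (2 * M)) * (g t) ^ 2 := by positivity
    by_cases hE : t ∈ E
    · rw [indicator_of_mem hE]
      have h4 : -(f t) ≤ g t := by
        have h5 : -(sg * (Th α b t - ρ * π)) ≤ Th α b t + |ρ| * π := by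
          have h6 : -(sg * (Th α b t - ρ * π)) ≤ |sg * (Th α b t - ρ * π)| := neg_le_abs _
          rw [abs_mul, hsg1, one_mul] at h6
          have h7 : |Th α b t - ρ * π| ≤ |Th α b t| + |ρ * π| := abs_sub _ _
          rw [abs_of_nonneg (hT0' t), abs_mul, abs_of_pos hpi0] at h7
          linarith
        have h8 := mul_le_mul_of_nonneg_right h5 (hB0 t)
        simp only [hf, hg]
        linarith
      have h7 : g t ≤ (1 / (2 * M)) * (g t) ^ 2 + M / 2 := by
        have h8 : 0 ≤ (g t - M) ^ 2 / (2 * M) := by positivity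
        have h9 : (g t - M) ^ 2 / (2 * M) = (1 / (2 * M)) * (g t) ^ 2 + M / 2 - g t := by
          field_simp
          ring
        linarith
      have h8 : 0 ≤ (1 / (2 * M)) * (g t) ^ 2 + M / 2 := by positivity
      exact max_le (h4.trans h7) h8
    · rw [indicator_of_notMem hE, add_zero]
      have h4 : 0 ≤ sg * (Th α b t - ρ * π) := by
        by_contra hneg
        push Not at hneg
        exact hE ⟨ht, hneg⟩
      have h5 : 0 ≤ f t := mul_nonneg h4 (hB0 t)
      exact max_le (by linarith) hg0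
  have hi1 : IntervalIntegrable (fun t => (1 / (2 * M)) * (g t) ^ 2) volume A (A + W) :=
    (continuous_const.mul (hgc.pow 2)).intervalIntegrable _ _
  have hi2 : IntervalIntegrable (E.indicator fun _ => M / 2) volume A (A + W) := by
    rw [intervalIntegrable_iff_integrableOn_Ioc_of_le hle]
    apply Integrable.indicator _ hEm
    exact integrable_const _
  have hi3 : IntervalIntegrable (fun t => max (-(f t)) 0) volume A (A + W) :=
    (hfc.neg.max continuous_const).intervalIntegrable _ _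
  have h4 : ∫ t in A..(A + W), max (-(f t)) 0 ≤
      (∫ t in A..(A + W), (1 / (2 * M)) * (g t) ^ 2) +
        ∫ t in A..(A + W), E.indicator (fun _ => M / 2) t := by
    rw [← intervalIntegral.integral_add hi1 hi2]
    exact intervalIntegral.integral_mono_on hle hi3 (hi1.add hi2) h3
  have h5 : ∫ t in A..(A + W), (1 / (2 * M)) * (g t) ^ 2 ≤ (1 / (2 * M)) * (C * W) := by
    rw [intervalIntegral.integral_const_mul]
    apply mul_le_mul_of_nonneg_left hM (by positivity)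
  have hfin : volume (Icc A (A + W)) ≠ ⊤ := by
    rw [Real.volume_Icc]
    exact ENNReal.ofReal_ne_top
  have h6 : ∫ t in A..(A + W), E.indicator (fun _ => M / 2) t ≤ M / 2 * volume.real E := by
    rw [intervalIntegral.integral_of_le hle, integral_indicator hEm, setIntegral_const,
      smul_eq_mul, mul_comm, measureReal_restrict_apply hEm]
    apply mul_le_mul_of_nonneg_left _ (by positivity)
    exact measureReal_mono inter_subset_left (measure_ne_top_of_subset (fun x hx => hx.1) hfin)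
  have h7 : (1 / (2 * M)) * (C * W) = a * W / 2 := by
    rw [hMdef]
    field_simp
  have h8 : a * W / 2 ≤ M / 2 * volume.real E := by linarith
  have h9 : a ^ 2 / C * W = 2 / M * (a * W / 2) := by
    rw [hMdef]
    field_simp
  rw [h9]
  calc 2 / M * (a * W / 2) ≤ 2 / M * (M / 2 * volume.real E) :=
        mul_le_mul_of_nonneg_left h8 (by positivity)
    _ = volume.real E := by field_simp

end Pool.Agent.MP_67227b_nt.Lw
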