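import Pool.Agent.MP_67227b_nt.Al.AlStep
import Pool.Agent.MP_67227b_nt.Lg.LgFinal
import Pool.Agent.MP_67227b_nt.Lw.LwMeas
import Pool.Agent.MP_67227b_nt.Lw.LwGainP
import Pool.Agent.MP_67227b_nt.Lw.LwBdd

set_option autoImplicit false

open Filter Topology Set MeasureTheory Complex
open scoped Real ArithmeticFunction ContDiff

namespace Pool.Agent.MP_67227b_nt.Lw

open Pool.Agent.Lib.ZetaCount_helper33 Pool.Agent.MP_67227b_nt Pool.Agent.MP_67227b_nt.Mo
open Pool.Agent.MP_67227b_nt.Sg Pool.Agent.MP_67227b_nt.Pp Pool.Agent.MP_67227b_nt.Al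
open Pool.Agent.MP_67227b_nt.Lg

/-- From a gain to a positive proportion of the points of the window (as `Lg.meas_gap`). -/
theorem meas_gap_w (hRH : RiemannHypothesis) {m : ℕ} {lam u θ κ : ℝ} (hm : 1 ≤ m) (hlam : 0 < lam)
    (hlu : lam < u) (hθ0 : 0 < θ) (hθ1 : θ ≤ 1) (hκ : 0 < κ) (hκθ : κ < θ)
    (hG : GainW 1 u κ (1 * (u - m))) :
    ∃ c : ℝ, 0 < c ∧ ∀ᶠ T : ℝ in atTop, c * T ^ θ ≤
      volume.real (gapSet m T (T ^ θ) (2 * π * lam / Real.log T)) := by
  have hpi := Real.pi_pos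
  have hu : 0 < u := hlam.trans hlu
  obtain ⟨lam', h1, h2⟩ := exists_between hlu
  have hlam' : 0 < lam' := hlam.trans h1
  obtain ⟨β, c₃, hβ, hc₃, hE⟩ := meas_w hRH (Or.inl rfl) hu hκ hκθ hθ1 hG
  obtain ⟨R, hR, hTh⟩ := Th_gapM hRH hm hlam' h2 hβ
  set R' : ℝ := max R (2 * π * (lam' - lam)) with hR'
  have hRR : R ≤ R' := le_max_left _ _
  have hRd : 2 * π * (lam' - lam) ≤ R' := le_max_right _ _
  have hR'0 : 0 < R' := lt_of_lt_of_le hR hRR
  have hd0 : 0 < 2 * π * (lam' - lam) := by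
    have : 0 < lam' - lam := by linarith
    positivity
  refine ⟨c₃ * (2 * π * (lam' - lam)) / (24 * R'), by positivity, ?_⟩
  have ev1 : ∀ᶠ T : ℝ in atTop, 8 * (R' + 2 * π * (lam' - lam)) + 8 ≤ T ^ θ :=
    (tendsto_rpow_atTop hθ0).eventually_ge_atTop _
  have ev2 : ∀ᶠ T : ℝ in atTop, (1 : ℝ) ≤ Real.log T := Real.tendsto_log_atTop.eventually_ge_atTop _
  filter_upwards [hE, ev1, ev2, eventually_gt_atTop 1] with T hE h16 hL1 hT1
  have hT : 0 < T := by linarith
  have hHT : T ^ θ ≤ T := by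
    calc T ^ θ ≤ T ^ (1 : ℝ) := Real.rpow_le_rpow_of_exponent_le hT1.le hθ1
      _ = T := Real.rpow_one T
  set H : ℝ := T ^ θ with hH
  set L := Real.log T with hL
  have hL0 : 0 < L := by linarith
  set A : ℝ := T - 3 / 8 * H with hA
  set W : ℝ := H / 4 with hW
  have hE' := hE A W (by linarith) (by linarith) (by linarith)
  set ρ : ℝ := R' / L with hρ
  set d : ℝ := 2 * π * (lam' - lam) / L with hd
  have hρ0 : 0 < ρ := by positivity
  have hdp : 0 < d := by positivity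
  have hdρ : d ≤ ρ := div_le_div_of_nonneg_right hRd hL0.le
  have hρ1 : ρ ≤ R' := div_le_self hR'0.le hL1
  have hd1 : d ≤ 2 * π * (lam' - lam) := div_le_self hd0.le hL1
  set D := gapSet m T H (2 * π * lam / L) with hD
  have hDfin : volume D ≠ ⊤ := by
    have hfin : volume (Icc (T - H) T) ≠ ⊤ := by
      rw [Real.volume_Icc]; exact ENNReal.ofReal_ne_top
    exact measure_ne_top_of_subset (fun t ht => ht.1) hfin
  have hcov := cover_meas (G := {t ∈ Icc A (A + W) |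
      1 * (Th (2 * π * u / L) (β / L) t - m * π) < 0}) (D := D) (A := A) (B := A + W)
      hρ0 hdp hdρ hDfin (fun t ht => ht.1) (by
    rintro t ⟨ht, hth⟩
    have hneg : ¬ ∀ x : ℝ, |x - t| ≤ R / L →
        m ≤ {j : ZetaZeroIdx | zetaOrdinate j ∈ Ioc x (x + 2 * π * lam' / L)}.ncard := by
      intro hall
      have := hTh T hT1 t hall
      linarith
    push Not at hneg
    obtain ⟨x, hx1, hx2⟩ := hneg
    have hx3 : |x - t| ≤ ρ := hx1.trans (div_le_div_of_nonneg_right hRR hL0.le)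
    refine ⟨x, hx3, ?_⟩
    intro y hy
    have hx4 := abs_le.1 hx3
    refine ⟨⟨?_, ?_⟩, ?_⟩
    · linarith [ht.1, hy.1, hx4.1]
    · linarith [ht.2, hy.2, hx4.2]
    · refine lt_of_le_of_lt (nz_mono (x := x) (b := 2 * π * lam' / L) hy.1.le ?_) hx2
      have : 2 * π * lam' / L = d + 2 * π * lam / L := by
        rw [hd]
        field_simp
        ring
      linarith [hy.2])
  have h3 : c₃ * W ≤ 6 * ρ / d * volume.real D := hE'.trans hcov
  have h4 : 6 * ρ / d = 6 * R' / (2 * π * (lam' - lam)) := by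
    rw [hρ, hd]
    field_simp
  rw [h4] at h3
  have h5 : c₃ * (2 * π * (lam' - lam)) / (24 * R') * H =
      (2 * π * (lam' - lam)) / (6 * R') * (c₃ * W) := by
    rw [hW]
    field_simp
    ring
  rw [h5]
  calc (2 * π * (lam' - lam)) / (6 * R') * (c₃ * W) ≤
      (2 * π * (lam' - lam)) / (6 * R') * (6 * R' / (2 * π * (lam' - lam)) * volume.real D) :=
        mul_le_mul_of_nonneg_left h3 (by positivity)
    _ = volume.real D := by
        have h6 : (lam' - lam) ≠ 0 := by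
          have : 0 < lam' - lam := by linarith
          exact this.ne'
        field_simp

/-- From a gain to a positive proportion of tuples in windows (as `Al.pos_prop_of_gain`). -/
theorem pos_prop_of_gain_w (hRH : RiemannHypothesis) {m : ℕ} {lam u θ κ : ℝ} (hm : 1 ≤ m)
    (hu : 0 < u) (hul : u < lam) (hθ0 : 0 < θ) (hθ1 : θ ≤ 1) (hκ : 0 < κ) (hκθ : κ < θ)
    (hG : GainW (-1) u κ (-1 * (u - m))) :
    ∃ c : ℝ, 0 < c ∧ ∀ᶠ T : ℝ in atTop, c * (T ^ θ * Real.log T) ≤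
      ((windowTuples m T (T ^ θ) lam).ncard : ℝ) := by
  have hlam0 : 0 < lam := hu.trans hul
  obtain ⟨β, c₃, hβ, hc₃, hE⟩ := meas_w hRH (Or.inr rfl) hu hκ hκθ hθ1 hG
  obtain ⟨cs, C, R₀, hcs, hC, hR₀, hS⟩ := Th_sepM hRH hm hu hul hβ
  obtain ⟨C₂, hC₂, hF⟩ := Far_mean_w hRH (θ := θ / 2) (by linarith) (by linarith)
  set R := max (max R₀ 1) (4 * C * C₂ / (cs * c₃)) with hRdef
  have hRR₀ : R₀ ≤ R := (le_max_left _ _).trans (le_max_left _ _)
  have hR1 : 1 ≤ R := (le_max_right _ _).trans (le_max_left _ _)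
  have hR2 : 4 * C * C₂ / (cs * c₃) ≤ R := le_max_right _ _
  have hR0 : 0 < R := by linarith
  obtain ⟨c', hc', hP⟩ := tuples_of_meas_w (m := m) (lam := lam) (R := R) (c := c₃ / 2)
    hlam0 hR0 (by linarith)
  refine ⟨c' / 4, by positivity, ?_⟩
  have ev1 : ∀ᶠ T : ℝ in atTop, (16 : ℝ) ≤ T ^ (θ / 2) :=
    (tendsto_rpow_atTop (by linarith : 0 < θ / 2)).eventually_ge_atTop 16
  filter_upwards [hE, hF R hR1, hS R hRR₀, hP, ev1, eventually_gt_atTop 1] with T h1 h2 h3 h4 h16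
    hT1
  have hT : 0 < T := by linarith
  have hH2 : T ^ θ = T ^ (θ / 2) * T ^ (θ / 2) := by
    rw [← Real.rpow_add hT, add_halves]
  have hHT : T ^ θ ≤ T := by
    calc T ^ θ ≤ T ^ (1 : ℝ) := Real.rpow_le_rpow_of_exponent_le hT1.le hθ1
      _ = T := Real.rpow_one T
  set H : ℝ := T ^ θ with hH
  have hH16 : 16 * T ^ (θ / 2) ≤ H := by
    rw [hH2]
    gcongr
  have hH256 : 256 ≤ H := by linarith
  set A : ℝ := T - 3 / 8 * H with hA
  set W : ℝ := H / 4 with hW
  have hW0 : 0 ≤ W := by linarith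
  have h1' := h1 A W (by linarith) (by linarith) (by linarith)
  have h2' := h2 A W (by linarith) (by linarith) (by linarith)
  have hsubI : Icc A (A + W) ⊆ Icc (T / 2) (3 * T) := Icc_subset_Icc (by linarith) (by linarith)
  have h5 : c₃ / 2 * W ≤ volume.real {t ∈ Icc A (A + W) |
      ¬ SepM m (Icc (t - R / Real.log T) (t + R / Real.log T))
        (2 * π * lam / Real.log T)} := by
    have hMk := Far_markov_w hW0 (ε := cs / C) (by positivity) h2'.1 h2'.2
    have hsub : {t ∈ Icc A (A + W) |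
        -1 * (Th (2 * π * u / Real.log T) (β / Real.log T) t - m * π) < 0} ⊆
        {t ∈ Icc A (A + W) | ¬ SepM m (Icc (t - R / Real.log T) (t + R / Real.log T))
          (2 * π * lam / Real.log T)} ∪
        {t ∈ Icc A (A + W) | cs / C ≤ Far (Real.log T) R t} := by
      rintro t ⟨ht, hth⟩
      by_cases hsep : SepM m (Icc (t - R / Real.log T) (t + R / Real.log T))
          (2 * π * lam / Real.log T)
      · right
        refine ⟨ht, ?_⟩
        have h5 := h3 t (hsubI ht) hsep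
        rw [div_le_iff₀ (by positivity)]
        linarith
      · left
        exact ⟨ht, hsep⟩
    have hfin : volume (Icc A (A + W)) ≠ ⊤ := by
      rw [Real.volume_Icc]
      exact ENNReal.ofReal_ne_top
    have h6 := (measureReal_mono hsub (measure_union_ne_top
      (measure_ne_top_of_subset (fun x hx => hx.1) hfin)
      (measure_ne_top_of_subset (fun x hx => hx.1) hfin))).trans (measureReal_union_le _ _)
    have h7 : C₂ * W / R / (cs / C) ≤ c₃ / 2 * W := by
      rw [div_div, div_le_iff₀ (by positivity)]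
      have h8 : 4 * C * C₂ ≤ R * (cs * c₃) := by
        rwa [div_le_iff₀ (by positivity)] at hR2
      have h9 : c₃ / 2 * W * (R * (cs / C)) = R * (cs * c₃) * W / (2 * C) := by
        field_simp
      rw [h9, le_div_iff₀ (by positivity)]
      nlinarith [mul_nonneg hC₂.le hC.le, mul_nonneg (mul_nonneg hC₂.le hC.le) hW0]
    linarith
  have h6 := h4 H A W (by linarith) hW0 (by linarith) (by linarith) h5
  refine le_trans (le_of_eq ?_) h6
  rw [hW]
  ring

/-- The points and, for the full window, the ordinates followed by few zeros. -/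
theorem gaps_of_gain_w (hRH : RiemannHypothesis) {m : ℕ} {lam u θ κ : ℝ} (hm : 1 ≤ m)
    (hlam : 0 < lam) (hlu : lam < u) (hθ0 : 0 < θ) (hθ1 : θ ≤ 1) (hκ : 0 < κ) (hκθ : κ < θ)
    (hG : GainW 1 u κ (1 * (u - m))) :
    ∃ c : ℝ, 0 < c ∧ ∀ᶠ T : ℝ in atTop, c * T ^ θ ≤
      volume.real (gapSet m T (T ^ θ) (2 * π * lam / Real.log T)) ∧
      (θ = 1 → c * (T * Real.log T) ≤
        ((gapOrd m T (2 * π * lam / Real.log T)).ncard : ℝ)) := by
  obtain ⟨c, hc, hT⟩ := meas_gap_w hRH hm hlam hlu hθ0 hθ1 hκ hκθ hG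
  by_cases h1 : θ = 1
  · subst h1
    simp only [Real.rpow_one] at hT ⊢
    obtain ⟨c', hc', hT'⟩ := count_gap hRH hc hT
    refine ⟨min c c', lt_min hc hc', ?_⟩
    filter_upwards [hT, hT', eventually_gt_atTop 1] with T h2 h3 hT1
    have hT0 : 0 < T := by linarith
    have hL : 0 < Real.log T := Real.log_pos hT1
    refine ⟨le_trans ?_ h2, fun _ => le_trans ?_ h3⟩
    · exact mul_le_mul_of_nonneg_right (min_le_left _ _) hT0.le
    · exact mul_le_mul_of_nonneg_right (min_le_right _ _) (by positivity)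
  · refine ⟨c, hc, ?_⟩
    filter_upwards [hT] with T h2
    exact ⟨h2, fun h3 => absurd h3 h1⟩

/-- The class of cut-off functions. -/
structure Cut (q : ℝ) (P : ℝ → ℝ) : Prop where
  hq : 0 < q
  cont : Continuous P
  anti : Antitone P
  one : 0 ≤ P 1

/-- Large gaps with a general cut-off. -/
theorem gaps_P (hRH : RiemannHypothesis) {m : ℕ} {lam θ q : ℝ} {P : ℝ → ℝ} (hm : 1 ≤ m)
    (hlam : 0 < lam) (hθ0 : 0 < θ) (hθ1 : θ ≤ 1) (hP : Cut q P) (hpos : 0 < NP q P (lam * θ))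
    (h : π * (lam - m) * DP q P < 2 * Real.sqrt q * NP q P (lam * θ)) :
    ∃ c : ℝ, 0 < c ∧ ∀ᶠ T : ℝ in atTop, c * T ^ θ ≤
      volume.real (gapSet m T (T ^ θ) (2 * π * lam / Real.log T)) ∧
      (θ = 1 → c * (T * Real.log T) ≤
        ((gapOrd m T (2 * π * lam / Real.log T)).ncard : ℝ)) := by
  have hs : 0 < lam * θ := mul_pos hlam hθ0
  have hsq : 0 < Real.sqrt q := Real.sqrt_pos.2 hP.hq
  have hc1 : ContinuousAt (fun u : ℝ => NP q P (u * θ)) lam :=
    ContinuousAt.comp (f := fun u : ℝ => u * θ) (g := NP q P)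
      (NP_cont hP.hq hP.cont hP.anti hP.one hs) (by fun_prop)
  have hc2 : ContinuousAt (fun u : ℝ => 2 * Real.sqrt q * NP q P (u * θ) -
      π * (u - m) * DP q P) lam := by
    refine (continuousAt_const.mul hc1).sub ?_
    fun_prop
  have h1 : ∀ᶠ u in 𝓝[>] lam, 0 < NP q P (u * θ) :=
    (hc1.eventually (lt_mem_nhds hpos)).filter_mono nhdsWithin_le_nhds
  have h2 : ∀ᶠ u in 𝓝[>] lam, 0 < 2 * Real.sqrt q * NP q P (u * θ) - π * (u - m) * DP q P :=
    (hc2.eventually (lt_mem_nhds (by linarith))).filter_mono nhdsWithin_le_nhds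
  have h3 : ∀ᶠ u in 𝓝[>] lam, u ∈ Ioi lam := self_mem_nhdsWithin
  obtain ⟨u, ⟨h4, h5⟩, h6⟩ := ((h1.and h2).and h3).exists
  have hlu : lam < u := h6
  have hu : 0 < u := hlam.trans hlu
  obtain ⟨κ, hκ, hκθ, hG⟩ := gain_P (sg := 1) (g := 1 * (u - m)) (Or.inl rfl) hu hθ0 hθ1 hP.hq
    hP.cont hP.anti hP.one (by
      rcases le_total (1 * (u - m)) 0 with h | h
      · rw [max_eq_right h, mul_zero, zero_mul]
        positivity
      · rw [max_eq_left h, one_mul]
        linarith)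
  exact gaps_of_gain_w hRH hm hlam hlu hθ0 hθ1 hκ hκθ hG

/-- Short groups of zeros with a general cut-off. -/
theorem pos_prop_P (hRH : RiemannHypothesis) {m : ℕ} {lam θ q : ℝ} {P : ℝ → ℝ} (hm : 1 ≤ m)
    (hlam : 0 < lam) (hθ0 : 0 < θ) (hθ1 : θ ≤ 1) (hP : Cut q P) (hpos : 0 < NP q P (lam * θ))
    (h : π * (m - lam) * DP q P < 2 * Real.sqrt q * NP q P (lam * θ)) :
    ∃ c : ℝ, 0 < c ∧ ∀ᶠ T : ℝ in atTop, c * (T ^ θ * Real.log T) ≤
      ((windowTuples m T (T ^ θ) lam).ncard : ℝ) := by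
  have hs : 0 < lam * θ := mul_pos hlam hθ0
  have hsq : 0 < Real.sqrt q := Real.sqrt_pos.2 hP.hq
  have hc1 : ContinuousAt (fun u : ℝ => NP q P (u * θ)) lam :=
    ContinuousAt.comp (f := fun u : ℝ => u * θ) (g := NP q P)
      (NP_cont hP.hq hP.cont hP.anti hP.one hs) (by fun_prop)
  have hc2 : ContinuousAt (fun u : ℝ => 2 * Real.sqrt q * NP q P (u * θ) -
      π * (m - u) * DP q P) lam := by
    refine (continuousAt_const.mul hc1).sub ?_
    fun_prop
  have h1 : ∀ᶠ u in 𝓝[<] lam, 0 < NP q P (u * θ) :=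
    (hc1.eventually (lt_mem_nhds hpos)).filter_mono nhdsWithin_le_nhds
  have h2 : ∀ᶠ u in 𝓝[<] lam, 0 < 2 * Real.sqrt q * NP q P (u * θ) - π * (m - u) * DP q P :=
    (hc2.eventually (lt_mem_nhds (by linarith))).filter_mono nhdsWithin_le_nhds
  have h3 : ∀ᶠ u in 𝓝[<] lam, u ∈ Iio lam := self_mem_nhdsWithin
  have h0 : ∀ᶠ u in 𝓝[<] lam, 0 < u := (lt_mem_nhds hlam).filter_mono nhdsWithin_le_nhds
  obtain ⟨u, ⟨⟨h4, h5⟩, h6⟩, hu⟩ := (((h1.and h2).and h3).and h0).exists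
  have hul : u < lam := h6
  obtain ⟨κ, hκ, hκθ, hG⟩ := gain_P (sg := -1) (g := -1 * (u - m)) (Or.inr rfl) hu hθ0 hθ1 hP.hq
    hP.cont hP.anti hP.one (by
      rcases le_total (-1 * (u - m)) 0 with h | h
      · rw [max_eq_right h, mul_zero, zero_mul]
        positivity
      · rw [max_eq_left h, show -1 * (u - m) = m - u by ring]
        linarith)
  exact pos_prop_of_gain_w hRH hm hu hul hθ0 hθ1 hκ hκθ hG

/-- The gain of the cut-off `P`. -/
noncomputable def GP (q : ℝ) (P : ℝ → ℝ) (s : ℝ) : ℝ :=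
  2 * Real.sqrt q * NP q P s / (π * DP q P)

theorem DP_pos {q s : ℝ} {P : ℝ → ℝ} (hs : 0 < s) (hP : Cut q P) (hpos : 0 < NP q P s) :
    0 < DP q P := by
  have hsq : 0 < Real.sqrt q := Real.sqrt_pos.2 hP.hq
  have h1 := NP_le hP.hq hs hP.cont hP.anti hP.one
  have h2 : 0 < 2 * Real.sqrt q * NP q P s := by positivity
  have h3 : 0 < 2 * s * (π * DP q P) := lt_of_lt_of_le h2 h1
  by_contra hn
  push Not at hn
  have : 2 * s * (π * DP q P) ≤ 0 := by
    have h4 : π * DP q P ≤ 0 := mul_nonpos_of_nonneg_of_nonpos Real.pi_pos.le hn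
    exact mul_nonpos_of_nonneg_of_nonpos (by positivity) h4
  linarith

theorem GP_le {q s : ℝ} {P : ℝ → ℝ} (hs : 0 < s) (hP : Cut q P) (hpos : 0 < NP q P s) :
    GP q P s ≤ 2 * s := by
  have hD := DP_pos hs hP hpos
  have hp := Real.pi_pos
  unfold GP
  rw [div_le_iff₀ (by positivity)]
  exact NP_le hP.hq hs hP.cont hP.anti hP.one

/-- A function on the unit interval, extended by constants. -/
noncomputable def ext (P : ℝ → ℝ) (x : ℝ) : ℝ := P (max 0 (min x 1))

theorem ext_eq (P : ℝ → ℝ) {x : ℝ} (hx : x ∈ Icc (0 : ℝ) 1) : ext P x = P x := by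
  unfold ext
  rw [min_eq_left hx.2, max_eq_right hx.1]

theorem ext_cut {q : ℝ} {P : ℝ → ℝ} (hq : 0 < q) (hP : ContinuousOn P (Icc 0 1))
    (hPa : AntitoneOn P (Icc 0 1)) (hP1 : 0 ≤ P 1) : Cut q (ext P) := by
  have hm : ∀ x : ℝ, max 0 (min x 1) ∈ Icc (0 : ℝ) 1 := fun x =>
    ⟨le_max_left _ _, max_le zero_le_one (min_le_right _ _)⟩
  refine ⟨hq, ?_, ?_, ?_⟩
  · exact hP.comp_continuous (by fun_prop) hm
  · intro x y hxy
    exact hPa (hm x) (hm y) (max_le_max le_rfl (min_le_min hxy le_rfl))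
  · rw [ext_eq P ⟨zero_le_one, le_rfl⟩]
    exact hP1

theorem DP_ext (q : ℝ) (P : ℝ → ℝ) : DP q (ext P) = DP q P := by
  unfold DP
  refine intervalIntegral.integral_congr fun x hx => ?_
  rw [uIcc_of_le zero_le_one] at hx
  simp only [ext_eq P hx]

theorem NP_ext (q s : ℝ) (P : ℝ → ℝ) : NP q (ext P) s = NP q P s := by
  unfold NP
  refine intervalIntegral.integral_congr fun y hy => ?_
  rw [uIcc_of_le zero_le_one] at hy
  have h : WP q (ext P) y = WP q P y := by
    unfold WP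
    refine intervalIntegral.integral_congr fun x hx => ?_
    rw [uIcc_of_le (by linarith [hy.2])] at hx
    simp only [ext_eq P (show x ∈ Icc (0 : ℝ) 1 from ⟨hx.1, by linarith [hx.2, hy.1]⟩),
      ext_eq P (show x + y ∈ Icc (0 : ℝ) 1 from ⟨by linarith [hx.1, hy.1], by linarith [hx.2]⟩)]
  simp only [h]

theorem GP_ext (q s : ℝ) (P : ℝ → ℝ) : GP q (ext P) s = GP q P s := by
  unfold GP
  rw [DP_ext, NP_ext]

end Pool.Agent.MP_67227b_nt.Lw
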