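import Pool.Agent.MP_67227b_nt.Lw.LwCut

set_option autoImplicit false

/-! # The gain at `2.7` -/

open Set MeasureTheory
open scoped Real

namespace Pool.Agent.MP_67227b_nt.Lw

open Pool.Agent.MP_67227b_nt.Lg

/-- The cut-off `1500 (1-x)^2 + 500 (1-x) + 39`. -/
noncomputable def Pn (x : ℝ) : ℝ := 2039 - 3500 * x + 1500 * x ^ 2

/-- coefficients of the correlation of `Pn` -/
noncomputable def cW (i : ℕ) : ℝ := ([3154403/1287, -1443779/99, 840272/33, 43412/3, -241118/3, -64694, 1848388/3, -3850252/3, 1497021, -10061521/9, 4942300/9, -5704400/33, 350000/11, -375000/143] : List ℝ).getD i 0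

/-- coefficients of the product with the Taylor polynomial -/
noncomputable def cI (i : ℕ) : ℝ := ([44593795211/2145000, -20410703723/165000, -4765226139/143000, 17667475479/11000, -1698020834743/715000, -404640066069/55000, 5679499958999/268125, 417908522717/41250, -386959567793/4125, 544379963944/6875, 33501441331721/234000, -298769917359407/990000, 7458332792851/165000, 786229155582971/2145000, -53100961927121/165000, -11980909429927/85800, 58197912023561/165000, -143808610088237/2145000, -95477578262989/330000, 4522717635506119/12870000, -2030175545269/9900, 5188726898/75, -143404555/11, 307295475/286] : List ℝ).getD i 0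

lemma cW_eq (y : ℝ) : (2039 * (2039 - 3500 * y + 1500 * y ^ 2)) * ((1 - y) ^ 9 / 9) +
    (2039 * (-3500 + 3000 * y) + (-3500) * (2039 - 3500 * y + 1500 * y ^ 2)) *
      ((1 - y) ^ 10 / 10) +
    (2039 * 1500 + (-3500) * (-3500 + 3000 * y) + 1500 * (2039 - 3500 * y + 1500 * y ^ 2)) *
      ((1 - y) ^ 11 / 11) +
    ((-3500) * 1500 + 1500 * (-3500 + 3000 * y)) * ((1 - y) ^ 12 / 12) +
    (1500 * 1500) * ((1 - y) ^ 13 / 13) = ∑ i ∈ Finset.range 14, cW i * y ^ i := by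
  simp only [Finset.sum_range_succ, Finset.sum_range_zero, cW, List.getD_cons_zero,
    List.getD_cons_succ]
  ring

lemma cI_eq (y : ℝ) : (8.4822 - 101.7162 * y ^ 2 + 365.9202 * y ^ 4 - 626.8524 * y ^ 6 +
    626.4102 * y ^ 8 - 409.7273 * y ^ 10) * (∑ i ∈ Finset.range 14, cW i * y ^ i) =
      ∑ i ∈ Finset.range 24, cI i * y ^ i := by
  simp only [Finset.sum_range_succ, Finset.sum_range_zero, cW, cI, List.getD_cons_zero,
    List.getD_cons_succ]
  ring

lemma cI_int : (2182.18 : ℝ) ≤ ∑ i ∈ Finset.range 24,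
    cI i * (((10 / 27 : ℝ) ^ (i + 1) - 0 ^ (i + 1)) / (i + 1)) := by
  simp only [Finset.sum_range_succ, Finset.sum_range_zero, cI, List.getD_cons_zero,
    List.getD_cons_succ]
  norm_num

/-- The correlation of `Pn`. -/
theorem WP_Pn (y : ℝ) : WP 9 Pn y = ∑ i ∈ Finset.range 14, cW i * y ^ i := by
  unfold WP
  have h0 : (∫ x in (0 : ℝ)..(1 - y), Pn x * Pn (x + y) * x ^ ((9 : ℝ) - 1)) =
      ∫ x in (0 : ℝ)..(1 - y),
        ((2039 * (2039 - 3500 * y + 1500 * y ^ 2)) * x ^ 8 +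
        (2039 * (-3500 + 3000 * y) + (-3500) * (2039 - 3500 * y + 1500 * y ^ 2)) * x ^ 9 +
        (2039 * 1500 + (-3500) * (-3500 + 3000 * y) +
          1500 * (2039 - 3500 * y + 1500 * y ^ 2)) * x ^ 10 +
        ((-3500) * 1500 + 1500 * (-3500 + 3000 * y)) * x ^ 11 +
        (1500 * 1500) * x ^ 12) := by
    refine intervalIntegral.integral_congr fun x _ => ?_
    have h1 : x ^ ((9 : ℝ) - 1) = x ^ 8 := by
      rw [show (9 : ℝ) - 1 = ((8 : ℕ) : ℝ) by norm_num, Real.rpow_natCast]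
    simp only [h1, Pn]
    ring
  rw [h0]
  have hi : ∀ (c : ℝ) (n : ℕ), IntervalIntegrable (fun x : ℝ => c * x ^ n) volume 0 (1 - y) :=
    fun c n => (continuous_const.mul (continuous_pow n)).intervalIntegrable _ _
  rw [intervalIntegral.integral_add ((((hi _ 8).add (hi _ 9)).add (hi _ 10)).add (hi _ 11))
      (hi _ 12),
    intervalIntegral.integral_add (((hi _ 8).add (hi _ 9)).add (hi _ 10)) (hi _ 11),
    intervalIntegral.integral_add ((hi _ 8).add (hi _ 9)) (hi _ 10),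
    intervalIntegral.integral_add (hi _ 8) (hi _ 9)]
  simp only [intervalIntegral.integral_const_mul, integral_pow]
  rw [← cW_eq]
  norm_num

lemma archn {y : ℝ} (hy : 0 < y) : (8.4822 - 101.7162 * y ^ 2 + 365.9202 * y ^ 4 -
    626.8524 * y ^ 6 + 626.4102 * y ^ 8 - 409.7273 * y ^ 10) ≤ ks 2.7 y := by
  rw [← ks_eq (by norm_num) hy, le_div_iff₀ hy]
  have hl := Real.pi_gt_d6
  have hu := Real.pi_lt_d6
  have hp := Real.pi_pos
  have h1 := sin_ge_six (z := π * 2.7 * y) (by positivity)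
  have h2 := le_abs_self (Real.sin (π * 2.7 * y))
  have u3 : π ^ 3 ≤ 3.141593 ^ 3 := pow_le_pow_left₀ hp.le hu.le 3
  have l5 : 3.141592 ^ 5 ≤ π ^ 5 := pow_le_pow_left₀ (by norm_num) hl.le 5
  have u7 : π ^ 7 ≤ 3.141593 ^ 7 := pow_le_pow_left₀ hp.le hu.le 7
  have l9 : 3.141592 ^ 9 ≤ π ^ 9 := pow_le_pow_left₀ (by norm_num) hl.le 9
  have u11 : π ^ 11 ≤ 3.141593 ^ 11 := pow_le_pow_left₀ hp.le hu.le 11
  have e1 : 8.4822 * y ≤ π * 2.7 * y := by
    apply mul_le_mul_of_nonneg_right _ hy.le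
    norm_num at hl ⊢
    linarith
  have e3 : (π * 2.7 * y) ^ 3 / 6 ≤ 101.7162 * y ^ 3 := by
    have : (π * 2.7 * y) ^ 3 / 6 = (π ^ 3 * (2.7 ^ 3 / 6)) * y ^ 3 := by ring
    rw [this]
    apply mul_le_mul_of_nonneg_right _ (by positivity)
    calc π ^ 3 * (2.7 ^ 3 / 6) ≤ 3.141593 ^ 3 * (2.7 ^ 3 / 6) :=
          mul_le_mul_of_nonneg_right u3 (by norm_num)
      _ ≤ 101.7162 := by norm_num
  have e5 : 365.9202 * y ^ 5 ≤ (π * 2.7 * y) ^ 5 / 120 := by
    have : (π * 2.7 * y) ^ 5 / 120 = (π ^ 5 * (2.7 ^ 5 / 120)) * y ^ 5 := by ring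
    rw [this]
    apply mul_le_mul_of_nonneg_right _ (by positivity)
    calc (365.9202 : ℝ) ≤ 3.141592 ^ 5 * (2.7 ^ 5 / 120) := by norm_num
      _ ≤ _ := mul_le_mul_of_nonneg_right l5 (by norm_num)
  have e7 : (π * 2.7 * y) ^ 7 / 5040 ≤ 626.8524 * y ^ 7 := by
    have : (π * 2.7 * y) ^ 7 / 5040 = (π ^ 7 * (2.7 ^ 7 / 5040)) * y ^ 7 := by ring
    rw [this]
    apply mul_le_mul_of_nonneg_right _ (by positivity)
    calc π ^ 7 * (2.7 ^ 7 / 5040) ≤ 3.141593 ^ 7 * (2.7 ^ 7 / 5040) :=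
          mul_le_mul_of_nonneg_right u7 (by norm_num)
      _ ≤ 626.8524 := by norm_num
  have e9 : 626.4102 * y ^ 9 ≤ (π * 2.7 * y) ^ 9 / 362880 := by
    have : (π * 2.7 * y) ^ 9 / 362880 = (π ^ 9 * (2.7 ^ 9 / 362880)) * y ^ 9 := by ring
    rw [this]
    apply mul_le_mul_of_nonneg_right _ (by positivity)
    calc (626.4102 : ℝ) ≤ 3.141592 ^ 9 * (2.7 ^ 9 / 362880) := by norm_num
      _ ≤ _ := mul_le_mul_of_nonneg_right l9 (by norm_num)
  have e11 : (π * 2.7 * y) ^ 11 / 39916800 ≤ 409.7273 * y ^ 11 := by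
    have : (π * 2.7 * y) ^ 11 / 39916800 = (π ^ 11 * (2.7 ^ 11 / 39916800)) * y ^ 11 := by ring
    rw [this]
    apply mul_le_mul_of_nonneg_right _ (by positivity)
    calc π ^ 11 * (2.7 ^ 11 / 39916800) ≤ 3.141593 ^ 11 * (2.7 ^ 11 / 39916800) :=
          mul_le_mul_of_nonneg_right u11 (by norm_num)
      _ ≤ 409.7273 := by norm_num
  have e : (8.4822 - 101.7162 * y ^ 2 + 365.9202 * y ^ 4 -
      626.8524 * y ^ 6 + 626.4102 * y ^ 8 - 409.7273 * y ^ 10) * y =
      8.4822 * y - 101.7162 * y ^ 3 + 365.9202 * y ^ 5 -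
      626.8524 * y ^ 7 + 626.4102 * y ^ 9 - 409.7273 * y ^ 11 := by ring
  rw [e]
  linarith

lemma Pn_nonneg {x : ℝ} (hx : x ≤ 1) : 0 ≤ Pn x := by
  unfold Pn
  nlinarith [sq_nonneg (1 - x)]

lemma WPn_nonneg {y : ℝ} (hy0 : 0 ≤ y) (hy : y ≤ 1) : 0 ≤ WP 9 Pn y := by
  unfold WP
  refine intervalIntegral.integral_nonneg (by linarith) fun x hx => ?_
  exact mul_nonneg (mul_nonneg (Pn_nonneg (by linarith [hx.2]))
    (Pn_nonneg (by linarith [hx.2]))) (Real.rpow_nonneg hx.1 _)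

theorem DP_Pn : DP 9 Pn = 3154403 / 1287 := by
  rw [← WP_zero, WP_Pn]
  simp only [Finset.sum_range_succ, Finset.sum_range_zero, cW, List.getD_cons_zero,
    List.getD_cons_succ]
  norm_num

/-- **The gain at `2.7`.** -/
theorem num27 : 1.7 * (π * DP 9 Pn) < 2 * Real.sqrt 9 * NP 9 Pn 2.7 := by
  have hs : Real.sqrt 9 = 3 := by
    rw [show (9 : ℝ) = 3 ^ 2 by norm_num, Real.sqrt_sq (by norm_num)]
  have h0 : NP 9 Pn 2.7 = ∫ y in (0 : ℝ)..1, ks 2.7 y * ∑ i ∈ Finset.range 14, cW i * y ^ i := by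
    rw [NP_eq Pn (by norm_num)]
    refine intervalIntegral.integral_congr fun y _ => ?_
    simp only [WP_Pn]
  have hcont : Continuous fun y : ℝ => ks 2.7 y * ∑ i ∈ Finset.range 14, cW i * y ^ i :=
    (ks_cont _).mul (continuous_finsetSum _ fun i _ => continuous_const.mul (continuous_pow i))
  have hi : ∀ a b : ℝ, IntervalIntegrable
      (fun y : ℝ => ks 2.7 y * ∑ i ∈ Finset.range 14, cW i * y ^ i) volume a b :=
    fun a b => hcont.intervalIntegrable a b
  have h1 : (2182.18 : ℝ) ≤ ∫ y in (0 : ℝ)..(10 / 27), ks 2.7 y *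
      ∑ i ∈ Finset.range 14, cW i * y ^ i := by
    refine cI_int.trans ?_
    rw [← int_poly]
    refine intervalIntegral.integral_mono_on_of_le_Ioo (by norm_num) ?_ (hi _ _) ?_
    · exact (continuous_finsetSum _ fun i _ =>
        continuous_const.mul (continuous_pow i)).intervalIntegrable _ _
    · intro y hy
      rw [← cI_eq]
      refine mul_le_mul_of_nonneg_right (archn hy.1) ?_
      rw [← WP_Pn]
      exact WPn_nonneg hy.1.le (by linarith [hy.2])
  have h3 : (0 : ℝ) ≤ ∫ y in (10 / 27 : ℝ)..1, ks 2.7 y *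
      ∑ i ∈ Finset.range 14, cW i * y ^ i := by
    apply intervalIntegral.integral_nonneg (by norm_num)
    intro y hy
    have hy0 : 0 ≤ y := le_trans (by norm_num) hy.1
    refine mul_nonneg (ks_nonneg (by norm_num) y) ?_
    rw [← WP_Pn]
    exact WPn_nonneg hy0 hy.2
  have h4 := intervalIntegral.integral_add_adjacent_intervals (hi 0 (10 / 27)) (hi (10 / 27) 1)
  rw [h0, ← h4, hs, DP_Pn]
  have hu := Real.pi_lt_d6
  norm_num at h1 hu ⊢
  linarith

end Pool.Agent.MP_67227b_nt.Lw
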