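import Pool.Agent.MP_67227b_nt.Lw.LwCut

set_option autoImplicit false

/-! # The gain at `1.1` -/

open Set MeasureTheory
open scoped Real

namespace Pool.Agent.MP_67227b_nt.Lw

open Pool.Agent.MP_67227b_nt.Lg

/-- The cut-off `300 (1-x) + 49`. -/
noncomputable def Pm (x : ℝ) : ℝ := 349 - 300 * x

/-- coefficients of the correlation of `Pm` -/
noncomputable def dW (i : ℕ) : ℝ := ([14281/4, -10576, 7203/2, 19949, -116999/4, 15705, -3000] : List ℝ).getD i 0

/-- coefficients of the product with the Taylor polynomial -/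
noncomputable def dI (i : ℕ) : ℝ := ([197406263/16000, -9137003/250, -4844446813/400000, 14168291723/100000, -44475415177/400000, -3159438077/25000, 80576598633/400000, -1374020941/100000, -8240807857/80000, 1957823483/50000, 8983668091/400000, -1425396391/100000, -895089449/400000, 131118699/50000, 13620897/400000, -6605523/20000, 6309/100] : List ℝ).getD i 0

lemma dW_eq (y : ℝ) : (349 * (349 - 300 * y)) * ((1 - y) ^ 4 / 4) +
    (349 * (-300) + (-300) * (349 - 300 * y)) * ((1 - y) ^ 5 / 5) +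
    (300 * 300) * ((1 - y) ^ 6 / 6) = ∑ i ∈ Finset.range 7, dW i * y ^ i := by
  simp only [Finset.sum_range_succ, Finset.sum_range_zero, dW, List.getD_cons_zero,
    List.getD_cons_succ]
  ring

lemma dI_eq (y : ℝ) : (3.45575 - 6.87823 * y ^ 2 + 4.10706 * y ^ 4 - 1.1678 * y ^ 6 +
    0.19369 * y ^ 8 - 0.02103 * y ^ 10) * (∑ i ∈ Finset.range 7, dW i * y ^ i) =
      ∑ i ∈ Finset.range 17, dI i * y ^ i := by
  simp only [Finset.sum_range_succ, Finset.sum_range_zero, dW, dI, List.getD_cons_zero,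
    List.getD_cons_succ]
  ring

lemma dI_int : (2531.288 : ℝ) ≤ ∑ i ∈ Finset.range 17,
    dI i * (((1 : ℝ) ^ (i + 1) - 0 ^ (i + 1)) / (i + 1)) := by
  simp only [Finset.sum_range_succ, Finset.sum_range_zero, dI, List.getD_cons_zero,
    List.getD_cons_succ]
  norm_num

/-- The correlation of `Pm`. -/
theorem WP_Pm (y : ℝ) : WP 4 Pm y = ∑ i ∈ Finset.range 7, dW i * y ^ i := by
  unfold WP
  have h0 : (∫ x in (0 : ℝ)..(1 - y), Pm x * Pm (x + y) * x ^ ((4 : ℝ) - 1)) =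
      ∫ x in (0 : ℝ)..(1 - y), ((349 * (349 - 300 * y)) * x ^ 3 +
        (349 * (-300) + (-300) * (349 - 300 * y)) * x ^ 4 + (300 * 300) * x ^ 5) := by
    refine intervalIntegral.integral_congr fun x _ => ?_
    have h1 : x ^ ((4 : ℝ) - 1) = x ^ 3 := by
      rw [show (4 : ℝ) - 1 = ((3 : ℕ) : ℝ) by norm_num, Real.rpow_natCast]
    simp only [h1, Pm]
    ring
  rw [h0]
  have hi : ∀ (c : ℝ) (n : ℕ), IntervalIntegrable (fun x : ℝ => c * x ^ n) volume 0 (1 - y) :=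
    fun c n => (continuous_const.mul (continuous_pow n)).intervalIntegrable _ _
  rw [intervalIntegral.integral_add ((hi _ 3).add (hi _ 4)) (hi _ 5),
    intervalIntegral.integral_add (hi _ 3) (hi _ 4)]
  simp only [intervalIntegral.integral_const_mul, integral_pow]
  rw [← dW_eq]
  norm_num

lemma archm {y : ℝ} (hy : 0 < y) : (3.45575 - 6.87823 * y ^ 2 + 4.10706 * y ^ 4 - 1.1678 * y ^ 6 +
    0.19369 * y ^ 8 - 0.02103 * y ^ 10) ≤ ks 1.1 y := by
  rw [← ks_eq (by norm_num) hy, le_div_iff₀ hy]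
  have hl := Real.pi_gt_d6
  have hu := Real.pi_lt_d6
  have hp := Real.pi_pos
  have h1 := sin_ge_six (z := π * 1.1 * y) (by positivity)
  have h2 := le_abs_self (Real.sin (π * 1.1 * y))
  have u3 : π ^ 3 ≤ 3.141593 ^ 3 := pow_le_pow_left₀ hp.le hu.le 3
  have l5 : 3.141592 ^ 5 ≤ π ^ 5 := pow_le_pow_left₀ (by norm_num) hl.le 5
  have u7 : π ^ 7 ≤ 3.141593 ^ 7 := pow_le_pow_left₀ hp.le hu.le 7
  have l9 : 3.141592 ^ 9 ≤ π ^ 9 := pow_le_pow_left₀ (by norm_num) hl.le 9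
  have u11 : π ^ 11 ≤ 3.141593 ^ 11 := pow_le_pow_left₀ hp.le hu.le 11
  have e1 : 3.45575 * y ≤ π * 1.1 * y := by
    apply mul_le_mul_of_nonneg_right _ hy.le
    norm_num at hl ⊢
    linarith
  have e3 : (π * 1.1 * y) ^ 3 / 6 ≤ 6.87823 * y ^ 3 := by
    have : (π * 1.1 * y) ^ 3 / 6 = (π ^ 3 * (1.1 ^ 3 / 6)) * y ^ 3 := by ring
    rw [this]
    apply mul_le_mul_of_nonneg_right _ (by positivity)
    calc π ^ 3 * (1.1 ^ 3 / 6) ≤ 3.141593 ^ 3 * (1.1 ^ 3 / 6) :=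
          mul_le_mul_of_nonneg_right u3 (by norm_num)
      _ ≤ 6.87823 := by norm_num
  have e5 : 4.10706 * y ^ 5 ≤ (π * 1.1 * y) ^ 5 / 120 := by
    have : (π * 1.1 * y) ^ 5 / 120 = (π ^ 5 * (1.1 ^ 5 / 120)) * y ^ 5 := by ring
    rw [this]
    apply mul_le_mul_of_nonneg_right _ (by positivity)
    calc (4.10706 : ℝ) ≤ 3.141592 ^ 5 * (1.1 ^ 5 / 120) := by norm_num
      _ ≤ _ := mul_le_mul_of_nonneg_right l5 (by norm_num)
  have e7 : (π * 1.1 * y) ^ 7 / 5040 ≤ 1.1678 * y ^ 7 := by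
    have : (π * 1.1 * y) ^ 7 / 5040 = (π ^ 7 * (1.1 ^ 7 / 5040)) * y ^ 7 := by ring
    rw [this]
    apply mul_le_mul_of_nonneg_right _ (by positivity)
    calc π ^ 7 * (1.1 ^ 7 / 5040) ≤ 3.141593 ^ 7 * (1.1 ^ 7 / 5040) :=
          mul_le_mul_of_nonneg_right u7 (by norm_num)
      _ ≤ 1.1678 := by norm_num
  have e9 : 0.19369 * y ^ 9 ≤ (π * 1.1 * y) ^ 9 / 362880 := by
    have : (π * 1.1 * y) ^ 9 / 362880 = (π ^ 9 * (1.1 ^ 9 / 362880)) * y ^ 9 := by ring
    rw [this]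
    apply mul_le_mul_of_nonneg_right _ (by positivity)
    calc (0.19369 : ℝ) ≤ 3.141592 ^ 9 * (1.1 ^ 9 / 362880) := by norm_num
      _ ≤ _ := mul_le_mul_of_nonneg_right l9 (by norm_num)
  have e11 : (π * 1.1 * y) ^ 11 / 39916800 ≤ 0.02103 * y ^ 11 := by
    have : (π * 1.1 * y) ^ 11 / 39916800 = (π ^ 11 * (1.1 ^ 11 / 39916800)) * y ^ 11 := by ring
    rw [this]
    apply mul_le_mul_of_nonneg_right _ (by positivity)
    calc π ^ 11 * (1.1 ^ 11 / 39916800) ≤ 3.141593 ^ 11 * (1.1 ^ 11 / 39916800) :=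
          mul_le_mul_of_nonneg_right u11 (by norm_num)
      _ ≤ 0.02103 := by norm_num
  have e : (3.45575 - 6.87823 * y ^ 2 + 4.10706 * y ^ 4 - 1.1678 * y ^ 6 +
    0.19369 * y ^ 8 - 0.02103 * y ^ 10) * y =
      3.45575 * y - 6.87823 * y ^ 3 + 4.10706 * y ^ 5 -
      1.1678 * y ^ 7 + 0.19369 * y ^ 9 - 0.02103 * y ^ 11 := by ring
  rw [e]
  linarith

lemma Pm_nonneg {x : ℝ} (hx : x ≤ 1) : 0 ≤ Pm x := by
  unfold Pm
  linarith

lemma WPm_nonneg {y : ℝ} (hy0 : 0 ≤ y) (hy : y ≤ 1) : 0 ≤ WP 4 Pm y := by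
  unfold WP
  refine intervalIntegral.integral_nonneg (by linarith) fun x hx => ?_
  exact mul_nonneg (mul_nonneg (Pm_nonneg (by linarith [hx.2]))
    (Pm_nonneg (by linarith [hx.2]))) (Real.rpow_nonneg hx.1 _)

theorem DP_Pm : DP 4 Pm = 14281/4 := by
  rw [← WP_zero, WP_Pm]
  simp only [Finset.sum_range_succ, Finset.sum_range_zero, dW, List.getD_cons_zero,
    List.getD_cons_succ]
  norm_num

/-- **The gain at `1.1`.** -/
theorem num11 : 0.9 * (π * DP 4 Pm) < 2 * Real.sqrt 4 * NP 4 Pm 1.1 := by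
  have hs : Real.sqrt 4 = 2 := by
    rw [show (4 : ℝ) = 2 ^ 2 by norm_num, Real.sqrt_sq (by norm_num)]
  have h0 : NP 4 Pm 1.1 = ∫ y in (0 : ℝ)..1, ks 1.1 y * ∑ i ∈ Finset.range 7, dW i * y ^ i := by
    rw [NP_eq Pm (by norm_num)]
    refine intervalIntegral.integral_congr fun y _ => ?_
    simp only [WP_Pm]
  have hcont : Continuous fun y : ℝ => ks 1.1 y * ∑ i ∈ Finset.range 7, dW i * y ^ i :=
    (ks_cont _).mul (continuous_finsetSum _ fun i _ => continuous_const.mul (continuous_pow i))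
  have h1 : (2531.288 : ℝ) ≤ ∫ y in (0 : ℝ)..1, ks 1.1 y *
      ∑ i ∈ Finset.range 7, dW i * y ^ i := by
    refine dI_int.trans ?_
    rw [← int_poly]
    refine intervalIntegral.integral_mono_on_of_le_Ioo zero_le_one ?_
      (hcont.intervalIntegrable _ _) ?_
    · exact (continuous_finsetSum _ fun i _ =>
        continuous_const.mul (continuous_pow i)).intervalIntegrable _ _
    · intro y hy
      rw [← dI_eq]
      refine mul_le_mul_of_nonneg_right (archm hy.1) ?_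
      rw [← WP_Pm]
      exact WPm_nonneg hy.1.le (by linarith [hy.2])
  rw [h0, hs, DP_Pm]
  have hu := Real.pi_lt_d6
  norm_num at h1 hu ⊢
  linarith

end Pool.Agent.MP_67227b_nt.Lw
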