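import Pool.Agent.MP_67227b_nt.Lw.LwFinal
import Pool.Agent.MP_67227b_nt.Lw.LwNum
import Pool.Agent.MP_67227b_nt.Lw.LwNumB

set_option autoImplicit false

/-! # The gain function: bounds and values -/

open Filter Topology Set MeasureTheory
open scoped Real

namespace Pool.Agent.MP_67227b_nt.Lw

/-- The bound by a cut-off function on the unit interval. -/
theorem clause_P {s g q : ℝ} {P : ℝ → ℝ} (hq : 0 < q) (hs : 0 < s)
    (hP : ContinuousOn P (Icc 0 1)) (hPa : AntitoneOn P (Icc 0 1)) (hP1 : 0 ≤ P 1) (hg0 : 0 ≤ g)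
    (hg : ∀ (q : ℝ) (P : ℝ → ℝ), Cut q P → 0 < NP q P s → GP q P s ≤ g) :
    2 * Real.sqrt q / π * NP q P s ≤ g * DP q P := by
  have hp := Real.pi_pos
  have hsq := Real.sqrt_nonneg q
  have hC := ext_cut hq hP hPa hP1
  by_cases hpos : 0 < NP q (ext P) s
  · have h1 := hg q (ext P) hC hpos
    have hD := DP_pos hs hC hpos
    unfold GP at h1
    rw [div_le_iff₀ (by positivity), DP_ext, NP_ext] at h1
    rw [div_mul_eq_mul_div, div_le_iff₀ hp]
    linarith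
  · push Not at hpos
    rw [NP_ext] at hpos
    have h1 : 2 * Real.sqrt q / π * NP q P s ≤ 0 :=
      mul_nonpos_of_nonneg_of_nonpos (by positivity) hpos
    exact h1.trans (mul_nonneg hg0 (DP_nonneg q P))

private theorem gp_of {q s c : ℝ} {P : ℝ → ℝ} (hs : 0 < s) (hc : 0 ≤ c)
    (hC : Cut q (ext P)) (h : c * (π * DP q P) < 2 * Real.sqrt q * NP q P s) :
    0 < NP q (ext P) s ∧ c < GP q (ext P) s := by
  have hp := Real.pi_pos
  have hsq : 0 < Real.sqrt q := Real.sqrt_pos.2 hC.hq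
  have hD0 := DP_nonneg q P
  have hpos : 0 < NP q (ext P) s := by
    rw [NP_ext]
    by_contra hn
    push Not at hn
    have h1 : 2 * Real.sqrt q * NP q P s ≤ 0 :=
      mul_nonpos_of_nonneg_of_nonpos (by positivity) hn
    have h2 : 0 ≤ c * (π * DP q P) := by positivity
    linarith
  refine ⟨hpos, ?_⟩
  have hD := DP_pos hs hC hpos
  rw [DP_ext] at hD
  rw [GP_ext]
  unfold GP
  rw [lt_div_iff₀ (by positivity)]
  exact h

theorem gp27 : Cut 9 (ext Pn) ∧ 0 < NP 9 (ext Pn) 2.7 ∧ 1.7 < GP 9 (ext Pn) 2.7 := by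
  have hC : Cut 9 (ext Pn) := by
    refine ext_cut (by norm_num) ?_ ?_ (Pn_nonneg le_rfl)
    · unfold Pn
      fun_prop
    · intro x hx y hy hxy
      unfold Pn
      nlinarith [hx.2, hy.2, mul_nonneg (sub_nonneg.2 hxy)
        (by linarith [hx.2, hy.2] : (0 : ℝ) ≤ 3500 - 1500 * (x + y))]
  obtain ⟨h1, h2⟩ := gp_of (s := 2.7) (c := 1.7) (by norm_num) (by norm_num) hC num27
  exact ⟨hC, h1, h2⟩

theorem gp11 : Cut 4 (ext Pm) ∧ 0 < NP 4 (ext Pm) 1.1 ∧ 0.9 < GP 4 (ext Pm) 1.1 := by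
  have hC : Cut 4 (ext Pm) := by
    refine ext_cut (by norm_num) ?_ ?_ (Pm_nonneg le_rfl)
    · unfold Pm
      fun_prop
    · intro x hx y hy hxy
      unfold Pm
      linarith
  obtain ⟨h1, h2⟩ := gp_of (s := 1.1) (c := 0.9) (by norm_num) (by norm_num) hC num11
  exact ⟨hC, h1, h2⟩

/-- Large gaps from a value of the gain. -/
theorem gaps_GP (hRH : RiemannHypothesis) {m : ℕ} {lam θ q : ℝ} {P : ℝ → ℝ} (hm : 1 ≤ m)
    (hlam : 0 < lam) (hθ0 : 0 < θ) (hθ1 : θ ≤ 1) (hP : Cut q P) (hpos : 0 < NP q P (lam * θ))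
    (h : lam - GP q P (lam * θ) < m) :
    ∃ c : ℝ, 0 < c ∧ ∀ᶠ T : ℝ in atTop, c * T ^ θ ≤
      volume.real (Lg.gapSet m T (T ^ θ) (2 * π * lam / Real.log T)) ∧
      (θ = 1 → c * (T * Real.log T) ≤
        ((Lg.gapOrd m T (2 * π * lam / Real.log T)).ncard : ℝ)) := by
  have hp := Real.pi_pos
  have hD := DP_pos (mul_pos hlam hθ0) hP hpos
  refine gaps_P hRH hm hlam hθ0 hθ1 hP hpos ?_
  have h1 : lam - m < GP q P (lam * θ) := by linarith
  unfold GP at h1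
  rw [lt_div_iff₀ (by positivity)] at h1
  linarith

/-- Short groups from a value of the gain. -/
theorem pos_prop_GP (hRH : RiemannHypothesis) {m : ℕ} {lam θ q : ℝ} {P : ℝ → ℝ} (hm : 1 ≤ m)
    (hlam : 0 < lam) (hθ0 : 0 < θ) (hθ1 : θ ≤ 1) (hP : Cut q P) (hpos : 0 < NP q P (lam * θ))
    (h : (m : ℝ) < lam + GP q P (lam * θ)) :
    ∃ c : ℝ, 0 < c ∧ ∀ᶠ T : ℝ in atTop, c * (T ^ θ * Real.log T) ≤
      ((Al.windowTuples m T (T ^ θ) lam).ncard : ℝ) := by
  have hp := Real.pi_pos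
  have hD := DP_pos (mul_pos hlam hθ0) hP hpos
  refine pos_prop_P hRH hm hlam hθ0 hθ1 hP hpos ?_
  have h1 : m - lam < GP q P (lam * θ) := by linarith
  unfold GP at h1
  rw [lt_div_iff₀ (by positivity)] at h1
  linarith

end Pool.Agent.MP_67227b_nt.Lw
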