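import Pool.Agent.MP_67227b_nt.Al.AlGrid
import Pool.Agent.MP_67227b_nt.Lg.LgProf

set_option autoImplicit false

open Filter Topology Set MeasureTheory Complex
open scoped Real ArithmeticFunction ContDiff

namespace Pool.Agent.MP_67227b_nt.Lw

open Pool.Agent.Lib.ZetaCount_helper33 Pool.Agent.MP_67227b_nt Pool.Agent.MP_67227b_nt.Mo
open Pool.Agent.MP_67227b_nt.Sg Pool.Agent.MP_67227b_nt.Pp Pool.Agent.MP_67227b_nt.Al
open Pool.Agent.MP_67227b_nt.Lg

theorem Hz_abs_le {sg u κ q σ : ℝ} (hsg : sg = 1 ∨ sg = -1) (hσ1 : σ < 1) (hq : 0 < q) (x : ℝ) :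
    |Hz sg u κ q σ x| ≤ (1 - σ) * Real.sqrt q := by
  have hsq : 0 < Real.sqrt q := Real.sqrt_pos.2 hq
  have hsga : |sg| = 1 := by rcases hsg with h | h <;> rw [h] <;> norm_num
  have hA0 : 0 < (1 - σ) * Real.sqrt q := mul_pos (by linarith) hsq
  unfold Hz
  rw [abs_mul, abs_mul sg, hsga, one_mul, abs_of_pos hA0, abs_mul (tz σ κ x),
    abs_of_nonneg (tz_nonneg σ κ x)]
  have h2 := abs_sz_le σ (Real.sin (π * u * x))
  have h5 : tz σ κ x * |sz σ (Real.sin (π * u * x))| ≤ 1 :=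
    mul_le_one₀ (tz_le_one σ κ x) (abs_nonneg _) h2
  nlinarith [hA0]

theorem Hz_prof {sg u κ q σ : ℝ} (hsg : sg = 1 ∨ sg = -1) (hσ : 0 < σ) (hσ1 : σ < 1)
    (hq : 0 < q) : Prof sg u κ σ (Hz sg u κ q σ) := by
  have hsq : 0 < Real.sqrt q := Real.sqrt_pos.2 hq
  have hsg2 : sg * sg = 1 := by rcases hsg with h | h <;> rw [h] <;> norm_num
  have hA0 : 0 < (1 - σ) * Real.sqrt q := mul_pos (by linarith) hsq
  refine ⟨?_, ?_, ?_⟩
  · unfold Hz tz sz
    fun_prop
  · intro x hx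
    have hx' : tz σ κ x ≠ 0 := by
      intro h0
      apply hx
      unfold Hz
      rw [h0]
      ring
    have h1 := tz_supp hσ hx'
    exact ⟨h1.1.le, by linarith [h1.2]⟩
  · intro x hx
    have hx' : tz σ κ x ≠ 0 := by
      intro h0
      apply hx
      unfold Hz
      rw [h0]
      ring
    have hs' : sz σ (Real.sin (π * u * x)) ≠ 0 := by
      intro h0
      apply hx
      unfold Hz
      rw [h0]
      ring
    obtain ⟨h1, h2⟩ := sz_case hσ hs'
    refine ⟨h1.le, ?_⟩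
    have h3 : 0 < tz σ κ x := lt_of_le_of_ne (tz_nonneg _ _ _) (Ne.symm hx')
    have h4 : sg * Hz sg u κ q σ x * Real.sin (π * u * x) =
        (sg * sg) * (((1 - σ) * Real.sqrt q) * tz σ κ x *
          (sz σ (Real.sin (π * u * x)) * Real.sin (π * u * x))) := by
      unfold Hz; ring
    rw [h4, hsg2, one_mul]
    positivity

theorem Hz_cont (sg u κ q σ : ℝ) : Continuous (Hz sg u κ q σ) := by
  unfold Hz tz sz
  fun_prop

/-- The mean of the profile tends to `√q`. -/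
theorem Hz_mean {sg u κ q : ℝ} (hsg : sg = 1 ∨ sg = -1) (hu : 0 < u) (hκ : 0 < κ)
    (hq : 0 < q) : Tendsto (fun σ : ℝ => ∫ t in (0 : ℝ)..κ, |Hz sg u κ q σ t|) (𝓝[>] 0)
      (𝓝 (∫ _ in (0 : ℝ)..κ, Real.sqrt q)) := by
  have hpi := Real.pi_pos
  have hsq : 0 < Real.sqrt q := Real.sqrt_pos.2 hq
  have hsga : |sg| = 1 := by rcases hsg with h | h <;> rw [h] <;> norm_num
  have hev : ∀ᶠ σ : ℝ in 𝓝[>] (0 : ℝ), 0 < σ ∧ σ < 1 := by
    filter_upwards [self_mem_nhdsWithin,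
      (eventually_lt_nhds (zero_lt_one (α := ℝ))).filter_mono nhdsWithin_le_nhds] with σ h1 h2
    exact ⟨h1, h2⟩
  apply intervalIntegral.tendsto_integral_filter_of_dominated_convergence
    (fun _ => Real.sqrt q)
  · exact Eventually.of_forall fun σ => (Hz_cont sg u κ q σ).abs.aestronglyMeasurable
  · filter_upwards [hev] with σ hσ
    refine Filter.Eventually.of_forall fun t _ => ?_
    rw [Real.norm_eq_abs, abs_abs]
    refine (Hz_abs_le hsg hσ.2 hq t).trans ?_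
    nlinarith [hσ.1]
  · exact intervalIntegrable_const
  · have hc1 : (Set.range fun n : ℤ => (n : ℝ) / u).Countable := Set.countable_range _
    have hc2 : ({κ} : Set ℝ).Countable := Set.countable_singleton κ
    have hc3 : ({0} : Set ℝ).Countable := Set.countable_singleton 0
    filter_upwards [hc1.ae_notMem volume, hc2.ae_notMem volume] with t ht1 ht2 ht
    rw [uIoc_of_le hκ.le] at ht
    have ht0 : 0 < t := ht.1
    have htκ : t < κ := lt_of_le_of_ne ht.2 ht2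
    have hs : Real.sin (π * u * t) ≠ 0 := by
      intro h0
      obtain ⟨n, hn⟩ := Real.sin_eq_zero_iff.1 h0
      apply ht1
      refine ⟨n, ?_⟩
      show (n : ℝ) / u = t
      rw [div_eq_iff hu.ne']
      have h1 : (n : ℝ) * π = (t * u) * π := by rw [hn]; ring
      exact mul_right_cancel₀ hpi.ne' h1
    have hs0 : 0 < |Real.sin (π * u * t)| := abs_pos.mpr hs
    have hev2 : ∀ᶠ σ : ℝ in 𝓝[>] (0 : ℝ), 0 < σ ∧ σ < 1 ∧ σ < t / 2 ∧ σ < (κ - t) / 2 ∧
        σ < |Real.sin (π * u * t)| / 2 := by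
      have e1 : ∀ x : ℝ, 0 < x → ∀ᶠ σ : ℝ in 𝓝[>] (0 : ℝ), σ < x := fun x hx =>
        (eventually_lt_nhds hx).filter_mono nhdsWithin_le_nhds
      filter_upwards [self_mem_nhdsWithin, e1 1 one_pos, e1 (t / 2) (by positivity),
        e1 ((κ - t) / 2) (by linarith), e1 (|Real.sin (π * u * t)| / 2) (by positivity)]
        with σ h1 h2 h3 h4 h5
      exact ⟨h1, h2, h3, h4, h5⟩
    have heq : ∀ᶠ σ : ℝ in 𝓝[>] (0 : ℝ), (1 - σ) * Real.sqrt q = |Hz sg u κ q σ t| := by
      filter_upwards [hev2] with σ hσ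
      obtain ⟨h1, h2, h3, h4, h5⟩ := hσ
      unfold Hz
      rw [tz_one h1 (by linarith) (by linarith), one_mul, abs_mul, abs_mul, hsga,
        one_mul, abs_sz_one h1 (by linarith), mul_one,
        abs_of_nonneg (mul_nonneg (by linarith) hsq.le : 0 ≤ (1 - σ) * Real.sqrt q)]
    refine Tendsto.congr' heq ?_
    have hc : ContinuousAt (fun σ : ℝ => (1 - σ) * Real.sqrt q) 0 := by fun_prop
    have h6 := hc.tendsto.mono_left (nhdsWithin_le_nhds (s := Ioi (0 : ℝ)))
    simpa using h6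

/-- **The grid for the sharp profile.** -/
theorem grid_sharp {sg u κ q ε : ℝ} (hsg : sg = 1 ∨ sg = -1) (hu : 0 < u) (hκ : 0 < κ)
    (hq : 0 < q) (hε : 0 < ε) :
    ∃ (η M δ : ℝ) (a : ℕ → ℝ) (i0 i1 K : ℕ), 0 < η ∧ 0 < δ ∧ 1 ≤ i0 ∧ (∀ i, |a i| ≤ M) ∧
      κ < ((K : ℝ) + 1) * ((i0 : ℝ) * η) ∧ 2 * K * η ≤ ε ∧
      (∀ i ∈ Finset.Ico i0 i1, ∀ x ∈ Icc ((i : ℝ) * η) (((i : ℝ) + 2) * η),
        a i = tau sg u x * |a i|) ∧
      (∀ x, 0 ≤ hS (fun i => |a i|) η i0 i1 x) ∧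
      (∀ x, hS (fun i => |a i|) η i0 i1 x ≤ Real.sqrt q) ∧
      (∀ x, x ≤ δ → hS (fun i => |a i|) η i0 i1 x = 0) ∧
      (∃ B : ℝ, ∀ x y, |hS (fun i => |a i|) η i0 i1 x - hS (fun i => |a i|) η i0 i1 y| ≤
        B * |x - y|) ∧
      ∫ t in (0 : ℝ)..κ, (Real.sqrt q - hS (fun i => |a i|) η i0 i1 t) ≤ ε := by
  have hsq : 0 < Real.sqrt q := Real.sqrt_pos.2 hq
  have hlim := Hz_mean (sg := sg) hsg hu hκ hq
  have hc : (∫ _ in (0 : ℝ)..κ, Real.sqrt q) = κ * Real.sqrt q := by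
    rw [intervalIntegral.integral_const, sub_zero, smul_eq_mul]
  rw [hc] at hlim
  have hev3 := (hlim.eventually (lt_mem_nhds (by linarith : κ * Real.sqrt q - ε / 2 <
      κ * Real.sqrt q))).and
    ((eventually_lt_nhds (by norm_num : (0 : ℝ) < 1 / 2)).filter_mono
      (nhdsWithin_le_nhds (s := Ioi (0 : ℝ))))
  obtain ⟨σ, ⟨hσ1, hσ2⟩, hσ0⟩ := (hev3.and self_mem_nhdsWithin).exists
  have hσ : 0 < σ := hσ0
  set ε₂ : ℝ := min (min ε (σ / 2)) (min (σ * Real.sqrt q) (ε / (2 * κ))) with hε₂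
  have hε₂0 : 0 < ε₂ := lt_min (lt_min hε (by positivity)) (lt_min (by positivity)
    (by positivity))
  have h1 : ε₂ ≤ ε := (min_le_left _ _).trans (min_le_left _ _)
  have h2 : ε₂ ≤ σ / 2 := (min_le_left _ _).trans (min_le_right _ _)
  have h3 : ε₂ ≤ σ * Real.sqrt q := (min_le_right _ _).trans (min_le_left _ _)
  have h4 : ε₂ ≤ ε / (2 * κ) := (min_le_right _ _).trans (min_le_right _ _)
  have hP := Hz_prof (u := u) (κ := κ) hsg hσ (by linarith : σ < 1) hq
  obtain ⟨η, M, a, i0, i1, K, hη, hi0, haM, hK, hKη, hsign, hnear⟩ :=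
    grid hsg hu hκ hσ hP hε₂0
  have hhc : Continuous (hS (fun i => |a i|) η i0 i1) := by
    obtain ⟨B, hB⟩ := hnear.lip
    have : LipschitzWith (Real.toNNReal B) (hS (fun i => |a i|) η i0 i1) := by
      refine LipschitzWith.of_dist_le_mul fun x y => ?_
      rw [Real.dist_eq, Real.dist_eq]
      exact (hB x y).trans (mul_le_mul_of_nonneg_right (Real.le_coe_toNNReal B) (abs_nonneg _))
    exact this.continuous
  refine ⟨η, M, σ / 2, a, i0, i1, K, hη, by positivity, hi0, haM, hK, hKη.trans h1, hsign,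
    hnear.nonneg, ?_, ?_, hnear.lip, ?_⟩
  · intro x
    have h5 := (abs_le.1 (hnear.close x)).2
    have h6 := Hz_abs_le (u := u) (κ := κ) hsg (by linarith : σ < 1) hq x
    linarith
  · intro x hx
    by_contra hn
    obtain ⟨y, hy, hxy⟩ := hnear.supp x hn
    have h5 := (hP.supp y hy).1
    have h6 := (abs_le.1 hxy).1
    -- `x ≥ y - ε₂ ≥ σ / 2`; equality is impossible as `Hz` vanishes at `σ`
    have hy' : tz σ κ y ≠ 0 := by
      intro h0
      apply hy
      unfold Hz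
      rw [h0]
      ring
    have h7 := (tz_supp hσ hy').1
    linarith
  · have h5 : (∫ t in (0 : ℝ)..κ, (|Hz sg u κ q σ t| - ε₂)) ≤
        ∫ t in (0 : ℝ)..κ, hS (fun i => |a i|) η i0 i1 t := by
      refine intervalIntegral.integral_mono_on hκ.le ?_ (hhc.intervalIntegrable _ _) ?_
      · exact ((Hz_cont sg u κ q σ).abs.sub continuous_const).intervalIntegrable _ _
      · intro t _
        have := (abs_le.1 (hnear.close t)).1
        linarith
    rw [intervalIntegral.integral_sub ((Hz_cont sg u κ q σ).abs.intervalIntegrable _ _)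
      intervalIntegrable_const, intervalIntegral.integral_const, sub_zero, smul_eq_mul] at h5
    rw [intervalIntegral.integral_sub intervalIntegrable_const (hhc.intervalIntegrable _ _), hc]
    have h6 : κ * ε₂ ≤ ε / 2 := by
      rw [le_div_iff₀ (by positivity)] at h4
      linarith
    linarith

end Pool.Agent.MP_67227b_nt.Lw
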