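import Pool.Agent.MP_67227b_nt.Al.AlPr
import Pool.Agent.MP_67227b_nt.Al.AlWt
import Pool.Agent.MP_67227b_nt.Al.AlF2
import Pool.Agent.MP_67227b_nt.Lw.LwGron

set_option autoImplicit false

open Filter Topology Set MeasureTheory Complex
open scoped Real ArithmeticFunction ContDiff

namespace Pool.Agent.MP_67227b_nt.Lw

open Pool.Agent.MP_67227b_nt Pool.Agent.MP_67227b_nt.Al

private theorem lwl_inj {ι κ : Type} [DecidableEq κ] {A : Finset ι} {B : Finset κ}
    {F : ι → ℝ} {G : κ → ℝ} (e : ι → κ) (he : ∀ a ∈ A, e a ∈ B)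
    (hi : ∀ a ∈ A, ∀ b ∈ A, e a = e b → a = b) (hFG : ∀ a ∈ A, F a ≤ G (e a))
    (hG : ∀ b ∈ B, 0 ≤ G b) : ∑ a ∈ A, F a ≤ ∑ b ∈ B, G b := by
  calc ∑ a ∈ A, F a ≤ ∑ a ∈ A, G (e a) := Finset.sum_le_sum hFG
    _ = ∑ b ∈ A.image e, G b := by
        rw [Finset.sum_image]
        intro a ha b hb hab
        exact hi a ha b hb hab
    _ ≤ ∑ b ∈ B, G b := by
        refine Finset.sum_le_sum_of_subset_of_nonneg ?_ (fun b hb _ => hG b hb)
        intro b hb
        obtain ⟨a, ha, rfl⟩ := Finset.mem_image.mp hb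
        exact he a ha

/-- the primes in `(T^y0, T^y1]` not dividing `d` -/
private noncomputable def PS (T y0 y1 : ℝ) (d : ℕ) : Finset ℕ :=
  (Finset.Icc 1 ⌊T ^ y1⌋₊ \ Finset.Icc 1 ⌊T ^ y0⌋₊).filter (fun p => p.Prime ∧ ¬ p ∣ d)

private theorem inner_ge {h : ℝ → ℝ} {δ C q T y0 y1 : ℝ} (hδ : 0 < δ)
    (h0 : ∀ x, x ≤ δ → h x = 0) (hh : ∀ x, h x ^ 2 ≤ q) (hhi : ∀ a b : ℝ,
      IntervalIntegrable (fun t => h t ^ 2) volume a b) (hT : 1 < T)
    (hC : ∀ y : ℝ, 0 ≤ y → y ≤ 1 → |(∑ p ∈ (Finset.Icc 1 ⌊T ^ y⌋₊).filter Nat.Prime,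
      (Real.log p / Real.log T * h (Real.log p / Real.log T) ^ 2) / p) -
        ∫ t in (0 : ℝ)..y, t * h t ^ 2 / t| ≤ C / Real.log T)
    (hy0 : 0 ≤ y0) (hy : y0 ≤ y1) (hy1 : y1 ≤ 1) {d : ℕ} (hd : 1 ≤ d) (hdT : (d : ℝ) ≤ T) :
    Real.log T * (∫ t in y0..y1, h t ^ 2) - 2 * C - q * Real.log T / T ^ δ ≤
      ∑ p ∈ PS T y0 y1 d, h (Real.log p / Real.log T) ^ 2 * (Real.log p / p) := by
  classical
  have hT0 : 0 < T := by linarith
  have hL : 0 < Real.log T := Real.log_pos hT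
  set L := Real.log T with hLd
  have hq : 0 ≤ q := (sq_nonneg _).trans (hh 0)
  set f : ℕ → ℝ := fun p => h (Real.log p / L) ^ 2 * (Real.log p / p) with hf
  have hf0 : ∀ p : ℕ, 1 ≤ p → 0 ≤ f p := fun p hp => by
    have : 0 ≤ Real.log p := Real.log_nonneg (by exact_mod_cast hp)
    positivity
  have e1 : ∀ y : ℝ, L * (∑ p ∈ (Finset.Icc 1 ⌊T ^ y⌋₊).filter Nat.Prime,
      (Real.log p / L * h (Real.log p / L) ^ 2) / p) =
      ∑ p ∈ (Finset.Icc 1 ⌊T ^ y⌋₊).filter Nat.Prime, f p := by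
    intro y
    rw [Finset.mul_sum]
    refine Finset.sum_congr rfl fun p _ => ?_
    rw [hf]
    field_simp
  have e2 : ∀ y : ℝ, ∫ t in (0 : ℝ)..y, t * h t ^ 2 / t = ∫ t in (0 : ℝ)..y, h t ^ 2 := by
    intro y
    refine intervalIntegral.integral_congr fun t _ => ?_
    show t * h t ^ 2 / t = h t ^ 2
    rcases eq_or_ne t 0 with rfl | ht
    · rw [h0 0 hδ.le]; simp
    · field_simp
  have h1 := (abs_le.1 (hC y1 (hy0.trans hy) hy1)).1
  have h2 := (abs_le.1 (hC y0 hy0 (hy.trans hy1))).2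
  rw [e2] at h1 h2
  have hsplit : (∫ t in y0..y1, h t ^ 2) =
      (∫ t in (0 : ℝ)..y1, h t ^ 2) - ∫ t in (0 : ℝ)..y0, h t ^ 2 :=
    (intervalIntegral.integral_interval_sub_left (hhi _ _) (hhi _ _)).symm
  have hsub : Finset.Icc 1 ⌊T ^ y0⌋₊ ⊆ Finset.Icc 1 ⌊T ^ y1⌋₊ :=
    Finset.Icc_subset_Icc le_rfl
      (Nat.floor_mono (Real.rpow_le_rpow_of_exponent_le hT.le hy))
  have h3 : ∑ p ∈ (Finset.Icc 1 ⌊T ^ y1⌋₊ \ Finset.Icc 1 ⌊T ^ y0⌋₊).filter Nat.Prime, f p =
      (∑ p ∈ (Finset.Icc 1 ⌊T ^ y1⌋₊).filter Nat.Prime, f p) -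
        ∑ p ∈ (Finset.Icc 1 ⌊T ^ y0⌋₊).filter Nat.Prime, f p := by
    have h4 : (Finset.Icc 1 ⌊T ^ y1⌋₊ \ Finset.Icc 1 ⌊T ^ y0⌋₊).filter Nat.Prime =
        (Finset.Icc 1 ⌊T ^ y1⌋₊).filter Nat.Prime \
          (Finset.Icc 1 ⌊T ^ y0⌋₊).filter Nat.Prime := by
      ext p
      simp only [Finset.mem_filter, Finset.mem_sdiff]
      tauto
    rw [h4, ← Finset.sum_sdiff (Finset.filter_subset_filter Nat.Prime hsub)]
    ring
  have h5 : L * (∫ t in y0..y1, h t ^ 2) - 2 * C ≤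
      ∑ p ∈ (Finset.Icc 1 ⌊T ^ y1⌋₊ \ Finset.Icc 1 ⌊T ^ y0⌋₊).filter Nat.Prime, f p := by
    rw [h3, ← e1, ← e1, hsplit]
    have h6 : L * (C / L) = C := by field_simp
    have h7 := mul_le_mul_of_nonneg_left h1 hL.le
    have h8 := mul_le_mul_of_nonneg_left h2 hL.le
    rw [mul_sub] at h7 h8
    rw [mul_neg, h6] at h7
    rw [h6] at h8
    linarith
  -- the primes dividing `d`
  have h9 : ∑ p ∈ (Finset.Icc 1 ⌊T ^ y1⌋₊ \ Finset.Icc 1 ⌊T ^ y0⌋₊).filter Nat.Prime, f p =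
      (∑ p ∈ PS T y0 y1 d, f p) +
        ∑ p ∈ (Finset.Icc 1 ⌊T ^ y1⌋₊ \ Finset.Icc 1 ⌊T ^ y0⌋₊).filter
          (fun p => p.Prime ∧ p ∣ d), f p := by
    have h10 : ∀ s : Finset ℕ, ∑ p ∈ s.filter Nat.Prime, f p =
        (∑ p ∈ s.filter (fun p => p.Prime ∧ ¬ p ∣ d), f p) +
          ∑ p ∈ s.filter (fun p => p.Prime ∧ p ∣ d), f p := by
      intro s
      rw [← Finset.sum_filter_add_sum_filter_not (s.filter Nat.Prime) (fun p => ¬ p ∣ d),
        Finset.filter_filter, Finset.filter_filter]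
      simp only [not_not]
    exact h10 _
  have h11 : ∑ p ∈ (Finset.Icc 1 ⌊T ^ y1⌋₊ \ Finset.Icc 1 ⌊T ^ y0⌋₊).filter
      (fun p => p.Prime ∧ p ∣ d), f p ≤ q * L / T ^ δ := by
    have hd0 : d ≠ 0 := by omega
    calc ∑ p ∈ (Finset.Icc 1 ⌊T ^ y1⌋₊ \ Finset.Icc 1 ⌊T ^ y0⌋₊).filter
          (fun p => p.Prime ∧ p ∣ d), f p ≤ ∑ p ∈ d.primeFactors, f p := by
          refine Finset.sum_le_sum_of_subset_of_nonneg ?_ ?_
          · intro p hp
            obtain ⟨-, hpp, hpd⟩ := Finset.mem_filter.1 hp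
            exact Nat.mem_primeFactors.2 ⟨hpp, hpd, hd0⟩
          · intro p hp _
            exact hf0 p (Nat.prime_of_mem_primeFactors hp).one_lt.le
      _ ≤ ∑ p ∈ d.primeFactors, q / T ^ δ * Real.log p := by
          refine Finset.sum_le_sum fun p hp => ?_
          have hpp := Nat.prime_of_mem_primeFactors hp
          have hp0 : (0 : ℝ) < p := by exact_mod_cast hpp.pos
          have hlp : 0 ≤ Real.log p := Real.log_nonneg (by exact_mod_cast hpp.one_lt.le)
          rcases le_or_gt (Real.log p / L) δ with hx | hx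
          · show h (Real.log p / L) ^ 2 * (Real.log p / p) ≤ _
            rw [h0 _ hx]
            simp only [ne_eq, OfNat.ofNat_ne_zero, not_false_eq_true, zero_pow, zero_mul]
            positivity
          · have h12 : T ^ δ ≤ p := by
              rw [lt_div_iff₀ hL, hLd, ← Real.log_rpow hT0] at hx
              exact ((Real.log_lt_log_iff (by positivity) hp0).1 hx).le
            have h13 : (1 : ℝ) / p ≤ 1 / T ^ δ := one_div_le_one_div_of_le (by positivity) h12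
            calc f p = h (Real.log p / L) ^ 2 * (1 / p) * Real.log p := by rw [hf]; ring
              _ ≤ q * (1 / T ^ δ) * Real.log p := by
                  refine mul_le_mul_of_nonneg_right ?_ hlp
                  exact mul_le_mul (hh _) h13 (by positivity) hq
              _ = _ := by ring
      _ = q / T ^ δ * ∑ p ∈ d.primeFactors, Real.log p := by rw [Finset.mul_sum]
      _ ≤ q / T ^ δ * L := by
          refine mul_le_mul_of_nonneg_left ?_ (by positivity)
          have h14 : ∑ p ∈ d.primeFactors, Real.log p = Real.log ((∏ p ∈ d.primeFactors, p : ℕ) : ℝ) := by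
            push_cast
            rw [Real.log_prod]
            intro p hp
            have := (Nat.prime_of_mem_primeFactors hp).pos
            positivity
          rw [h14]
          have h15 : (∏ p ∈ d.primeFactors, p) ≤ d :=
            Nat.le_of_dvd (by omega) (Nat.prod_primeFactors_dvd d)
          have h16 : 0 < (∏ p ∈ d.primeFactors, p) :=
            Finset.prod_pos fun p hp => (Nat.prime_of_mem_primeFactors hp).pos
          refine Real.log_le_log (by exact_mod_cast h16) (le_trans ?_ hdT)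
          exact_mod_cast h15
      _ = q * L / T ^ δ := by ring
  rw [h9] at h5
  show L * (∫ t in y0..y1, h t ^ 2) - 2 * C - q * L / T ^ δ ≤ ∑ p ∈ PS T y0 y1 d, f p
  linarith

/-- **The reverse of the basic inequality.** -/
theorem FW_log_ge {h : ℝ → ℝ} {δ B q z κ ε : ℝ} (hδ : 0 < δ) (h0 : ∀ x, x ≤ δ → h x = 0)
    (hh : ∀ x, h x ^ 2 ≤ q) (hc : Continuous h)
    (hl : ∀ x y, |x * h x ^ 2 - y * h y ^ 2| ≤ B * |x - y|) (hκ1 : κ ≤ 1)
    (hz : ∀ a b, 0 ≤ a → a ≤ b → b ≤ κ → q * (b - a) - z ≤ ∫ t in a..b, h t ^ 2)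
    (hε : 0 < ε) : ∀ᶠ T : ℝ in atTop, ∀ x y : ℝ, 0 ≤ x → x ≤ y → y ≤ κ →
      Real.log T * (q * (∫ t in x..y, FW (fun p => h (Real.log p / Real.log T) ^ 2) T t) -
        (z + ε) * FW (fun p => h (Real.log p / Real.log T) ^ 2) T y) ≤
      ∑ n ∈ Finset.Ioc ⌊T ^ x⌋₊ ⌊T ^ y⌋₊, (if Squarefree n then
        wt (fun p => h (Real.log p / Real.log T) ^ 2) n / n * Real.log n else 0) := by
  classical
  have hq : 0 ≤ q := (sq_nonneg _).trans (hh 0)
  have hhi : ∀ a b : ℝ, IntervalIntegrable (fun t => h t ^ 2) volume a b :=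
    fun a b => (hc.pow 2).intervalIntegrable a b
  obtain ⟨C, hC, hps⟩ := prime_sum (g := fun t => t * h t ^ 2) hδ
    (fun x hx => by rw [h0 x hx]; ring) hl
  have ht1 : Tendsto (fun T : ℝ => 2 * C / Real.log T) atTop (𝓝 0) :=
    tendsto_const_nhds.div_atTop Real.tendsto_log_atTop
  have ht2 : Tendsto (fun T : ℝ => q / T ^ δ) atTop (𝓝 0) :=
    tendsto_const_nhds.div_atTop (tendsto_rpow_atTop hδ)
  filter_upwards [hps, eventually_gt_atTop 1, ht1.eventually (gt_mem_nhds (half_pos hε)),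
    ht2.eventually (gt_mem_nhds (half_pos hε))] with T hps hT hε1 hε2 x y hx hxy hyκ
  have hT0 : 0 < T := by linarith
  have hL : 0 < Real.log T := Real.log_pos hT
  have hTx : 0 < T ^ x := Real.rpow_pos_of_pos hT0 x
  have hTy : 0 < T ^ y := Real.rpow_pos_of_pos hT0 y
  have hTyT : T ^ y ≤ T := by
    calc T ^ y ≤ T ^ (1 : ℝ) := Real.rpow_le_rpow_of_exponent_le hT.le (hyκ.trans hκ1)
      _ = T := Real.rpow_one T
  set L := Real.log T with hLd
  set v : ℕ → ℝ := fun p => h (Real.log p / L) ^ 2 with hv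
  have hv0 : ∀ p, 0 ≤ v p := fun p => sq_nonneg _
  have hpd : ∀ d : ℕ, 1 ≤ d → T ^ (Real.log d / L) = d := by
    intro d hd
    have hd0 : (0 : ℝ) < d := by exact_mod_cast hd
    rw [Real.rpow_def_of_pos hT0, ← hLd, mul_div_cancel₀ _ hL.ne', Real.exp_log hd0]
  -- the two index sets
  set A : Finset (Σ _ : ℕ, ℕ) :=
    ((Finset.Ioc ⌊T ^ x⌋₊ ⌊T ^ y⌋₊).filter Squarefree).sigma (fun n => n.primeFactors) with hA
  set Bs : Finset (Σ _ : ℕ, ℕ) := ((Finset.Icc 1 ⌊T ^ y⌋₊).filter Squarefree).sigma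
    (fun d => PS T (max (x - Real.log d / L) 0) (y - Real.log d / L) d) with hBs
  have h1 : ∑ n ∈ Finset.Ioc ⌊T ^ x⌋₊ ⌊T ^ y⌋₊,
      (if Squarefree n then wt v n / n * Real.log n else 0) =
      ∑ a ∈ A, wt v a.1 / a.1 * Real.log a.2 := by
    rw [hA, Finset.sum_sigma, Finset.sum_filter]
    refine Finset.sum_congr rfl fun n hn => ?_
    split_ifs with hs
    · show _ = ∑ p ∈ n.primeFactors, wt v n / n * Real.log p
      rw [← Finset.mul_sum]
      congr 1
      have h2 : (n : ℝ) = ∏ p ∈ n.primeFactors, (p : ℝ) := by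
        rw [← Nat.cast_prod, Nat.prod_primeFactors_of_squarefree hs]
      conv_lhs => rw [h2]
      rw [Real.log_prod]
      intro p hp
      have := (Nat.prime_of_mem_primeFactors hp).pos
      positivity
    · rfl
  have h2 : ∑ b ∈ Bs, wt v b.1 / b.1 * (v b.2 * (Real.log b.2 / b.2)) ≤
      ∑ a ∈ A, wt v a.1 / a.1 * Real.log a.2 := by
    refine lwl_inj (fun b => (⟨b.2 * b.1, b.2⟩ : Σ _ : ℕ, ℕ)) ?_ ?_ ?_ ?_
    · rintro ⟨d, p⟩ hb
      simp only [hBs, Finset.mem_sigma, Finset.mem_filter, Finset.mem_Icc, PS,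
        Finset.mem_sdiff] at hb
      obtain ⟨⟨⟨hd1, hd2⟩, hs⟩, ⟨⟨hp1, hp2⟩, hp3⟩, hpp, hpd'⟩ := hb
      have hco : Nat.Coprime p d := (Nat.Prime.coprime_iff_not_dvd hpp).mpr hpd'
      have hdR : (0 : ℝ) < d := by exact_mod_cast hd1
      have hp2' : (p : ℝ) ≤ T ^ (y - Real.log d / L) :=
        (Nat.le_floor_iff (Real.rpow_nonneg hT0.le _)).1 hp2
      have hp3' : T ^ (max (x - Real.log d / L) 0) < p := by
        by_contra hcon
        push Not at hcon
        exact hp3 ⟨hp1, (Nat.le_floor_iff (Real.rpow_nonneg hT0.le _)).2 hcon⟩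
      have hp4 : T ^ (x - Real.log d / L) < p :=
        lt_of_le_of_lt (Real.rpow_le_rpow_of_exponent_le hT.le (le_max_left _ _)) hp3'
      rw [Real.rpow_sub hT0, hpd d hd1] at hp2' hp4
      rw [le_div_iff₀ hdR] at hp2'
      rw [div_lt_iff₀ hdR] at hp4
      simp only [hA, Finset.mem_sigma, Finset.mem_filter, Finset.mem_Ioc]
      refine ⟨⟨⟨?_, ?_⟩, ?_⟩, ?_⟩
      · refine (Nat.floor_lt hTx.le).2 ?_
        push_cast
        exact hp4
      · refine (Nat.le_floor_iff hTy.le).2 ?_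
        push_cast
        exact hp2'
      · exact (Nat.squarefree_mul hco).mpr ⟨hpp.squarefree, hs⟩
      · exact Nat.mem_primeFactors.mpr ⟨hpp, Dvd.intro d rfl,
          (Nat.mul_pos hpp.pos hd1).ne'⟩
    · rintro ⟨d, p⟩ hb ⟨d', p'⟩ hb' heq
      simp only [hBs, Finset.mem_sigma, PS, Finset.mem_filter] at hb
      simp only [Sigma.mk.injEq, heq_eq_eq] at heq
      obtain ⟨h3, rfl⟩ := heq
      have hpp := hb.2.2.1
      have h4 : d = d' := Nat.eq_of_mul_eq_mul_left hpp.pos h3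
      subst h4
      rfl
    · rintro ⟨d, p⟩ hb
      simp only [hBs, Finset.mem_sigma, Finset.mem_filter, Finset.mem_Icc, PS,
        Finset.mem_sdiff] at hb
      obtain ⟨⟨⟨hd1, hd2⟩, hs⟩, ⟨⟨hp1, hp2⟩, hp3⟩, hpp, hpd'⟩ := hb
      have hco : Nat.Coprime p d := (Nat.Prime.coprime_iff_not_dvd hpp).mpr hpd'
      have hdR : (0 : ℝ) < d := by exact_mod_cast hd1
      have hpR : (0 : ℝ) < p := by exact_mod_cast hpp.pos
      show wt v d / d * (v p * (Real.log p / p)) ≤ wt v (p * d) / ((p * d : ℕ) : ℝ) * Real.log p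
      rw [wt_mul hco, wt_prime hpp]
      refine le_of_eq ?_
      push_cast
      field_simp
    · rintro ⟨n, p⟩ hb
      simp only [hA, Finset.mem_sigma, Finset.mem_filter] at hb
      have hpp := Nat.prime_of_mem_primeFactors hb.2
      have hlog : 0 ≤ Real.log p := Real.log_nonneg (by exact_mod_cast hpp.one_lt.le)
      have := wt_nonneg hv0 n
      positivity
  have h3 : ∑ b ∈ Bs, wt v b.1 / b.1 * (v b.2 * (Real.log b.2 / b.2)) =
      ∑ d ∈ Finset.Icc 1 ⌊T ^ y⌋₊, if Squarefree d then wt v d / d *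
        ∑ p ∈ PS T (max (x - Real.log d / L) 0) (y - Real.log d / L) d,
          v p * (Real.log p / p) else 0 := by
    rw [hBs, Finset.sum_sigma, Finset.sum_filter]
    refine Finset.sum_congr rfl fun d _ => ?_
    split_ifs
    · rw [Finset.mul_sum]
    · rfl
  have h4 : L * (q * (∫ t in x..y, FW v T t) - (z + ε) * FW v T y) ≤
      ∑ d ∈ Finset.Icc 1 ⌊T ^ y⌋₊, if Squarefree d then wt v d / d *
        ∑ p ∈ PS T (max (x - Real.log d / L) 0) (y - Real.log d / L) d,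
          v p * (Real.log p / p) else 0 := by
    rw [integral_FW hT hxy]
    unfold FW
    rw [Finset.mul_sum, Finset.mul_sum, ← Finset.sum_sub_distrib, Finset.mul_sum]
    refine Finset.sum_le_sum fun d hd => ?_
    obtain ⟨hd1, hd2⟩ := Finset.mem_Icc.1 hd
    have hdR : (1 : ℝ) ≤ d := by exact_mod_cast hd1
    have hdT : (d : ℝ) ≤ T ^ y := (Nat.le_floor_iff hTy.le).1 hd2
    have hxd0 : 0 ≤ Real.log d / L := div_nonneg (Real.log_nonneg hdR) hL.le
    have hxd1 : Real.log d / L ≤ y := by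
      rw [div_le_iff₀ hL, hLd, ← Real.log_rpow hT0]
      exact Real.log_le_log (by linarith) hdT
    split_ifs with hs
    · have hw : 0 ≤ wt v d / d := div_nonneg (wt_nonneg hv0 d) (by linarith)
      have h5 := inner_ge hδ h0 hh hhi hT hps (y0 := max (x - Real.log d / L) 0)
        (y1 := y - Real.log d / L) (le_max_right _ _) (max_le (by linarith) (by linarith))
        (by linarith) hd1 (hdT.trans hTyT)
      have h6 := hz (max (x - Real.log d / L) 0) (y - Real.log d / L) (le_max_right _ _)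
        (max_le (by linarith) (by linarith)) (by linarith)
      have h7 : y - Real.log d / L - max (x - Real.log d / L) 0 =
          y - max x (Real.log d / L) := by
        rcases le_total x (Real.log d / L) with h8 | h8
        · rw [max_eq_right (by linarith), max_eq_right h8]; ring
        · rw [max_eq_left (by linarith), max_eq_left h8]; ring
      rw [h7] at h6
      have h8 : 2 * C ≤ ε / 2 * L := by
        rw [div_lt_iff₀ hL] at hε1
        linarith
      have h9 : q * L / T ^ δ ≤ ε / 2 * L := by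
        have : q * L / T ^ δ = q / T ^ δ * L := by ring
        rw [this]
        exact mul_le_mul_of_nonneg_right hε2.le hL.le
      have h10 := mul_le_mul_of_nonneg_left h6 hL.le
      have h11 : L * (q * (y - max x (Real.log d / L)) - (z + ε)) ≤
          ∑ p ∈ PS T (max (x - Real.log d / L) 0) (y - Real.log d / L) d,
            v p * (Real.log p / p) := by
        refine le_trans ?_ h5
        rw [← hLd]
        nlinarith
      calc L * (q * (wt v d / d * (y - max x (Real.log d / L))) - (z + ε) * (wt v d / d)) =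
          wt v d / d * (L * (q * (y - max x (Real.log d / L)) - (z + ε))) := by ring
        _ ≤ _ := mul_le_mul_of_nonneg_left h11 hw
    · simp
  rw [h1]
  exact (h4.trans (le_of_eq h3.symm)).trans h2

/-- **Upper bound for the growth**, uniformly. -/
theorem FW_upper {h : ℝ → ℝ} {δ B q z κ ε x₀ : ℝ} (hδ : 0 < δ) (h0 : ∀ x, x ≤ δ → h x = 0)
    (hh : ∀ x, h x ^ 2 ≤ q) (hc : Continuous h)
    (hl : ∀ x y, |x * h x ^ 2 - y * h y ^ 2| ≤ B * |x - y|) (hκ1 : κ ≤ 1)
    (hz : ∀ a b, 0 ≤ a → a ≤ b → b ≤ κ → q * (b - a) - z ≤ ∫ t in a..b, h t ^ 2)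
    (hz0 : 0 ≤ z) (hx₀ : 0 < x₀) (hε : 0 < ε) : ∀ᶠ T : ℝ in atTop, ∀ x : ℝ, x₀ ≤ x → x ≤ κ →
      FW (fun p => h (Real.log p / Real.log T) ^ 2) T x ≤ ((x / κ) ^ q + (z + ε) / x₀) *
        FW (fun p => h (Real.log p / Real.log T) ^ 2) T κ := by
  have hq : 0 ≤ q := (sq_nonneg _).trans (hh 0)
  filter_upwards [FW_log_ge hδ h0 hh hc hl hκ1 hz hε, eventually_gt_atTop 1] with T hT hT1 x hx hxκ
  have hL : 0 < Real.log T := Real.log_pos hT1
  have hx0 : 0 < x := lt_of_lt_of_le hx₀ hx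
  have hκ0 : 0 < κ := lt_of_lt_of_le hx0 hxκ
  set v : ℕ → ℝ := fun p => h (Real.log p / Real.log T) ^ 2 with hv
  have hv0 : ∀ p, 0 ≤ v p := fun p => sq_nonneg _
  have hFκ : 0 ≤ FW v T κ := FW_nonneg hv0 T κ
  have hgr := gronwall_rev (F := FW v T) (x := x) (κ := κ) (q := q)
    (e := (z + ε) * FW v T κ) hx0 hxκ hq ((FW_mono hv0 hT1).monotoneOn _)
    (by
      intro y hy
      have h1 := hT x y hx0.le hy.1 hy.2
      rw [FW_abel hT1 hx0.le hy.1] at h1
      have h2 := le_of_mul_le_mul_left h1 hL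
      have h3 : (z + ε) * FW v T y ≤ (z + ε) * FW v T κ :=
        mul_le_mul_of_nonneg_left (FW_mono hv0 hT1 hy.2) (by linarith)
      linarith)
  have hp : 0 < (x / κ) ^ q := Real.rpow_pos_of_pos (by positivity) _
  have hp2 : (x / κ) ^ q * (κ / x) ^ q = 1 := by
    rw [← Real.mul_rpow (by positivity) (by positivity)]
    rw [show x / κ * (κ / x) = 1 by field_simp]
    exact Real.one_rpow q
  have h4 : FW v T x - (z + ε) * FW v T κ / x ≤ (x / κ) ^ q * FW v T κ := by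
    calc FW v T x - (z + ε) * FW v T κ / x =
        (x / κ) ^ q * ((κ / x) ^ q * (FW v T x - (z + ε) * FW v T κ / x)) := by
          rw [← mul_assoc, hp2, one_mul]
      _ ≤ (x / κ) ^ q * FW v T κ := mul_le_mul_of_nonneg_left hgr hp.le
  have h5 : (z + ε) * FW v T κ / x ≤ (z + ε) / x₀ * FW v T κ := by
    have h6 : (z + ε) / x ≤ (z + ε) / x₀ :=
      div_le_div_of_nonneg_left (by linarith) hx₀ hx
    calc (z + ε) * FW v T κ / x = (z + ε) / x * FW v T κ := by ring
      _ ≤ _ := mul_le_mul_of_nonneg_right h6 hFκ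
  rw [add_mul]
  linarith

end Pool.Agent.MP_67227b_nt.Lw
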