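import Pool.Agent.MP_67227b_nt.Lw.LwAp

set_option autoImplicit false

open Filter Topology Set MeasureTheory Complex
open scoped Real ArithmeticFunction ContDiff

namespace Pool.Agent.MP_67227b_nt.Lw

open Pool.Agent.Lib.ZetaCount_helper33 Pool.Agent.MP_67227b_nt Pool.Agent.MP_67227b_nt.Mo
open Pool.Agent.MP_67227b_nt.Sg Pool.Agent.MP_67227b_nt.Pp Pool.Agent.MP_67227b_nt.Al

/-- The bilinear mass of two truncations. -/
theorem S0_pair {η κ κ₁ κ₂ β M ε : ℝ} {a : ℕ → ℝ} {τ : ℝ → ℝ} {i0 i1 K : ℕ} (hη : 0 < η)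
    (hκ1 : κ ≤ 1) (hβ : 0 < β) (hi0 : 1 ≤ i0)
    (hM : ∀ i, |a i| ≤ M)
    (hτ : ∀ x, τ x = 1 ∨ τ x = -1)
    (ha : ∀ i ∈ Finset.Ico i0 i1, ∀ x ∈ Icc ((i : ℝ) * η) (((i : ℝ) + 2) * η),
      a i = τ x * |a i|) (hε : 0 < ε) : ∀ᶠ T : ℝ in atTop,
      S0b (apa a T η κ₁ i0 i1 K) (apa a T η κ₂ i0 i1 K) (β / Real.log T) ⌊T ^ κ⌋₊ ≤
        FW (fun p => hS (fun i => |a i|) η i0 i1 (Real.log p / Real.log T) ^ 2) T
          (min κ₁ κ₂) + ε := by
  classical
  have hi0' : (1 : ℝ) ≤ i0 := by exact_mod_cast hi0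
  have hδ : 0 < (i0 : ℝ) * η := by positivity
  have hε' : 0 < ε / Real.exp (2 * (K * M)) := by positivity
  filter_upwards [rough_sq hδ hε', eventually_gt_atTop (1 : ℝ)] with T h1 hT
  have hL : 0 < Real.log T := Real.log_pos hT
  have hT0 : 0 < T := by linarith
  have hb0 : 0 < β / Real.log T := by positivity
  have hpow : ∀ m : ℕ, 1 ≤ m → (m : ℝ) ^ (-(1 + 2 * (β / Real.log T))) ≤ 1 / m := by
    intro m hm
    have hm1 : (1 : ℝ) ≤ m := by exact_mod_cast hm
    rw [one_div, ← Real.rpow_neg_one]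
    exact Real.rpow_le_rpow_of_exponent_le hm1 (by linarith)
  unfold S0b
  set v : ℕ → ℝ := fun p => hS (fun i => |a i|) η i0 i1 (Real.log p / Real.log T) ^ 2 with hv
  have hterm : ∀ m ∈ Finset.Icc 1 ⌊T ^ κ⌋₊,
      apa a T η κ₁ i0 i1 K m * apa a T η κ₂ i0 i1 K m *
        (m : ℝ) ^ (-(1 + 2 * (β / Real.log T))) ≤
      (if m ∈ Finset.Icc 1 ⌊T ^ (min κ₁ κ₂)⌋₊ then (if Squarefree m then wt v m / m else 0)
        else 0) +
      (if ¬ Squarefree m ∧ apa a T η κ₁ i0 i1 K m ≠ 0 then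
        Real.exp (2 * (K * M)) * (1 / m) else 0) := by
    intro m hm
    have hm1 : 1 ≤ m := (Finset.mem_Icc.1 hm).1
    have hmR : (0 : ℝ) < m := by exact_mod_cast hm1
    by_cases hs : Squarefree m
    · have hsec : (if ¬ Squarefree m ∧ apa a T η κ₁ i0 i1 K m ≠ 0 then
          Real.exp (2 * (K * M)) * (1 / (m : ℝ)) else 0) = 0 := if_neg fun h => h.1 hs
      rw [hsec, add_zero]
      by_cases hz : apa a T η κ₁ i0 i1 K m * apa a T η κ₂ i0 i1 K m = 0
      · rw [hz, zero_mul]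
        split_ifs
        · exact div_nonneg (wt_nonneg (fun p => sq_nonneg _) m) hmR.le
        · exact le_rfl
      have hz1 : apa a T η κ₁ i0 i1 K m ≠ 0 := left_ne_zero_of_mul hz
      have hz2 : apa a T η κ₂ i0 i1 K m ≠ 0 := right_ne_zero_of_mul hz
      have hmem : m ∈ Finset.Icc 1 ⌊T ^ (min κ₁ κ₂)⌋₊ := by
        refine Finset.mem_Icc.2 ⟨hm1, Nat.le_floor ?_⟩
        rcases le_total κ₁ κ₂ with h | h
        · rw [min_eq_left h]; exact (apa_supp hT hη hz1).2
        · rw [min_eq_right h]; exact (apa_supp hT hη hz2).2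
      rw [if_pos hmem, if_pos hs]
      have e1 := apa_sign (κ := κ₁) (K := K) hT hη ha hs
      have e1' := apa_sign (κ := κ₂) (K := K) hT hη ha hs
      have e2 := apa_le (T := T) (κ := κ₁) (a := fun i => |a i|) (i0 := i0) (i1 := i1) (K := K) hη
        (fun i => abs_nonneg _) hs
      have e2' := apa_le (T := T) (κ := κ₂) (a := fun i => |a i|) (i0 := i0) (i1 := i1) (K := K) hη
        (fun i => abs_nonneg _) hs
      have e3 := apa_nonneg (T := T) (κ := κ₁) (a := fun i => |a i|) hη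
        (fun i => abs_nonneg _) i0 i1 K m
      have e3' := apa_nonneg (T := T) (κ := κ₂) (a := fun i => |a i|) hη
        (fun i => abs_nonneg _) i0 i1 K m
      have e4 : (∏ p ∈ m.primeFactors, τ (Real.log p / Real.log T)) ^ 2 = 1 := by
        rw [← Finset.prod_pow]
        refine Finset.prod_eq_one fun p _ => ?_
        rcases hτ (Real.log p / Real.log T) with h | h <;> rw [h] <;> norm_num
      have e6 : wt v m =
          (∏ p ∈ m.primeFactors, hS (fun i => |a i|) η i0 i1 (Real.log p / Real.log T)) ^ 2 := by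
        unfold wt
        rw [Finset.prod_pow]
      rw [e1, e1', e6]
      have e5 : ∀ X Y Z : ℝ, X ^ 2 = 1 → X * Y * (X * Z) = Y * Z := by
        intro X Y Z hX
        calc X * Y * (X * Z) = X ^ 2 * (Y * Z) := by ring
          _ = Y * Z := by rw [hX, one_mul]
      rw [e5 _ _ _ e4]
      have e8 : apa (fun i => |a i|) T η κ₁ i0 i1 K m * apa (fun i => |a i|) T η κ₂ i0 i1 K m ≤
          (∏ p ∈ m.primeFactors, hS (fun i => |a i|) η i0 i1
            (Real.log p / Real.log T)) ^ 2 := by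
        rw [sq]
        exact mul_le_mul e2 e2' e3' (e3.trans e2)
      have e7 := mul_le_mul e8 (hpow m hm1)
        (Real.rpow_nonneg (by positivity) _) (sq_nonneg _)
      rw [mul_one_div] at e7
      exact e7
    · have hfirst : (if m ∈ Finset.Icc 1 ⌊T ^ (min κ₁ κ₂)⌋₊ then
          (if Squarefree m then wt v m / m else 0) else 0) = 0 := by
        rw [if_neg hs]; split_ifs <;> rfl
      rw [hfirst, zero_add]
      by_cases h0 : apa a T η κ₁ i0 i1 K m = 0
      · rw [h0, if_neg (by tauto)]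
        simp
      · rw [if_pos ⟨hs, h0⟩]
        have e1 := apa_bound (T := T) (κ := κ₁) hη hM i0 i1 K m
        have e1' := apa_bound (T := T) (κ := κ₂) hη hM i0 i1 K m
        have e2 : apa a T η κ₁ i0 i1 K m * apa a T η κ₂ i0 i1 K m ≤ Real.exp (2 * (K * M)) := by
          have e9 : Real.exp (2 * (K * M)) = Real.exp (K * M) * Real.exp (K * M) := by
            rw [← Real.exp_add]; ring_nf
          rw [e9]
          refine (le_abs_self _).trans ?_
          rw [abs_mul]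
          exact mul_le_mul e1 e1' (abs_nonneg _) (Real.exp_pos _).le
        exact mul_le_mul e2 (hpow m hm1) (Real.rpow_nonneg (by positivity) _)
          (Real.exp_pos _).le
  refine (Finset.sum_le_sum hterm).trans ?_
  rw [Finset.sum_add_distrib]
  refine add_le_add ?_ ?_
  · rw [← Finset.sum_filter]
    unfold FW
    refine Finset.sum_le_sum_of_subset_of_nonneg ?_ ?_
    · intro m hm
      exact (Finset.mem_filter.1 hm).2
    · intro m _ _
      split_ifs
      · exact div_nonneg (wt_nonneg (fun p => sq_nonneg _) m) (Nat.cast_nonneg _)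
      · exact le_rfl
  rw [← Finset.sum_filter, ← Finset.mul_sum]
  have h2 := h1 ((Finset.Icc 1 ⌊T ^ κ⌋₊).filter
    (fun m => ¬ Squarefree m ∧ apa a T η κ₁ i0 i1 K m ≠ 0)) (fun n hn => by
      rw [Finset.mem_filter, Finset.mem_Icc] at hn
      obtain ⟨⟨hn1, hn2⟩, hn3, hn4⟩ := hn
      refine ⟨?_, apa_rough hT hη hn4, hn3⟩
      have e1 : (n : ℝ) ≤ T ^ κ := (Nat.le_floor_iff (by positivity)).1 hn2
      refine e1.trans ?_
      calc T ^ κ ≤ T ^ (1 : ℝ) := Real.rpow_le_rpow_of_exponent_le hT.le hκ1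
        _ = T := Real.rpow_one T)
  calc Real.exp (2 * (K * M)) * ∑ i ∈ (Finset.Icc 1 ⌊T ^ κ⌋₊).filter
        (fun m => ¬ Squarefree m ∧ apa a T η κ₁ i0 i1 K m ≠ 0), (1 : ℝ) / i
      ≤ Real.exp (2 * (K * M)) * (ε / Real.exp (2 * (K * M))) :=
        mul_le_mul_of_nonneg_left h2 (Real.exp_pos _).le
    _ = ε := by
        have := Real.exp_pos (2 * ((K : ℝ) * M))
        field_simp

end Pool.Agent.MP_67227b_nt.Lw
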