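import Pool.Agent.MP_67227b_nt.Lw.LwS1
import Pool.Agent.MP_67227b_nt.Al.AlPr

set_option autoImplicit false

open Filter Topology Set MeasureTheory Complex
open scoped Real ArithmeticFunction ContDiff

namespace Pool.Agent.MP_67227b_nt.Lw

open Pool.Agent.Lib.ZetaCount_helper33 Pool.Agent.MP_67227b_nt Pool.Agent.MP_67227b_nt.Mo
open Pool.Agent.MP_67227b_nt.Sg Pool.Agent.MP_67227b_nt.Pp Pool.Agent.MP_67227b_nt.Al

/-- the terms of `FW` -/
private noncomputable def cd (v : ℕ → ℝ) (d : ℕ) : ℝ := if Squarefree d then wt v d / d else 0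

private theorem cd_nonneg {v : ℕ → ℝ} (hv : ∀ p, 0 ≤ v p) (d : ℕ) : 0 ≤ cd v d := by
  unfold cd
  split_ifs
  · exact div_nonneg (wt_nonneg hv d) (Nat.cast_nonneg _)
  · exact le_rfl

/-- the terms up to `Y` -/
private noncomputable def cY (v : ℕ → ℝ) (Y : ℝ) (d : ℕ) : ℝ := if (d : ℝ) ≤ Y then cd v d else 0

private theorem cY_nonneg {v : ℕ → ℝ} (hv : ∀ p, 0 ≤ v p) (Y : ℝ) (d : ℕ) : 0 ≤ cY v Y d := by
  unfold cY
  split_ifs
  · exact cd_nonneg hv d
  · exact le_rfl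

private theorem cY_le {v : ℕ → ℝ} (hv : ∀ p, 0 ≤ v p) (Y : ℝ) (d : ℕ) : cY v Y d ≤ cd v d := by
  unfold cY
  split_ifs
  · exact le_rfl
  · exact cd_nonneg hv d

private theorem sum_cY (v : ℕ → ℝ) {X Y : ℝ} (hX : 0 ≤ X) (hY : 0 ≤ Y) :
    ∑ d ∈ Finset.Icc 1 ⌊min X Y⌋₊, cd v d = ∑ d ∈ Finset.Icc 1 ⌊X⌋₊, cY v Y d := by
  unfold cY
  rw [← Finset.sum_filter]
  refine Finset.sum_congr ?_ fun _ _ => rfl
  ext d
  rw [Finset.mem_filter, Finset.mem_Icc, Finset.mem_Icc, Nat.le_floor_iff (le_min hX hY),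
    Nat.le_floor_iff hX, le_min_iff]
  tauto

private theorem FW_eq (v : ℕ → ℝ) (T x : ℝ) :
    FW v T x = ∑ d ∈ Finset.Icc 1 ⌊T ^ x⌋₊, cd v d := rfl

private theorem FW_min (v : ℕ → ℝ) {T : ℝ} (hT : 1 < T) (x y : ℝ) :
    FW v T (min x y) = ∑ d ∈ Finset.Icc 1 ⌊T ^ x⌋₊, cY v (T ^ y) d := by
  have hT0 : 0 < T := by linarith
  rw [← sum_cY v (by positivity) (by positivity), FW_eq]
  have h1 : T ^ (min x y) = min (T ^ x) (T ^ y) := by
    rcases le_total x y with h | h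
    · rw [min_eq_left h, min_eq_left (Real.rpow_le_rpow_of_exponent_le hT.le h)]
    · rw [min_eq_right h, min_eq_right (Real.rpow_le_rpow_of_exponent_le hT.le h)]
  rw [h1]

private theorem drop {v : ℕ → ℝ} {q : ℝ} (hv : ∀ p, 0 ≤ v p) (hvq : ∀ p, v p ≤ q) {p : ℕ}
    (hp : p.Prime) {M N : ℕ} (hMN : M ≤ N) :
    (∑ d ∈ Finset.Icc 1 M, cd v d) - q / p * ∑ d ∈ Finset.Icc 1 N, cd v d ≤
      ∑ d ∈ Finset.Icc 1 M, if Squarefree d ∧ ¬ p ∣ d then wt v d / d else 0 := by
  have hq : 0 ≤ q := (hv p).trans (hvq p)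
  have hp0 : (0 : ℝ) < p := by exact_mod_cast hp.pos
  have h1 : ∀ d ∈ Finset.Icc 1 M, cd v d =
      (if Squarefree d ∧ ¬ p ∣ d then wt v d / d else 0) +
        (if Squarefree d ∧ p ∣ d then wt v d / d else 0) := by
    intro d _
    unfold cd
    by_cases h2 : Squarefree d <;> by_cases h3 : p ∣ d <;> simp [h2, h3]
  have h4 : (∑ d ∈ Finset.Icc 1 M, if Squarefree d ∧ p ∣ d then wt v d / d else 0) ≤
      q / p * ∑ d ∈ Finset.Icc 1 N, cd v d := by
    rw [← Finset.sum_filter]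
    have h5 : ∀ d ∈ (Finset.Icc 1 M).filter (fun d => Squarefree d ∧ p ∣ d),
        wt v d / d ≤ q / p * cd v (d / p) := by
      intro d hd
      obtain ⟨hd1, hd2, hd3⟩ := Finset.mem_filter.1 hd
      obtain ⟨e, rfl⟩ := hd3
      rw [Nat.mul_div_cancel_left _ hp.pos]
      have h6 : Squarefree e := hd2.of_mul_right
      have h7 : Nat.Coprime p e := Nat.coprime_of_squarefree_mul hd2
      unfold cd
      rw [if_pos h6, wt_mul h7, wt_prime hp]
      push_cast
      rw [mul_div_mul_comm]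
      refine mul_le_mul_of_nonneg_right ?_ (div_nonneg (wt_nonneg hv e) (Nat.cast_nonneg _))
      exact div_le_div_of_nonneg_right (hvq p) hp0.le
    refine (Finset.sum_le_sum h5).trans ?_
    rw [← Finset.mul_sum]
    refine mul_le_mul_of_nonneg_left ?_ (div_nonneg hq hp0.le)
    have h8 : Set.InjOn (fun d : ℕ => d / p)
        ((Finset.Icc 1 M).filter (fun d => Squarefree d ∧ p ∣ d) : Finset ℕ) := by
      intro a ha b hb hab
      obtain ⟨-, -, ha3⟩ := Finset.mem_filter.1 (Finset.mem_coe.1 ha)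
      obtain ⟨-, -, hb3⟩ := Finset.mem_filter.1 (Finset.mem_coe.1 hb)
      have hab' : a / p = b / p := hab
      rw [← Nat.div_mul_cancel ha3, ← Nat.div_mul_cancel hb3, hab']
    rw [← Finset.sum_image (f := fun e => cd v e) h8]
    refine Finset.sum_le_sum_of_subset_of_nonneg ?_ fun e _ _ => cd_nonneg hv e
    intro e he
    obtain ⟨d, hd, rfl⟩ := Finset.mem_image.1 he
    obtain ⟨hd1, -, hd3⟩ := Finset.mem_filter.1 hd
    rw [Finset.mem_Icc] at hd1 ⊢
    exact ⟨Nat.div_pos (Nat.le_of_dvd (by omega) hd3) hp.pos,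
      (Nat.div_le_self _ _).trans (hd1.2.trans hMN)⟩
  rw [Finset.sum_congr rfl h1, Finset.sum_add_distrib]
  linarith

theorem cont_div {g : ℝ → ℝ} {δ B : ℝ} (hδ : 0 < δ) (hg0 : ∀ x, x ≤ δ → g x = 0)
    (hgl : ∀ x y, |g x - g y| ≤ B * |x - y|) : Continuous fun t : ℝ => g t / t := by
  have hB : 0 ≤ B := by
    have h := hgl 1 0
    have h2 : 0 ≤ B * |(1 : ℝ) - 0| := (abs_nonneg _).trans h
    simpa using h2
  have hgc : Continuous g := by
    rw [continuous_iff_continuousAt]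
    intro x
    rw [Metric.continuousAt_iff]
    intro ε hε
    refine ⟨ε / (B + 1), by positivity, fun y hy => ?_⟩
    rw [Real.dist_eq] at hy ⊢
    have h1 := hgl y x
    rw [lt_div_iff₀ (by positivity)] at hy
    nlinarith [abs_nonneg (y - x)]
  rw [continuous_iff_continuousAt]
  intro x
  rcases lt_or_ge x δ with hx | hx
  · have h1 : (fun t : ℝ => g t / t) =ᶠ[𝓝 x] fun _ => 0 := by
      filter_upwards [Iio_mem_nhds hx] with t ht
      rw [hg0 t (le_of_lt ht), zero_div]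
    exact continuousAt_const.congr h1.symm
  · exact hgc.continuousAt.div continuousAt_id (hδ.trans_le hx).ne'

private theorem int_eq {g : ℝ → ℝ} {δ B : ℝ} (hδ : 0 < δ) (hg0 : ∀ x, x ≤ δ → g x = 0)
    (hgl : ∀ x y, |g x - g y| ≤ B * |x - y|) (c : ℕ → ℝ) {T κ' : ℝ} (hT : 1 < T)
    (hκ' : 0 ≤ κ') :
    ∫ t in (0 : ℝ)..κ', g t / t * ∑ d ∈ Finset.Icc 1 ⌊T ^ (κ' - t)⌋₊, c d =
      ∑ d ∈ Finset.Icc 1 ⌊T ^ κ'⌋₊, c d *
        ∫ t in (0 : ℝ)..(κ' - Real.log d / Real.log T), g t / t := by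
  have hT0 : 0 < T := by linarith
  have hL : 0 < Real.log T := Real.log_pos hT
  have hc := cont_div hδ hg0 hgl
  have key : ∀ d ∈ Finset.Icc 1 ⌊T ^ κ'⌋₊, 0 ≤ Real.log d / Real.log T ∧
      Real.log d / Real.log T ≤ κ' := by
    intro d hd
    obtain ⟨hd1, hd2⟩ := Finset.mem_Icc.1 hd
    have hd1' : (1 : ℝ) ≤ d := by exact_mod_cast hd1
    have hd2' : (d : ℝ) ≤ T ^ κ' := (Nat.le_floor_iff (by positivity)).1 hd2
    refine ⟨div_nonneg (Real.log_nonneg hd1') hL.le, ?_⟩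
    rw [div_le_iff₀ hL]
    calc Real.log d ≤ Real.log (T ^ κ') := Real.log_le_log (by linarith) hd2'
      _ = κ' * Real.log T := Real.log_rpow hT0 _
  have h1 : ∀ t ∈ Icc (0 : ℝ) κ', g t / t * ∑ d ∈ Finset.Icc 1 ⌊T ^ (κ' - t)⌋₊, c d =
      ∑ d ∈ Finset.Icc 1 ⌊T ^ κ'⌋₊, c d *
        (Set.Iic (κ' - Real.log d / Real.log T)).indicator (fun t => g t / t) t := by
    intro t ht
    have h2 : ∑ d ∈ Finset.Icc 1 ⌊T ^ (κ' - t)⌋₊, c d = ∑ d ∈ Finset.Icc 1 ⌊T ^ κ'⌋₊,
        if t ≤ κ' - Real.log d / Real.log T then c d else 0 := by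
      rw [← Finset.sum_filter]
      refine Finset.sum_congr ?_ fun _ _ => rfl
      ext d
      rw [Finset.mem_filter, Finset.mem_Icc, Finset.mem_Icc, Nat.le_floor_iff (by positivity),
        Nat.le_floor_iff (by positivity)]
      constructor
      · rintro ⟨hd1, hd2⟩
        have hd1' : (1 : ℝ) ≤ d := by exact_mod_cast hd1
        refine ⟨⟨hd1, hd2.trans (Real.rpow_le_rpow_of_exponent_le hT.le (by linarith [ht.1]))⟩, ?_⟩
        have h3 : Real.log d ≤ (κ' - t) * Real.log T := by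
          rw [← Real.log_rpow hT0]
          exact Real.log_le_log (by linarith) hd2
        have h4 : Real.log d / Real.log T ≤ κ' - t := (div_le_iff₀ hL).2 h3
        linarith
      · rintro ⟨⟨hd1, hd2⟩, hd3⟩
        have hd1' : (1 : ℝ) ≤ d := by exact_mod_cast hd1
        refine ⟨hd1, ?_⟩
        have h4 : Real.log d / Real.log T ≤ κ' - t := by linarith
        rw [div_le_iff₀ hL, ← Real.log_rpow hT0] at h4
        exact (Real.log_le_log_iff (by linarith) (by positivity)).1 h4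
    rw [h2, Finset.mul_sum]
    refine Finset.sum_congr rfl fun d _ => ?_
    by_cases h5 : t ≤ κ' - Real.log d / Real.log T
    · rw [if_pos h5, Set.indicator_of_mem (show t ∈ Set.Iic _ from h5)]
      ring
    · rw [if_neg h5, Set.indicator_of_notMem (show t ∉ Set.Iic _ from h5)]
      ring
  have hint : ∀ c : ℝ, ∀ a b : ℝ, IntervalIntegrable
      ((Set.Iic c).indicator (fun t => g t / t)) volume a b := by
    intro c a b
    have h6 : IntervalIntegrable (fun t => g t / t) volume a b := hc.intervalIntegrable _ _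
    rw [intervalIntegrable_iff] at h6 ⊢
    exact h6.indicator measurableSet_Iic
  rw [intervalIntegral.integral_congr (g := fun t => ∑ d ∈ Finset.Icc 1 ⌊T ^ κ'⌋₊, c d *
        (Set.Iic (κ' - Real.log d / Real.log T)).indicator (fun t => g t / t) t)
      (fun t ht => h1 t (by rwa [Set.uIcc_of_le hκ'] at ht))]
  rw [intervalIntegral.integral_finsetSum (fun d _ => (hint _ _ _).const_mul _)]
  refine Finset.sum_congr rfl fun d hd => ?_
  rw [intervalIntegral.integral_const_mul]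
  congr 1
  obtain ⟨hk1, hk2⟩ := key d hd
  have h7 : 0 ≤ κ' - Real.log d / Real.log T := by linarith
  rw [← intervalIntegral.integral_add_adjacent_intervals (b := κ' - Real.log d / Real.log T)
    (hint _ _ _) (hint _ _ _)]
  have h8 : ∫ t in (0 : ℝ)..(κ' - Real.log d / Real.log T),
      (Set.Iic (κ' - Real.log d / Real.log T)).indicator (fun t => g t / t) t =
      ∫ t in (0 : ℝ)..(κ' - Real.log d / Real.log T), g t / t := by
    refine intervalIntegral.integral_congr fun t ht => ?_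
    rw [Set.uIcc_of_le h7] at ht
    exact Set.indicator_of_mem (show t ∈ Set.Iic _ from ht.2) _
  have h9 : ∫ t in (κ' - Real.log d / Real.log T)..κ',
      (Set.Iic (κ' - Real.log d / Real.log T)).indicator (fun t => g t / t) t = 0 := by
    rw [intervalIntegral.integral_of_le (by linarith)]
    refine (setIntegral_congr_fun (g := fun _ => (0 : ℝ)) measurableSet_Ioc fun t ht => ?_).trans
      (by simp)
    exact Set.indicator_of_notMem (show t ∉ Set.Iic _ from not_le.2 ht.1) _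
  rw [h8, h9, add_zero]

private theorem swap {g : ℝ → ℝ} (c : ℕ → ℝ) {T κ' : ℝ} (hT : 1 < T) :
    ∑ p ∈ (Finset.Icc 1 ⌊T ^ κ'⌋₊).filter Nat.Prime, g (Real.log p / Real.log T) / p *
      ∑ d ∈ Finset.Icc 1 ⌊T ^ κ' / p⌋₊, c d =
    ∑ d ∈ Finset.Icc 1 ⌊T ^ κ'⌋₊, c d *
      ∑ p ∈ (Finset.Icc 1 ⌊T ^ (κ' - Real.log d / Real.log T)⌋₊).filter Nat.Prime,
        g (Real.log p / Real.log T) / p := by
  have hT0 : 0 < T := by linarith
  have hL : 0 < Real.log T := Real.log_pos hT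
  have hX : 0 < T ^ κ' := by positivity
  simp_rw [Finset.mul_sum]
  rw [Finset.sum_comm' (t' := Finset.Icc 1 ⌊T ^ κ'⌋₊)
    (s' := fun d => (Finset.Icc 1 ⌊T ^ (κ' - Real.log d / Real.log T)⌋₊).filter Nat.Prime)]
  · exact Finset.sum_congr rfl fun d _ => Finset.sum_congr rfl fun p _ => by ring
  · intro p d
    simp only [Finset.mem_filter, Finset.mem_Icc]
    have hpow : 1 ≤ d → T ^ (κ' - Real.log d / Real.log T) = T ^ κ' / d := by
      intro hd
      have hd0 : (0 : ℝ) < d := by exact_mod_cast hd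
      rw [Real.rpow_sub hT0, div_eq_mul_inv (Real.log d), Real.rpow_def_of_pos hT0
        (Real.log d * (Real.log T)⁻¹), show Real.log T * (Real.log d * (Real.log T)⁻¹) =
        Real.log d by field_simp, Real.exp_log hd0]
    constructor
    · rintro ⟨⟨⟨hp1, hp2⟩, hpp⟩, hd1, hd2⟩
      have hp0 : (0 : ℝ) < p := by exact_mod_cast hp1
      have hd0 : (0 : ℝ) < d := by exact_mod_cast hd1
      have h3 : (d : ℝ) ≤ T ^ κ' / p := (Nat.le_floor_iff (by positivity)).1 hd2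
      rw [le_div_iff₀ hp0] at h3
      refine ⟨⟨⟨hp1, ?_⟩, hpp⟩, hd1, ?_⟩
      · rw [hpow hd1, Nat.le_floor_iff (by positivity), le_div_iff₀ hd0]
        linarith
      · rw [Nat.le_floor_iff hX.le]
        have : (1 : ℝ) ≤ p := by exact_mod_cast hp1
        nlinarith
    · rintro ⟨⟨⟨hp1, hp2⟩, hpp⟩, hd1, hd2⟩
      have hp0 : (0 : ℝ) < p := by exact_mod_cast hp1
      have hd0 : (0 : ℝ) < d := by exact_mod_cast hd1
      rw [hpow hd1, Nat.le_floor_iff (by positivity), le_div_iff₀ hd0] at hp2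
      refine ⟨⟨⟨hp1, ?_⟩, hpp⟩, hd1, ?_⟩
      · rw [Nat.le_floor_iff hX.le]
        have : (1 : ℝ) ≤ d := by exact_mod_cast hd1
        nlinarith
      · rw [Nat.le_floor_iff (by positivity), le_div_iff₀ hp0]
        linarith

/-- The bilinear form of `Sp_ge`: lower bound for the sum over primes and squarefree numbers, with
two truncations. -/
theorem Sp2_ge {g : ℝ → ℝ} {δ B q ε : ℝ} (hδ : 0 < δ) (hgn : ∀ x, 0 ≤ g x)
    (hg0 : ∀ x, x ≤ δ → g x = 0) (hgl : ∀ x y, |g x - g y| ≤ B * |x - y|) (hq : 0 ≤ q)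
    (hε : 0 < ε) : ∀ᶠ T : ℝ in atTop, ∀ v : ℕ → ℝ, (∀ p, 0 ≤ v p) → (∀ p, v p ≤ q) →
      ∀ κ₁ κ₂ : ℝ, 0 ≤ κ₁ → κ₁ ≤ 1 →
        (∫ t in (0 : ℝ)..κ₁, g t / t * FW v T (min (κ₁ - t) κ₂)) - ε * FW v T κ₁ ≤
          Sp2 v g T κ₁ κ₂ := by
  have hB : 0 ≤ B := by
    have h := hgl 1 0
    have h2 : 0 ≤ B * |(1 : ℝ) - 0| := (abs_nonneg _).trans h
    simpa using h2
  obtain ⟨C, hC, hps⟩ := prime_sum hδ hg0 hgl
  -- the error terms
  have ht1 : Tendsto (fun T : ℝ => C / Real.log T) atTop (𝓝 0) :=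
    tendsto_const_nhds.div_atTop Real.tendsto_log_atTop
  have ht2 : Tendsto (fun T : ℝ => B * q * ((1 + Real.log T) / T ^ δ)) atTop (𝓝 0) := by
    have h1 : Tendsto (fun T : ℝ => (1 + Real.log T) / T ^ δ) atTop (𝓝 0) := by
      have h2 : Tendsto (fun T : ℝ => (T ^ δ)⁻¹ + Real.log T / T ^ δ) atTop (𝓝 (0 + 0)) :=
        (tendsto_rpow_atTop hδ).inv_tendsto_atTop.add
          (isLittleO_log_rpow_atTop hδ).tendsto_div_nhds_zero
      rw [add_zero] at h2
      refine h2.congr fun T => ?_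
      rw [add_div, one_div]
    simpa using h1.const_mul (B * q)
  filter_upwards [hps, eventually_gt_atTop 1, ht1.eventually (gt_mem_nhds (half_pos hε)),
    ht2.eventually (gt_mem_nhds (half_pos hε))] with T hT hT1 hε1 hε2 v hv hvq κ' κ₂ hκ0 hκ1
  have hT0 : 0 < T := by linarith
  have hL : 0 < Real.log T := Real.log_pos hT1
  have hX : 0 < T ^ κ' := by positivity
  have hY : 0 < T ^ κ₂ := by positivity
  have hFW : 0 ≤ FW v T κ' := FW_nonneg hv T κ'
  have hgB : ∀ p ∈ (Finset.Icc 1 ⌊T ^ κ'⌋₊).filter Nat.Prime,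
      g (Real.log p / Real.log T) / p * (q / p) ≤ B * q * (1 / T ^ δ) * (1 / p) := by
    intro p hp
    obtain ⟨hp1, hpp⟩ := Finset.mem_filter.1 hp
    obtain ⟨hp1, hp2⟩ := Finset.mem_Icc.1 hp1
    have hp0 : (0 : ℝ) < p := by exact_mod_cast hp1
    have hp1' : (1 : ℝ) ≤ p := by exact_mod_cast hp1
    have hpT : (p : ℝ) ≤ T ^ κ' := (Nat.le_floor_iff hX.le).1 hp2
    have hx0 : 0 ≤ Real.log p / Real.log T := div_nonneg (Real.log_nonneg hp1') hL.le
    have hx1 : Real.log p / Real.log T ≤ 1 := by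
      rw [div_le_one hL]
      refine Real.log_le_log hp0 (hpT.trans ?_)
      calc T ^ κ' ≤ T ^ (1 : ℝ) := Real.rpow_le_rpow_of_exponent_le hT1.le hκ1
        _ = T := Real.rpow_one T
    rcases le_or_gt (Real.log p / Real.log T) δ with hx | hx
    · rw [hg0 _ hx]
      simp only [zero_div, zero_mul]
      positivity
    · have h1 : g (Real.log p / Real.log T) ≤ B := by
        have h2 := hgl (Real.log p / Real.log T) 0
        rw [hg0 0 hδ.le, sub_zero, sub_zero, abs_of_nonneg hx0] at h2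
        have h3 := le_abs_self (g (Real.log p / Real.log T))
        nlinarith
      have h4 : T ^ δ ≤ p := by
        rw [lt_div_iff₀ hL, ← Real.log_rpow hT0] at hx
        exact ((Real.log_lt_log_iff (by positivity) hp0).1 hx).le
      have h5 : (1 : ℝ) / p ≤ 1 / T ^ δ := one_div_le_one_div_of_le (by positivity) h4
      calc g (Real.log p / Real.log T) / p * (q / p)
          = g (Real.log p / Real.log T) * q * (1 / p) * (1 / p) := by ring
        _ ≤ B * q * (1 / T ^ δ) * (1 / p) := by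
            refine mul_le_mul_of_nonneg_right ?_ (by positivity)
            refine mul_le_mul (mul_le_mul_of_nonneg_right h1 hq) h5 (by positivity)
              (by positivity)
  have herr : ∑ p ∈ (Finset.Icc 1 ⌊T ^ κ'⌋₊).filter Nat.Prime,
      g (Real.log p / Real.log T) / p * (q / p) ≤ B * q * ((1 + Real.log T) / T ^ δ) := by
    refine (Finset.sum_le_sum hgB).trans ?_
    rw [← Finset.mul_sum]
    have h1 : ∑ p ∈ (Finset.Icc 1 ⌊T ^ κ'⌋₊).filter Nat.Prime, (1 : ℝ) / p ≤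
        1 + Real.log T := by
      calc ∑ p ∈ (Finset.Icc 1 ⌊T ^ κ'⌋₊).filter Nat.Prime, (1 : ℝ) / p
          ≤ ∑ p ∈ Finset.Icc 1 ⌊T ^ κ'⌋₊, (1 : ℝ) / p :=
            Finset.sum_le_sum_of_subset_of_nonneg (Finset.filter_subset _ _)
              fun _ _ _ => by positivity
        _ = ((harmonic ⌊T ^ κ'⌋₊ : ℚ) : ℝ) := by
            rw [harmonic_eq_sum_Icc]
            push_cast
            exact Finset.sum_congr rfl fun _ _ => one_div _
        _ ≤ 1 + Real.log (T ^ κ') := harmonic_floor_le_one_add_log _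
            (Real.one_le_rpow hT1.le hκ0)
        _ ≤ 1 + Real.log T := by
            rw [Real.log_rpow hT0]
            nlinarith
    calc B * q * (1 / T ^ δ) * ∑ p ∈ (Finset.Icc 1 ⌊T ^ κ'⌋₊).filter Nat.Prime, (1 : ℝ) / p
        ≤ B * q * (1 / T ^ δ) * (1 + Real.log T) :=
          mul_le_mul_of_nonneg_left h1 (by positivity)
      _ = B * q * ((1 + Real.log T) / T ^ δ) := by ring
  have hmain : (∑ p ∈ (Finset.Icc 1 ⌊T ^ κ'⌋₊).filter Nat.Prime,
      g (Real.log p / Real.log T) / p * ∑ d ∈ Finset.Icc 1 ⌊T ^ κ' / p⌋₊, cY v (T ^ κ₂) d) -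
      (∑ p ∈ (Finset.Icc 1 ⌊T ^ κ'⌋₊).filter Nat.Prime,
        g (Real.log p / Real.log T) / p * (q / p)) * FW v T κ' ≤ Sp2 v g T κ' κ₂ := by
    unfold Sp2
    rw [Finset.sum_mul, ← Finset.sum_sub_distrib]
    refine Finset.sum_le_sum fun p hp => ?_
    obtain ⟨hp1, hpp⟩ := Finset.mem_filter.1 hp
    have hp0 : (0 : ℝ) < p := by exact_mod_cast hpp.pos
    have hp1' : (1 : ℝ) ≤ p := by exact_mod_cast hpp.one_lt.le
    have hMN : ⌊min (T ^ κ' / p) (T ^ κ₂)⌋₊ ≤ ⌊T ^ κ'⌋₊ :=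
      Nat.floor_le_floor ((min_le_left _ _).trans (div_le_self hX.le hp1'))
    have h1 := drop hv hvq hpp hMN
    rw [← FW_eq, sum_cY v (by positivity) hY.le] at h1
    have h2 : 0 ≤ g (Real.log p / Real.log T) / p := div_nonneg (hgn _) hp0.le
    calc g (Real.log p / Real.log T) / p * ∑ d ∈ Finset.Icc 1 ⌊T ^ κ' / p⌋₊, cY v (T ^ κ₂) d -
          g (Real.log p / Real.log T) / p * (q / p) * FW v T κ'
        = g (Real.log p / Real.log T) / p *
          (∑ d ∈ Finset.Icc 1 ⌊T ^ κ' / p⌋₊, cY v (T ^ κ₂) d - q / p * FW v T κ') := by ring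
      _ ≤ _ := mul_le_mul_of_nonneg_left h1 h2
  rw [swap (cY v (T ^ κ₂)) hT1] at hmain
  have hlow : (∫ t in (0 : ℝ)..κ', g t / t * FW v T (min (κ' - t) κ₂)) -
      C / Real.log T * FW v T κ' ≤
      ∑ d ∈ Finset.Icc 1 ⌊T ^ κ'⌋₊, cY v (T ^ κ₂) d *
        ∑ p ∈ (Finset.Icc 1 ⌊T ^ (κ' - Real.log d / Real.log T)⌋₊).filter Nat.Prime,
          g (Real.log p / Real.log T) / p := by
    have e0 : (∫ t in (0 : ℝ)..κ', g t / t * FW v T (min (κ' - t) κ₂)) =
        ∫ t in (0 : ℝ)..κ', g t / t * ∑ d ∈ Finset.Icc 1 ⌊T ^ (κ' - t)⌋₊, cY v (T ^ κ₂) d := by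
      refine intervalIntegral.integral_congr fun t _ => ?_
      simp only [FW_min v hT1]
    rw [e0, int_eq hδ hg0 hgl (cY v (T ^ κ₂)) hT1 hκ0, FW_eq, Finset.mul_sum,
      ← Finset.sum_sub_distrib]
    refine Finset.sum_le_sum fun d hd => ?_
    obtain ⟨hd1, hd2⟩ := Finset.mem_Icc.1 hd
    have hd1' : (1 : ℝ) ≤ d := by exact_mod_cast hd1
    have hd2' : (d : ℝ) ≤ T ^ κ' := (Nat.le_floor_iff (by positivity)).1 hd2
    have hy0 : 0 ≤ Real.log d / Real.log T := div_nonneg (Real.log_nonneg hd1') hL.le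
    have hy1 : Real.log d / Real.log T ≤ κ' := by
      rw [div_le_iff₀ hL]
      calc Real.log d ≤ Real.log (T ^ κ') := Real.log_le_log (by linarith) hd2'
        _ = κ' * Real.log T := Real.log_rpow hT0 _
    have h1 := (abs_le.1 (hT (κ' - Real.log d / Real.log T) (by linarith) (by linarith))).1
    have h2 := cY_nonneg hv (T ^ κ₂) d
    have h3 := cY_le hv (T ^ κ₂) d
    have h4 : 0 ≤ C / Real.log T := by positivity
    have h5 := mul_le_mul_of_nonneg_left h3 h4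
    have h6 := mul_le_mul_of_nonneg_left h1 h2
    nlinarith
  have h3 := mul_le_mul_of_nonneg_right herr hFW
  have h4 : C / Real.log T * FW v T κ' ≤ ε / 2 * FW v T κ' :=
    mul_le_mul_of_nonneg_right hε1.le hFW
  have h5 : B * q * ((1 + Real.log T) / T ^ δ) * FW v T κ' ≤ ε / 2 * FW v T κ' :=
    mul_le_mul_of_nonneg_right hε2.le hFW
  linarith

end Pool.Agent.MP_67227b_nt.Lw
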