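import Pool.Agent.MP_67227b_nt.Lw.LwPw
import Pool.Agent.MP_67227b_nt.Lw.LwS0
import Pool.Agent.MP_67227b_nt.Lw.LwSp
import Pool.Agent.MP_67227b_nt.Lw.LwGrid
import Pool.Agent.MP_67227b_nt.Lg.LgNum

set_option autoImplicit false

open Filter Topology Set MeasureTheory Complex
open scoped Real ArithmeticFunction ContDiff

namespace Pool.Agent.MP_67227b_nt.Lw

open Pool.Agent.Lib.ZetaCount_helper33 Pool.Agent.MP_67227b_nt Pool.Agent.MP_67227b_nt.Mo
open Pool.Agent.MP_67227b_nt.Sg Pool.Agent.MP_67227b_nt.Pp Pool.Agent.MP_67227b_nt.Al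
open Pool.Agent.MP_67227b_nt.Lg

/-- The properties of the grid. -/
structure Gd (sg u κ q ε η M δ : ℝ) (a : ℕ → ℝ) (i0 i1 K : ℕ) : Prop where
  hη : 0 < η
  hδ : 0 < δ
  hi0 : 1 ≤ i0
  haM : ∀ i, |a i| ≤ M
  hK : κ < ((K : ℝ) + 1) * ((i0 : ℝ) * η)
  hKη : 2 * K * η ≤ ε
  hsign : ∀ i ∈ Finset.Ico i0 i1, ∀ x ∈ Icc ((i : ℝ) * η) (((i : ℝ) + 2) * η),
    a i = tau sg u x * |a i|
  hn : ∀ x, 0 ≤ hS (fun i => |a i|) η i0 i1 x
  hle : ∀ x, hS (fun i => |a i|) η i0 i1 x ≤ Real.sqrt q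
  h0 : ∀ x, x ≤ δ → hS (fun i => |a i|) η i0 i1 x = 0
  lip : ∃ B : ℝ, ∀ x y, |hS (fun i => |a i|) η i0 i1 x - hS (fun i => |a i|) η i0 i1 y| ≤
    B * |x - y|
  mean : ∫ t in (0 : ℝ)..κ, (Real.sqrt q - hS (fun i => |a i|) η i0 i1 t) ≤ ε

theorem Gd.cont {sg u κ q ε η M δ : ℝ} {a : ℕ → ℝ} {i0 i1 K : ℕ}
    (G : Gd sg u κ q ε η M δ a i0 i1 K) : Continuous (hS (fun i => |a i|) η i0 i1) := by
  obtain ⟨B, hB⟩ := G.lip
  have : LipschitzWith (Real.toNNReal B) (hS (fun i => |a i|) η i0 i1) := by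
    refine LipschitzWith.of_dist_le_mul fun x y => ?_
    rw [Real.dist_eq, Real.dist_eq]
    exact (hB x y).trans (mul_le_mul_of_nonneg_right (Real.le_coe_toNNReal B) (abs_nonneg _))
  exact this.continuous

theorem ks_le {u : ℝ} (hu : 0 < u) (t : ℝ) : ks u t ≤ π * u := by
  unfold ks
  have h1 : |Real.sinc (π * u * t)| ≤ 1 := by
    rw [abs_le]
    exact ⟨Real.neg_one_le_sinc _, Real.sinc_le_one _⟩
  have := Real.pi_pos
  exact mul_le_of_le_one_right (by positivity) h1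

private theorem ker_lip {u M B : ℝ} {h : ℝ → ℝ} (hu : 0 < u) (hM0 : 0 ≤ M) (hM : ∀ x, |h x| ≤ M)
    (hB : ∀ x y, |h x - h y| ≤ B * |x - y|) (x y : ℝ) :
    abs (2 * h x * |Real.sin (π * u * x)| - 2 * h y * |Real.sin (π * u * y)|) ≤
      (2 * (B + M * (π * u))) * |x - y| := by
  have hpu : 0 < π * u := mul_pos Real.pi_pos hu
  have h1 : abs (|Real.sin (π * u * x)| - |Real.sin (π * u * y)|) ≤ π * u * |x - y| := by
    calc abs (|Real.sin (π * u * x)| - |Real.sin (π * u * y)|)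
        ≤ |Real.sin (π * u * x) - Real.sin (π * u * y)| := abs_abs_sub_abs_le _ _
      _ ≤ |π * u * x - π * u * y| := Real.abs_sin_sub_sin_le _ _
      _ = π * u * |x - y| := by rw [← mul_sub, abs_mul, abs_of_pos hpu]
  have h2 : 2 * h x * |Real.sin (π * u * x)| - 2 * h y * |Real.sin (π * u * y)| =
      2 * ((h x - h y) * |Real.sin (π * u * x)|) +
        2 * (h y * (|Real.sin (π * u * x)| - |Real.sin (π * u * y)|)) := by ring
  rw [h2]
  have h3 : abs ((h x - h y) * |Real.sin (π * u * x)|) ≤ B * |x - y| := by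
    rw [abs_mul, abs_abs]
    exact (mul_le_of_le_one_right (abs_nonneg _) (Real.abs_sin_le_one _)).trans (hB x y)
  have h4 : abs (h y * (|Real.sin (π * u * x)| - |Real.sin (π * u * y)|)) ≤
      M * (π * u * |x - y|) := by
    rw [abs_mul]
    exact mul_le_mul (hM y) h1 (abs_nonneg _) hM0
  calc abs (2 * ((h x - h y) * |Real.sin (π * u * x)|) +
        2 * (h y * (|Real.sin (π * u * x)| - |Real.sin (π * u * y)|)))
      ≤ abs (2 * ((h x - h y) * |Real.sin (π * u * x)|)) +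
        abs (2 * (h y * (|Real.sin (π * u * x)| - |Real.sin (π * u * y)|))) := abs_add_le _ _
    _ ≤ 2 * (B * |x - y|) + 2 * (M * (π * u * |x - y|)) := by
        rw [abs_mul (2 : ℝ) ((h x - h y) * |Real.sin (π * u * x)|),
          abs_mul (2 : ℝ) (h y * (|Real.sin (π * u * x)| - |Real.sin (π * u * y)|)), abs_two]
        linarith
    _ = (2 * (B + M * (π * u))) * |x - y| := by ring

/-- The first moment of a pair of truncations. -/
noncomputable def Jp (u κ q κ₁ κ₂ : ℝ) : ℝ :=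
  ∫ t in (0 : ℝ)..κ₁, 2 * Real.sqrt q * ks u t * pw κ q (min (κ₁ - t) κ₂)

theorem Jp_nonneg {u κ q κ₁ κ₂ : ℝ} (hu : 0 < u) (hκ : 0 < κ) (hκ₁ : 0 ≤ κ₁) :
    0 ≤ Jp u κ q κ₁ κ₂ := by
  unfold Jp
  refine intervalIntegral.integral_nonneg hκ₁ fun t _ => ?_
  exact mul_nonneg (mul_nonneg (by positivity) (ks_nonneg hu.le t)) (pw_nonneg hκ _)

private theorem Jp_cont {u κ q κ₁ κ₂ : ℝ} (hq : 0 < q) :
    Continuous fun t : ℝ => 2 * Real.sqrt q * ks u t * pw κ q (min (κ₁ - t) κ₂) := by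
  refine (continuous_const.mul (ks_cont u)).mul ((pw_cont hq.le).comp ?_)
  exact (continuous_const.sub continuous_id).min continuous_const

private theorem Jp_pt {u κ q κ₁ κ₂ t : ℝ} (hu : 0 < u) (hκ : 0 < κ) (hq : 0 < q)
    (hκ₁' : κ₁ ≤ κ) (ht : 0 ≤ t) :
    2 * Real.sqrt q * ks u t * pw κ q (min (κ₁ - t) κ₂) ≤ 2 * Real.sqrt q * (π * u) := by
  have h1 : pw κ q (min (κ₁ - t) κ₂) ≤ 1 :=
    pw_le_one hκ hq.le ((min_le_left _ _).trans (by linarith))
  have h2 := pw_nonneg (q := q) hκ (min (κ₁ - t) κ₂)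
  have h3 := ks_le hu t
  have h4 := ks_nonneg hu.le t
  have h5 := Real.sqrt_nonneg q
  have h6 : ks u t * pw κ q (min (κ₁ - t) κ₂) ≤ π * u :=
    (mul_le_of_le_one_right h4 h1).trans h3
  calc _ = 2 * Real.sqrt q * (ks u t * pw κ q (min (κ₁ - t) κ₂)) := by ring
    _ ≤ _ := mul_le_mul_of_nonneg_left h6 (by positivity)

theorem Jp_le {u κ q κ₁ κ₂ : ℝ} (hu : 0 < u) (hκ : 0 < κ) (hκ1 : κ ≤ 1) (hq : 0 < q)
    (hκ₁ : 0 ≤ κ₁) (hκ₁' : κ₁ ≤ κ) : Jp u κ q κ₁ κ₂ ≤ 2 * Real.sqrt q * (π * u) := by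
  unfold Jp
  have hp := Real.pi_pos
  have h1 : (∫ t in (0 : ℝ)..κ₁, 2 * Real.sqrt q * ks u t * pw κ q (min (κ₁ - t) κ₂)) ≤
      ∫ _ in (0 : ℝ)..κ₁, 2 * Real.sqrt q * (π * u) := by
    refine intervalIntegral.integral_mono_on hκ₁ ((Jp_cont hq).intervalIntegrable _ _)
      intervalIntegrable_const ?_
    intro t ht
    exact Jp_pt hu hκ hq hκ₁' ht.1
  rw [intervalIntegral.integral_const, sub_zero, smul_eq_mul] at h1
  refine h1.trans (mul_le_of_le_one_left (by positivity) (by linarith))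

/-- The integral in the lower bound of the first moment. -/
private theorem int_low {sg u κ κ₁ κ₂ q ε η M δ T : ℝ} {a : ℕ → ℝ} {i0 i1 K : ℕ} {v : ℕ → ℝ}
    (hu : 0 < u) (hκ : 0 < κ) (hκ1 : κ ≤ 1) (hκ₁' : κ₁ ≤ κ)
    (hq : 0 < q) (hε : 0 < ε) (G : Gd sg u κ q ε η M δ a i0 i1 K) (hKκ : 2 * K * η ≤ κ₁)
    (hρ : ∀ x y : ℝ, x ≤ κ → y ≤ κ → |x - y| ≤ 2 * K * η → |pw κ q x - pw κ q y| ≤ ε)
    (hv : ∀ p, 0 ≤ v p) (hT : 1 < T)
    (hFW : ∀ x, x ≤ κ → (pw κ q x - ε) * FW v T κ ≤ FW v T x) :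
    (Jp u κ q κ₁ κ₂ - (6 * Real.sqrt q * (π * u) + 2 * (π * u)) * ε) * FW v T κ ≤
      ∫ t in (0 : ℝ)..(κ₁ - 2 * K * η),
        (2 * hS (fun i => |a i|) η i0 i1 t * |Real.sin (π * u * t)|) / t *
          FW v T (min (κ₁ - 2 * K * η - t) (κ₂ - 2 * K * η)) := by
  have hp := Real.pi_pos
  have hpu : 0 < π * u := by positivity
  have hη := G.hη
  have hKη0 : 0 ≤ 2 * (K : ℝ) * η := by positivity
  set h : ℝ → ℝ := hS (fun i => |a i|) η i0 i1 with hh
  have hhc : Continuous h := G.cont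
  set κ' : ℝ := κ₁ - 2 * K * η with hκ'
  have hκ'0 : 0 ≤ κ' := by rw [hκ']; linarith
  have hκ'1 : κ' ≤ κ := by rw [hκ']; linarith
  set F : ℝ := FW v T κ with hF
  have hF0 : 0 ≤ F := FW_nonneg hv T κ
  have hsq := Real.sqrt_nonneg q
  -- the right-hand side with the continuous kernel
  have h1 : (∫ t in (0 : ℝ)..κ', (2 * h t * |Real.sin (π * u * t)|) / t *
      FW v T (min (κ' - t) (κ₂ - 2 * K * η))) =
      ∫ t in (0 : ℝ)..κ', 2 * h t * ks u t * FW v T (min (κ' - t) (κ₂ - 2 * K * η)) := by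
    refine intervalIntegral.integral_congr_ae (Eventually.of_forall fun t ht => ?_)
    rw [uIoc_of_le hκ'0] at ht
    have e : (2 * h t * |Real.sin (π * u * t)|) / t = 2 * h t * ks u t := by
      rw [← ks_eq hu ht.1]; ring
    rw [e]
  rw [h1]
  have hmono : Antitone (fun t : ℝ => FW v T (min (κ' - t) (κ₂ - 2 * K * η))) := by
    intro s t hst
    exact FW_mono hv hT (min_le_min (by linarith) le_rfl)
  have hi3 : IntervalIntegrable
      (fun t => 2 * h t * ks u t * FW v T (min (κ' - t) (κ₂ - 2 * K * η))) volume 0 κ' := by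
    refine (hmono.intervalIntegrable).continuousOn_mul ?_
    exact ((continuous_const.mul hhc).mul (ks_cont u)).continuousOn
  -- the left-hand side
  set g : ℝ → ℝ := fun t => 2 * Real.sqrt q * ks u t * pw κ q (min (κ₁ - t) κ₂) with hg
  have hgc : Continuous g := Jp_cont hq
  have hi1 : IntervalIntegrable (fun t => F * (g t - 2 * (π * u) * (Real.sqrt q - h t) -
      4 * ε * Real.sqrt q * (π * u))) volume 0 κ' := by
    have : Continuous (fun t => F * (g t - 2 * (π * u) * (Real.sqrt q - h t) -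
      4 * ε * Real.sqrt q * (π * u))) := by fun_prop
    exact this.intervalIntegrable _ _
  have h2 : (∫ t in (0 : ℝ)..κ', F * (g t - 2 * (π * u) * (Real.sqrt q - h t) -
      4 * ε * Real.sqrt q * (π * u))) ≤
      ∫ t in (0 : ℝ)..κ', 2 * h t * ks u t * FW v T (min (κ' - t) (κ₂ - 2 * K * η)) := by
    refine intervalIntegral.integral_mono_on hκ'0 hi1 hi3 ?_
    intro t ht
    have hm : min (κ' - t) (κ₂ - 2 * K * η) = min (κ₁ - t) κ₂ - 2 * K * η := by
      rw [hκ', ← min_sub_sub_right]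
      congr 1
      ring
    have hm1 : min (κ₁ - t) κ₂ ≤ κ := (min_le_left _ _).trans (by linarith [ht.1])
    have hm2 : min (κ₁ - t) κ₂ - 2 * K * η ≤ κ := by linarith
    have h3 := hFW _ hm2
    have h4 := hρ _ _ hm1 hm2 (by
      rw [show min (κ₁ - t) κ₂ - (min (κ₁ - t) κ₂ - 2 * K * η) = 2 * K * η by ring,
        abs_of_nonneg hKη0])
    have h5 := (abs_le.1 h4).2
    rw [hm]
    set P : ℝ := pw κ q (min (κ₁ - t) κ₂) with hP
    have hP0 : 0 ≤ P := pw_nonneg hκ _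
    have hP1 : P ≤ 1 := pw_le_one hκ hq.le hm1
    have h6 : (P - 2 * ε) * F ≤ FW v T (min (κ₁ - t) κ₂ - 2 * K * η) := by
      refine le_trans (mul_le_mul_of_nonneg_right ?_ hF0) h3
      linarith
    have hk0 := ks_nonneg hu.le t
    have hk1 := ks_le hu t
    have hh0 := G.hn t
    have hh1 := G.hle t
    rw [← hh] at hh0 hh1
    have h7 : 2 * h t * ks u t * ((P - 2 * ε) * F) ≤
        2 * h t * ks u t * FW v T (min (κ₁ - t) κ₂ - 2 * K * η) :=
      mul_le_mul_of_nonneg_left h6 (by positivity)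
    refine le_trans ?_ h7
    have e1 : 2 * h t * ks u t * ((P - 2 * ε) * F) =
        F * (2 * h t * ks u t * P - 4 * ε * (h t * ks u t)) := by ring
    rw [e1]
    refine mul_le_mul_of_nonneg_left ?_ hF0
    have h8 : h t * ks u t ≤ Real.sqrt q * (π * u) := mul_le_mul hh1 hk1 hk0 hsq
    have h9 : (Real.sqrt q - h t) * (ks u t * P) ≤ (Real.sqrt q - h t) * (π * u) :=
      mul_le_mul_of_nonneg_left ((mul_le_of_le_one_right hk0 hP1).trans hk1) (by linarith)
    have h10 : ε * (h t * ks u t) ≤ ε * (Real.sqrt q * (π * u)) :=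
      mul_le_mul_of_nonneg_left h8 hε.le
    show 2 * Real.sqrt q * ks u t * P - 2 * (π * u) * (Real.sqrt q - h t) -
      4 * ε * Real.sqrt q * (π * u) ≤ 2 * h t * ks u t * P - 4 * ε * (h t * ks u t)
    nlinarith
  refine le_trans ?_ h2
  rw [intervalIntegral.integral_const_mul, mul_comm _ F]
  refine mul_le_mul_of_nonneg_left ?_ hF0
  have hci : Continuous fun t => 2 * (π * u) * (Real.sqrt q - h t) := by fun_prop
  have hcg : Continuous fun t => g t - 2 * (π * u) * (Real.sqrt q - h t) := by fun_prop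
  have hcg2 : IntervalIntegrable (fun t => g t - 2 * (π * u) * (Real.sqrt q - h t)) volume 0 κ' :=
    hcg.intervalIntegrable _ _
  rw [intervalIntegral.integral_sub hcg2
    intervalIntegrable_const, intervalIntegral.integral_sub (hgc.intervalIntegrable _ _)
    (hci.intervalIntegrable _ _), intervalIntegral.integral_const_mul,
    intervalIntegral.integral_const, sub_zero, smul_eq_mul]
  have h11 : (∫ t in (0 : ℝ)..κ', (Real.sqrt q - h t)) ≤ ε := by
    have h12 := G.mean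
    rw [← hh] at h12
    have hc2 : Continuous fun t => Real.sqrt q - h t := by fun_prop
    rw [← intervalIntegral.integral_add_adjacent_intervals (b := κ')
      (hc2.intervalIntegrable _ _) (hc2.intervalIntegrable _ _)] at h12
    have h13 : 0 ≤ ∫ t in κ'..κ, (Real.sqrt q - h t) := by
      refine intervalIntegral.integral_nonneg hκ'1 fun t _ => ?_
      have := G.hle t
      rw [← hh] at this
      linarith
    linarith
  have h14 : Jp u κ q κ₁ κ₂ - 2 * Real.sqrt q * (π * u) * ε ≤ ∫ t in (0 : ℝ)..κ', g t := by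
    have h15 : Jp u κ q κ₁ κ₂ = (∫ t in (0 : ℝ)..κ', g t) + ∫ t in κ'..κ₁, g t := by
      rw [intervalIntegral.integral_add_adjacent_intervals (hgc.intervalIntegrable _ _)
        (hgc.intervalIntegrable _ _)]
      rfl
    have h16 : (∫ t in κ'..κ₁, g t) ≤ ∫ _ in κ'..κ₁, 2 * Real.sqrt q * (π * u) := by
      refine intervalIntegral.integral_mono_on (by rw [hκ']; linarith)
        (hgc.intervalIntegrable _ _) intervalIntegrable_const ?_
      intro t ht
      exact Jp_pt hu hκ hq hκ₁' (hκ'0.trans ht.1)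
    rw [intervalIntegral.integral_const, smul_eq_mul] at h16
    have h17 : (κ₁ - κ') * (2 * Real.sqrt q * (π * u)) ≤ ε * (2 * Real.sqrt q * (π * u)) := by
      refine mul_le_mul_of_nonneg_right ?_ (by positivity)
      rw [hκ']
      linarith [G.hKη]
    linarith
  have h18 : κ' * (4 * ε * Real.sqrt q * (π * u)) ≤ 4 * ε * Real.sqrt q * (π * u) :=
    mul_le_of_le_one_left (by positivity) (by linarith)
  have h19 : 2 * (π * u) * (∫ t in (0 : ℝ)..κ', (Real.sqrt q - h t)) ≤ 2 * (π * u) * ε :=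
    mul_le_mul_of_nonneg_left h11 (by positivity)
  nlinarith

/-- **The first moment of a pair.** -/
theorem pair_S1 {sg u κ κ₁ κ₂ q ε η M δ : ℝ} {a : ℕ → ℝ} {i0 i1 K : ℕ}
    (hsg : sg = 1 ∨ sg = -1) (hu : 0 < u) (hκ : 0 < κ) (hκ1 : κ ≤ 1) (hκ₁ : 0 < κ₁)
    (hκ₁' : κ₁ ≤ κ) (hκ₂' : κ₂ ≤ κ) (hq : 0 < q) (hε : 0 < ε)
    (G : Gd sg u κ q ε η M δ a i0 i1 K) (hKκ : 2 * K * η ≤ κ₁)
    (hρ : ∀ x y : ℝ, x ≤ κ → y ≤ κ → |x - y| ≤ 2 * K * η → |pw κ q x - pw κ q y| ≤ ε) :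
    ∀ᶠ T : ℝ in atTop,
      (Jp u κ q κ₁ κ₂ - (8 * Real.sqrt q * (π * u) + 2 * (π * u) + 2) * ε) *
        FW (fun p => hS (fun i => |a i|) η i0 i1 (Real.log p / Real.log T) ^ 2) T κ ≤
        -(sg * S1b (apa a T η κ₁ i0 i1 K) (apa a T η κ₂ i0 i1 K)
          (2 * π * u / Real.log T) (ε / 2 / Real.log T) ⌊T ^ κ⌋₊) := by
  have hp := Real.pi_pos
  have hpu : 0 < π * u := by positivity
  have hsq := Real.sqrt_nonneg q
  have hη := G.hη
  have hKη0 : 0 ≤ 2 * (K : ℝ) * η := by positivity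
  set h : ℝ → ℝ := hS (fun i => |a i|) η i0 i1 with hh
  obtain ⟨B, hB⟩ := G.lip
  rw [← hh] at hB
  have hhM : ∀ x, |h x| ≤ Real.sqrt q := fun x => by
    rw [abs_of_nonneg (G.hn x)]; exact G.hle x
  have hg0n : ∀ x, 0 ≤ 2 * h x * |Real.sin (π * u * x)| := fun x => by
    have := G.hn x
    rw [← hh] at this
    positivity
  have hg00 : ∀ x, x ≤ δ → 2 * h x * |Real.sin (π * u * x)| = 0 := by
    intro x hx
    have := G.h0 x hx
    rw [← hh] at this
    rw [this]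
    simp
  have hgl := ker_lip hu hsq hhM hB
  have e1 := Sp2_ge G.hδ hg0n hg00 hgl hq.le hε
  have e2 := S1_pair (κ := κ) hsg hη hκ1 hκ₁' hκ₂' (by linarith : 0 < ε / 2) G.hi0 G.haM
    (lt_of_le_of_lt hκ₁' G.hK) (lt_of_le_of_lt hκ₂' G.hK) G.hsign hε
  filter_upwards [e1, e2, FW_low hq hκ hε, eventually_gt_atTop 1] with T h1 h2 h3 hT
  have hv : ∀ p : ℕ, 0 ≤ h (Real.log p / Real.log T) ^ 2 := fun p => sq_nonneg _
  have hvq : ∀ p : ℕ, h (Real.log p / Real.log T) ^ 2 ≤ q := fun p => by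
    calc h (Real.log p / Real.log T) ^ 2 ≤ Real.sqrt q ^ 2 :=
          pow_le_pow_left₀ (G.hn _) (G.hle _) 2
      _ = q := Real.sq_sqrt hq.le
  set v : ℕ → ℝ := fun p => h (Real.log p / Real.log T) ^ 2 with hvd
  have h4 := h1 v hv hvq (κ₁ - 2 * K * η) (κ₂ - 2 * K * η) (by linarith) (by linarith)
  have h5 := int_low (κ₂ := κ₂) hu hκ hκ1 hκ₁' hq hε G hKκ hρ hv hT (h3 v hv hvq)
  rw [← hh] at h5 h2
  set F : ℝ := FW v T κ with hF
  have hF1 : 1 ≤ F := one_le_FW hv hT hκ.le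
  have hFκ' : FW v T (κ₁ - 2 * K * η) ≤ F := FW_mono hv hT (by linarith)
  have hb : 2 * (ε / 2) = ε := by ring
  rw [hb] at h2
  set SP : ℝ := Sp2 v (fun x => 2 * h x * |Real.sin (π * u * x)|) T (κ₁ - 2 * K * η)
    (κ₂ - 2 * K * η) with hSP
  set J : ℝ := Jp u κ q κ₁ κ₂ with hJ
  have hJ0 : 0 ≤ J := Jp_nonneg hu hκ hκ₁.le
  have hJ1 : J ≤ 2 * Real.sqrt q * (π * u) := Jp_le hu hκ hκ1 hq hκ₁.le hκ₁'
  set X : ℝ := J - (6 * Real.sqrt q * (π * u) + 2 * (π * u)) * ε - ε with hX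
  have hXJ : X ≤ 2 * Real.sqrt q * (π * u) := by
    have : 0 ≤ (6 * Real.sqrt q * (π * u) + 2 * (π * u)) * ε := by positivity
    rw [hX]; linarith
  have h6 : F * X ≤ SP := by
    have h7 : ε * FW v T (κ₁ - 2 * K * η) ≤ ε * F := mul_le_mul_of_nonneg_left hFκ' hε.le
    have h8 : F * X = (J - (6 * Real.sqrt q * (π * u) + 2 * (π * u)) * ε) * F - ε * F := by
      rw [hX]; ring
    rw [h8]
    linarith
  have h9 : F * (X - ε * (2 * Real.sqrt q * (π * u))) ≤ Real.exp (-ε) * SP := by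
    have h10 : X - ε * (2 * Real.sqrt q * (π * u)) ≤ Real.exp (-ε) * X := by
      rcases le_or_gt 0 X with hX0 | hX0
      · have hexp : 1 - ε ≤ Real.exp (-ε) := by
          have := Real.add_one_le_exp (-ε); linarith
        have h11 : (1 - ε) * X ≤ Real.exp (-ε) * X := mul_le_mul_of_nonneg_right hexp hX0
        have h12 : ε * X ≤ ε * (2 * Real.sqrt q * (π * u)) := mul_le_mul_of_nonneg_left hXJ hε.le
        linarith
      · have hexp : Real.exp (-ε) ≤ 1 := Real.exp_le_one_iff.2 (by linarith)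
        have h11 : X ≤ Real.exp (-ε) * X := by nlinarith
        have h12 : 0 ≤ ε * (2 * Real.sqrt q * (π * u)) := by positivity
        linarith
    calc F * (X - ε * (2 * Real.sqrt q * (π * u))) ≤ F * (Real.exp (-ε) * X) :=
          mul_le_mul_of_nonneg_left h10 (by linarith)
      _ = Real.exp (-ε) * (F * X) := by ring
      _ ≤ _ := mul_le_mul_of_nonneg_left h6 (Real.exp_pos _).le
  have h13 : ε ≤ F * ε := le_mul_of_one_le_left hε.le hF1
  refine le_trans ?_ h2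
  have h14 : (J - (8 * Real.sqrt q * (π * u) + 2 * (π * u) + 2) * ε) * F =
      F * (X - ε * (2 * Real.sqrt q * (π * u))) - F * ε := by
    rw [hX]; ring
  rw [h14]
  linarith

/-- **The mass of a pair.** -/
theorem pair_S0 {sg u κ κ₁ κ₂ q ε η M δ x₀ : ℝ} {a : ℕ → ℝ} {i0 i1 K : ℕ}
    (hκ1 : κ ≤ 1) (hκ₁' : κ₁ ≤ κ) (hx₀ : 0 < x₀) (hx₁ : x₀ ≤ κ₁)
    (hx₂ : x₀ ≤ κ₂) (hq : 0 < q) (hε : 0 < ε)
    (G : Gd sg u κ q ε η M δ a i0 i1 K) :
    ∀ᶠ T : ℝ in atTop,
      S0b (apa a T η κ₁ i0 i1 K) (apa a T η κ₂ i0 i1 K) (ε / 2 / Real.log T) ⌊T ^ κ⌋₊ ≤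
      (pw κ q (min κ₁ κ₂) + ((2 * Real.sqrt q + 1) / x₀ + 1) * ε) *
        FW (fun p => hS (fun i => |a i|) η i0 i1 (Real.log p / Real.log T) ^ 2) T κ := by
  have hsq := Real.sqrt_nonneg q
  have hη := G.hη
  set h : ℝ → ℝ := hS (fun i => |a i|) η i0 i1 with hh
  obtain ⟨B, hB⟩ := G.lip
  rw [← hh] at hB
  have hhc : Continuous h := G.cont
  have hτ : ∀ x, tau sg u x = 1 ∨ tau sg u x = -1 := by
    intro x; unfold tau; split_ifs <;> simp
  have hlip := lip_mul (h := h) (B := B) (Q := Real.sqrt q) (R := ((i1 : ℝ) + 1) * η) hB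
    G.hn G.hle (by positivity) (by
      intro x hx
      rcases hx with hx | hx
      · exact G.h0 x (hx.trans G.hδ.le)
      · exact hS_zero hη i0 i1 (Or.inr hx))
  have hx0κ : x₀ ≤ κ := hx₁.trans hκ₁'
  have e1 := FW_upper (h := h) (κ := κ) (q := q) (z := 2 * Real.sqrt q * ε) (x₀ := x₀) G.hδ
    (fun x hx => G.h0 x hx) (fun x => by
      calc h x ^ 2 ≤ Real.sqrt q ^ 2 := pow_le_pow_left₀ (G.hn _) (G.hle _) 2
        _ = q := Real.sq_sqrt hq.le) hhc hlip hκ1 (by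
      intro a' b' ha hab hb
      have hc2 : Continuous fun t => Real.sqrt q - h t := by fun_prop
      have h1 : (∫ t in a'..b', (q - h t ^ 2)) ≤ 2 * Real.sqrt q * ε := by
        have h2 : (∫ t in a'..b', (q - h t ^ 2)) ≤
            ∫ t in a'..b', 2 * Real.sqrt q * (Real.sqrt q - h t) := by
          have hc3 : Continuous fun t => q - h t ^ 2 := by fun_prop
          refine intervalIntegral.integral_mono_on hab (hc3.intervalIntegrable _ _)
            ((hc2.const_smul (2 * Real.sqrt q)).intervalIntegrable _ _) ?_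
          intro t _
          have h3 := G.hn t
          have h4 := G.hle t
          rw [← hh] at h3 h4
          have h5 : q = Real.sqrt q ^ 2 := (Real.sq_sqrt hq.le).symm
          have h6 : q - h t ^ 2 = (Real.sqrt q - h t) * (Real.sqrt q + h t) := by
            nth_rewrite 1 [h5]; ring
          rw [h6]
          nlinarith
        refine h2.trans ?_
        rw [intervalIntegral.integral_const_mul]
        refine mul_le_mul_of_nonneg_left ?_ (by positivity)
        have h7 := G.mean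
        rw [← hh] at h7
        rw [← intervalIntegral.integral_add_adjacent_intervals (b := b')
          (hc2.intervalIntegrable _ _) (hc2.intervalIntegrable _ _),
          ← intervalIntegral.integral_add_adjacent_intervals (a := (0 : ℝ)) (b := a')
          (hc2.intervalIntegrable _ _) (hc2.intervalIntegrable _ _)] at h7
        have hnn : ∀ x y : ℝ, x ≤ y → 0 ≤ ∫ t in x..y, (Real.sqrt q - h t) := by
          intro x y hxy
          refine intervalIntegral.integral_nonneg hxy fun t _ => ?_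
          have := G.hle t
          rw [← hh] at this
          linarith
        have h8 := hnn 0 a' ha
        have h9 := hnn b' κ hb
        linarith
      have hc4 : Continuous fun t => h t ^ 2 := by fun_prop
      rw [intervalIntegral.integral_sub intervalIntegrable_const
        (hc4.intervalIntegrable _ _), intervalIntegral.integral_const, smul_eq_mul] at h1
      linarith) (by positivity) hx₀ hε
  have e2 := S0_pair (κ := κ) (κ₁ := κ₁) (κ₂ := κ₂) (K := K) hη hκ1 (by linarith : 0 < ε / 2)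
    G.hi0 G.haM hτ G.hsign hε
  filter_upwards [e1, e2, eventually_gt_atTop 1] with T h1 h2 hT
  have hv : ∀ p : ℕ, 0 ≤ h (Real.log p / Real.log T) ^ 2 := fun p => sq_nonneg _
  have hxm : x₀ ≤ min κ₁ κ₂ := le_min hx₁ hx₂
  have h3 := h1 (min κ₁ κ₂) hxm ((min_le_left _ _).trans hκ₁')
  rw [← hh] at h2
  set F : ℝ := FW (fun p => h (Real.log p / Real.log T) ^ 2) T κ with hF
  have hF1 : 1 ≤ F := one_le_FW hv hT (by linarith)
  have h4 : ε ≤ F * ε := le_mul_of_one_le_left hε.le hF1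
  rw [← pw_of_nonneg (κ := κ) (q := q) (by linarith : 0 ≤ min κ₁ κ₂)] at h3
  refine h2.trans ?_
  have h5 : (pw κ q (min κ₁ κ₂) + ((2 * Real.sqrt q + 1) / x₀ + 1) * ε) * F =
      (pw κ q (min κ₁ κ₂) + (2 * Real.sqrt q * ε + ε) / x₀) * F + F * ε := by
    field_simp
    ring
  rw [h5]
  linarith

end Pool.Agent.MP_67227b_nt.Lw
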