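import Pool.Agent.MP_67227b_nt.Al.AlF4
import Pool.Agent.MP_67227b_nt.Lw.LwLog

set_option autoImplicit false

open Filter Topology Set MeasureTheory Complex
open scoped Real ArithmeticFunction ContDiff

namespace Pool.Agent.MP_67227b_nt.Lw

open Pool.Agent.Lib.ZetaCount_helper33 Pool.Agent.MP_67227b_nt Pool.Agent.MP_67227b_nt.Mo
open Pool.Agent.MP_67227b_nt.Sg Pool.Agent.MP_67227b_nt.Pp Pool.Agent.MP_67227b_nt.Al

/-- The truncated power. -/
noncomputable def pw (κ q x : ℝ) : ℝ := (max 0 x / κ) ^ q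

theorem pw_nonneg {κ q : ℝ} (hκ : 0 < κ) (x : ℝ) : 0 ≤ pw κ q x := by
  unfold pw
  exact Real.rpow_nonneg (div_nonneg (le_max_left _ _) hκ.le) _

theorem pw_le_one {κ q x : ℝ} (hκ : 0 < κ) (hq : 0 ≤ q) (hx : x ≤ κ) : pw κ q x ≤ 1 := by
  unfold pw
  refine Real.rpow_le_one (div_nonneg (le_max_left _ _) hκ.le) ?_ hq
  rw [div_le_one hκ]
  exact max_le hκ.le hx

theorem pw_cont {κ q : ℝ} (hq : 0 ≤ q) : Continuous (pw κ q) := by
  unfold pw
  exact ((continuous_const.max continuous_id).div_const κ).rpow_const fun x => Or.inr hq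

theorem pw_mono {κ q x y : ℝ} (hκ : 0 < κ) (hq : 0 ≤ q) (h : x ≤ y) : pw κ q x ≤ pw κ q y := by
  unfold pw
  refine Real.rpow_le_rpow (div_nonneg (le_max_left _ _) hκ.le) ?_ hq
  exact div_le_div_of_nonneg_right (max_le_max le_rfl h) hκ.le

theorem pw_of_nonneg {κ q x : ℝ} (hx : 0 ≤ x) : pw κ q x = (x / κ) ^ q := by
  unfold pw
  rw [max_eq_right hx]

theorem pw_unif {κ q ε : ℝ} (hκ : 0 < κ) (hq : 0 ≤ q) (hε : 0 < ε) :
    ∃ ρ : ℝ, 0 < ρ ∧ ∀ x y : ℝ, x ≤ κ → y ≤ κ → |x - y| < ρ → |pw κ q x - pw κ q y| < ε := by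
  have huc : UniformContinuousOn (fun x : ℝ => x ^ q) (Icc 0 1) :=
    isCompact_Icc.uniformContinuousOn_of_continuous (Real.continuous_rpow_const hq).continuousOn
  obtain ⟨ρ, hρ, hU⟩ := Metric.uniformContinuousOn_iff.1 huc ε hε
  refine ⟨κ * ρ, by positivity, fun x y hx hy hxy => ?_⟩
  have hm : ∀ x : ℝ, x ≤ κ → max 0 x / κ ∈ Icc (0 : ℝ) 1 := fun x hx =>
    ⟨div_nonneg (le_max_left _ _) hκ.le, by rw [div_le_one hκ]; exact max_le hκ.le hx⟩
  have hd : dist (max 0 x / κ) (max 0 y / κ) < ρ := by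
    rw [Real.dist_eq, ← sub_div, abs_div, abs_of_pos hκ, div_lt_iff₀ hκ]
    have h1 : |max 0 x - max 0 y| ≤ |x - y| := by
      have := abs_max_sub_max_le_abs x y 0
      rwa [max_comm x 0, max_comm y 0] at this
    linarith
  have := hU _ (hm x hx) _ (hm y hy) hd
  rw [Real.dist_eq] at this
  exact this

/-- The lower bound on the whole range. -/
theorem FW_low {q κ ε : ℝ} (hq : 0 < q) (hκ : 0 < κ) (hε : 0 < ε) : ∀ᶠ T : ℝ in atTop,
    ∀ v : ℕ → ℝ, (∀ p, 0 ≤ v p) → (∀ p, v p ≤ q) → ∀ x, x ≤ κ →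
      (pw κ q x - ε) * FW v T κ ≤ FW v T x := by
  set x₀ : ℝ := κ * ε ^ (1 / q) with hx₀d
  have hx₀ : 0 < x₀ := mul_pos hκ (Real.rpow_pos_of_pos hε _)
  have h0 : pw κ q x₀ = ε := by
    rw [pw_of_nonneg hx₀.le, hx₀d, mul_div_cancel_left₀ _ hκ.ne', ← Real.rpow_mul hε.le,
      one_div, inv_mul_cancel₀ hq.ne', Real.rpow_one]
  filter_upwards [FW_lower hq.le hκ hx₀ hε] with T hT v hv hvq x hx
  rcases le_or_gt x₀ x with h | h
  · rw [pw_of_nonneg (hx₀.le.trans h)]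
    exact hT v hv hvq x h hx
  · have h1 : pw κ q x ≤ ε := by
      rw [← h0]
      exact pw_mono hκ hq.le h.le
    have h2 : (pw κ q x - ε) * FW v T κ ≤ 0 :=
      mul_nonpos_of_nonpos_of_nonneg (by linarith) (FW_nonneg hv T κ)
    exact h2.trans (FW_nonneg hv T x)

/-- The product with the identity is Lipschitz. -/
theorem lip_mul {h : ℝ → ℝ} {B Q R : ℝ} (hl : ∀ x y, |h x - h y| ≤ B * |x - y|)
    (h0 : ∀ x, 0 ≤ h x) (hQ : ∀ x, h x ≤ Q) (hR : 0 ≤ R) (hs : ∀ x, x ≤ 0 ∨ R ≤ x → h x = 0) :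
    ∀ x y, |x * h x ^ 2 - y * h y ^ 2| ≤ (2 * R * B * Q + Q ^ 2) * |x - y| := by
  have hc : ∀ x, x * h x ^ 2 = max 0 (min x R) * h x ^ 2 := by
    intro x
    rcases le_or_gt x 0 with hx | hx
    · rw [hs x (Or.inl hx)]; ring
    rcases le_or_gt R x with hx2 | hx2
    · rw [hs x (Or.inr hx2)]; ring
    · rw [min_eq_left hx2.le, max_eq_right hx.le]
  intro x y
  have hB0 : 0 ≤ B * |x - y| := (abs_nonneg _).trans (hl x y)
  have hQ0 : 0 ≤ Q := (h0 0).trans (hQ 0)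
  rw [hc x, hc y]
  have h1 : |max 0 (min x R) - max 0 (min y R)| ≤ |x - y| := by
    have h2 := abs_max_sub_max_le_abs (min x R) (min y R) 0
    have h3 := abs_min_sub_min_le_max x R y R
    rw [sub_self, abs_zero, max_eq_left (abs_nonneg _)] at h3
    rw [max_comm 0 (min x R), max_comm 0 (min y R)]
    exact h2.trans h3
  have h4 : max 0 (min x R) * h x ^ 2 - max 0 (min y R) * h y ^ 2 =
      max 0 (min x R) * ((h x - h y) * (h x + h y)) +
        (max 0 (min x R) - max 0 (min y R)) * h y ^ 2 := by ring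
  rw [h4]
  have h5 : 0 ≤ max 0 (min x R) := le_max_left _ _
  have h6 : max 0 (min x R) ≤ R := max_le hR (min_le_right _ _)
  refine (abs_add_le _ _).trans ?_
  rw [abs_mul, abs_mul, abs_mul, abs_of_nonneg h5, abs_of_nonneg (sq_nonneg (h y)),
    abs_of_nonneg (add_nonneg (h0 x) (h0 y))]
  have h7 : |h x - h y| * (h x + h y) ≤ B * |x - y| * (2 * Q) :=
    mul_le_mul (hl x y) (by linarith [hQ x, hQ y]) (add_nonneg (h0 x) (h0 y)) hB0
  have h8 : max 0 (min x R) * (|h x - h y| * (h x + h y)) ≤ R * (B * |x - y| * (2 * Q)) :=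
    mul_le_mul h6 h7 (mul_nonneg (abs_nonneg _) (add_nonneg (h0 x) (h0 y))) hR
  have h9 : |max 0 (min x R) - max 0 (min y R)| * h y ^ 2 ≤ |x - y| * Q ^ 2 :=
    mul_le_mul h1 (pow_le_pow_left₀ (h0 y) (hQ y) 2) (sq_nonneg _) (abs_nonneg _)
  calc _ ≤ R * (B * |x - y| * (2 * Q)) + |x - y| * Q ^ 2 := add_le_add h8 h9
    _ = _ := by ring

end Pool.Agent.MP_67227b_nt.Lw
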