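import Pool.Agent.MP_67227b_nt.Lw.LwCut
import Pool.Agent.MP_67227b_nt.Lw.LwMain

set_option autoImplicit false

/-! # Step approximations of the cut-off -/

open Filter Topology Set MeasureTheory
open scoped Real

namespace Pool.Agent.MP_67227b_nt.Lw

open Pool.Agent.MP_67227b_nt.Lg

/-- The step function with jumps `w` at `c`. -/
noncomputable def stf {n : ℕ} (w c : Fin n → ℝ) (x : ℝ) : ℝ := ∑ i, w i * (if x ≤ c i then 1 else 0)

private theorem ind_eq {q y c c' : ℝ} (x : ℝ) :
    (Iic (min (c - y) c')).indicator (fun x : ℝ => x ^ (q - 1)) x =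
      (if x ≤ c' then 1 else 0) * (if x + y ≤ c then 1 else 0) * x ^ (q - 1) := by
  by_cases h1 : x + y ≤ c
  · by_cases h2 : x ≤ c'
    · rw [Set.indicator_of_mem (show x ∈ Iic (min (c - y) c') from le_min (by linarith) h2),
        if_pos h1, if_pos h2]
      ring
    · rw [Set.indicator_of_notMem (show x ∉ Iic (min (c - y) c') from fun h =>
        h2 (le_trans h (min_le_right _ _))), if_neg h2]
      ring
  · rw [Set.indicator_of_notMem (show x ∉ Iic (min (c - y) c') from fun h =>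
      h1 (by have := le_trans h (min_le_left (c - y) c'); linarith)), if_neg h1]
    ring

private theorem ind_ii {q : ℝ} (hq : 0 < q) (m a b : ℝ) : IntervalIntegrable
    ((Iic m).indicator (fun x : ℝ => x ^ (q - 1))) volume a b := by
  have h := rpow_ii hq a b
  rw [intervalIntegrable_iff] at h ⊢
  exact h.indicator measurableSet_Iic

private theorem sum_ii {ι : Type} (s : Finset ι) {f : ι → ℝ → ℝ} {a b : ℝ}
    (h : ∀ i ∈ s, IntervalIntegrable (f i) volume a b) :
    IntervalIntegrable (fun x => ∑ i ∈ s, f i x) volume a b := by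
  classical
  induction s using Finset.induction_on with
  | empty => simp
  | insert i s hi ih =>
    simp only [Finset.sum_insert hi]
    exact (h i (Finset.mem_insert_self i s)).add
      (ih fun j hj => h j (Finset.mem_insert_of_mem hj))

/-- The integral of a truncated power. -/
private theorem ind_int {q m b : ℝ} (hq : 0 < q) (hm : max 0 m ≤ b) :
    ∫ x in (0 : ℝ)..b, (Iic m).indicator (fun x : ℝ => x ^ (q - 1)) x = (max 0 m) ^ q / q := by
  have hm0 : 0 ≤ max 0 m := le_max_left _ _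
  rw [← intervalIntegral.integral_add_adjacent_intervals (b := max 0 m) (ind_ii hq _ _ _)
    (ind_ii hq _ _ _)]
  have h1 : (∫ x in (0 : ℝ)..(max 0 m), (Iic m).indicator (fun x : ℝ => x ^ (q - 1)) x) =
      ∫ x in (0 : ℝ)..(max 0 m), x ^ (q - 1) := by
    refine intervalIntegral.integral_congr_ae (Eventually.of_forall fun x hx => ?_)
    rw [uIoc_of_le hm0] at hx
    refine Set.indicator_of_mem ?_ _
    show x ≤ m
    rcases le_max_iff.1 hx.2 with h | h
    · linarith [hx.1]
    · exact h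
  have h2 : (∫ x in (max 0 m)..b, (Iic m).indicator (fun x : ℝ => x ^ (q - 1)) x) = 0 := by
    rw [intervalIntegral.integral_congr_ae (g := fun _ => (0 : ℝ))
      (Eventually.of_forall fun x hx => ?_)]
    · simp
    · rw [uIoc_of_le hm] at hx
      refine Set.indicator_of_notMem ?_ _
      show ¬ x ≤ m
      have := le_max_right 0 m
      exact not_le.2 (lt_of_le_of_lt this hx.1)
  rw [h1, h2, add_zero, int_rpow hq]

private theorem stf_mul {n : ℕ} (w c : Fin n → ℝ) (q y x : ℝ) :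
    stf w c x * stf w c (x + y) * x ^ (q - 1) =
      ∑ i, ∑ j, w i * w j * (Iic (min (c i - y) (c j))).indicator (fun x : ℝ => x ^ (q - 1)) x := by
  unfold stf
  rw [mul_comm (∑ i, w i * (if x ≤ c i then (1 : ℝ) else 0)), Finset.sum_mul_sum, Finset.sum_mul]
  refine Finset.sum_congr rfl fun i _ => ?_
  rw [Finset.sum_mul]
  refine Finset.sum_congr rfl fun j _ => ?_
  rw [ind_eq]
  ring

/-- The correlation of a step function. -/
theorem stf_corr {n : ℕ} {w c : Fin n → ℝ} {q y : ℝ} (hq : 0 < q) (hy1 : y ≤ 1)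
    (hc : ∀ i, c i ≤ 1) :
    ∫ x in (0 : ℝ)..(1 - y), stf w c x * stf w c (x + y) * x ^ (q - 1) =
      ∑ i, ∑ j, w i * w j * ((max 0 (min (c i - y) (c j))) ^ q / q) := by
  have h1 : (∫ x in (0 : ℝ)..(1 - y), stf w c x * stf w c (x + y) * x ^ (q - 1)) =
      ∫ x in (0 : ℝ)..(1 - y), ∑ i, ∑ j, w i * w j *
        (Iic (min (c i - y) (c j))).indicator (fun x : ℝ => x ^ (q - 1)) x :=
    intervalIntegral.integral_congr fun x _ => stf_mul w c q y x
  have h2 : ∀ i j, IntervalIntegrable (fun x => w i * w j *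
      (Iic (min (c i - y) (c j))).indicator (fun x : ℝ => x ^ (q - 1)) x) volume 0 (1 - y) :=
    fun i j => (ind_ii hq _ _ _).const_mul _
  rw [h1, intervalIntegral.integral_finsetSum fun i _ => sum_ii Finset.univ fun j _ => h2 i j]
  refine Finset.sum_congr rfl fun i _ => ?_
  rw [intervalIntegral.integral_finsetSum fun j _ => h2 i j]
  refine Finset.sum_congr rfl fun j _ => ?_
  rw [intervalIntegral.integral_const_mul, ind_int hq]
  exact max_le (by linarith) ((min_le_left _ _).trans (by linarith [hc i]))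

theorem stf_ii {n : ℕ} (w c : Fin n → ℝ) {q : ℝ} (hq : 0 < q) (y a b : ℝ) :
    IntervalIntegrable (fun x => stf w c x * stf w c (x + y) * x ^ (q - 1)) volume a b := by
  have h1 : (fun x => stf w c x * stf w c (x + y) * x ^ (q - 1)) =
      fun x => ∑ i, ∑ j, w i * w j *
        (Iic (min (c i - y) (c j))).indicator (fun x : ℝ => x ^ (q - 1)) x := by
    funext x
    exact stf_mul w c q y x
  rw [h1]
  exact sum_ii Finset.univ fun i _ => sum_ii Finset.univ fun j _ => (ind_ii hq _ _ _).const_mul _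

/-- The weights of the step approximation of `P` with `n` steps. -/
noncomputable def wst (P : ℝ → ℝ) (n : ℕ) (i : Fin n) : ℝ :=
  P ((i : ℝ) / n) - (if (i : ℕ) + 1 < n then P (((i : ℝ) + 1) / n) else 0)

/-- The jumps. -/
noncomputable def cst (n : ℕ) (i : Fin n) : ℝ := ((i : ℝ) + 1) / n

theorem wst_nonneg {P : ℝ → ℝ} (hPa : Antitone P) (hP1 : 0 ≤ P 1) {n : ℕ} (hn : 0 < n)
    (i : Fin n) : 0 ≤ wst P n i := by
  have hn0 : (0 : ℝ) < n := by exact_mod_cast hn
  unfold wst
  split_ifs with h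
  · have : P (((i : ℝ) + 1) / n) ≤ P ((i : ℝ) / n) :=
      hPa (div_le_div_of_nonneg_right (by linarith) hn0.le)
    linarith
  · rw [sub_zero]
    refine P_nonneg hPa hP1 ?_
    rw [div_le_one hn0]
    exact_mod_cast i.2.le

theorem cst_mem {n : ℕ} (hn : 0 < n) (i : Fin n) : 0 < cst n i ∧ cst n i ≤ 1 := by
  have hn0 : (0 : ℝ) < n := by exact_mod_cast hn
  unfold cst
  refine ⟨by positivity, ?_⟩
  rw [div_le_one hn0]
  exact_mod_cast i.2

/-- The value of the step approximation. -/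
theorem stf_eq (P : ℝ → ℝ) {n : ℕ} (hn : 0 < n) {x : ℝ} (hx0 : 0 < x) (hx1 : x ≤ 1) :
    ∃ k : ℕ, k < n ∧ (k : ℝ) < n * x ∧ n * x ≤ k + 1 ∧
      stf (wst P n) (cst n) x = P ((k : ℝ) / n) := by
  have hn0 : (0 : ℝ) < n := by exact_mod_cast hn
  have hnx : 0 < n * x := by positivity
  obtain ⟨k, hk⟩ : ∃ k : ℕ, ⌈n * x⌉₊ = k + 1 :=
    Nat.exists_eq_succ_of_ne_zero (Nat.ceil_pos.2 hnx).ne'
  have hk1 : n * x ≤ k + 1 := by
    have := Nat.le_ceil (n * x)
    rw [hk] at this
    exact_mod_cast this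
  have hk2 : (k : ℝ) < n * x := by
    have : k < ⌈n * x⌉₊ := by omega
    exact Nat.lt_ceil.1 this
  have hkn : k < n := by
    have h1 : (k : ℝ) < n := lt_of_lt_of_le hk2 (by nlinarith)
    exact_mod_cast h1
  refine ⟨k, hkn, hk2, hk1, ?_⟩
  set f : ℕ → ℝ := fun i => if i < n then P ((i : ℝ) / n) else 0 with hf
  have hwf : ∀ i : Fin n, wst P n i = f i - f (i + 1) := by
    intro i
    simp only [hf, wst]
    rw [if_pos i.2]
    push_cast
    rfl
  have hind : ∀ i : Fin n, (x ≤ cst n i) ↔ k ≤ (i : ℕ) := by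
    intro i
    unfold cst
    rw [le_div_iff₀ hn0]
    constructor
    · intro h
      have h1 : (k : ℝ) < (i : ℝ) + 1 := by linarith
      have h2 : k < (i : ℕ) + 1 := by exact_mod_cast h1
      omega
    · intro h
      have h1 : (k : ℝ) ≤ (i : ℕ) := by exact_mod_cast h
      linarith
  unfold stf
  have h1 : ∀ i : Fin n, wst P n i * (if x ≤ cst n i then (1 : ℝ) else 0) =
      (fun j : ℕ => if k ≤ j then f j - f (j + 1) else 0) i := by
    intro i
    simp only [hind i, hwf i]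
    split_ifs <;> ring
  rw [Finset.sum_congr rfl fun i _ => h1 i,
    Fin.sum_univ_eq_sum_range (fun j : ℕ => if k ≤ j then f j - f (j + 1) else 0) n]
  have h2 : ∑ j ∈ Finset.range n, (if k ≤ j then f j - f (j + 1) else 0) =
      ∑ j ∈ Finset.Ico k n, (f j - f (j + 1)) := by
    rw [← Finset.sum_filter]
    refine Finset.sum_congr ?_ fun _ _ => rfl
    ext j
    simp only [Finset.mem_filter, Finset.mem_range, Finset.mem_Ico]
    tauto
  rw [h2, Finset.sum_Ico_eq_sum_range]
  have h3 := Finset.sum_range_sub' (fun j => f (k + j)) (n - k)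
  have h4 : ∑ j ∈ Finset.range (n - k), (f (k + j) - f (k + j + 1)) = f k - f n := by
    simp only [add_zero] at h3
    rw [show k + (n - k) = n by omega] at h3
    exact h3
  rw [h4]
  simp only [hf]
  rw [if_pos hkn, if_neg (lt_irrefl n), sub_zero]

theorem stf_ge {P : ℝ → ℝ} (hPa : Antitone P) {n : ℕ} (hn : 0 < n) {x : ℝ} (hx0 : 0 < x)
    (hx1 : x ≤ 1) : P x ≤ stf (wst P n) (cst n) x := by
  have hn0 : (0 : ℝ) < n := by exact_mod_cast hn
  obtain ⟨k, -, h1, -, h2⟩ := stf_eq P hn hx0 hx1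
  rw [h2]
  refine hPa ?_
  rw [div_le_iff₀ hn0]
  linarith

theorem stf_le {P : ℝ → ℝ} (hP : Continuous P) {ε : ℝ} (hε : 0 < ε) :
    ∃ n₀ : ℕ, ∀ n : ℕ, n₀ ≤ n → 0 < n → ∀ x : ℝ, 0 < x → x ≤ 1 →
      stf (wst P n) (cst n) x ≤ P x + ε := by
  have huc : UniformContinuousOn P (Icc 0 1) :=
    isCompact_Icc.uniformContinuousOn_of_continuous hP.continuousOn
  obtain ⟨ρ, hρ, hU⟩ := Metric.uniformContinuousOn_iff.1 huc ε hε
  obtain ⟨n₀, hn₀⟩ := exists_nat_gt (1 / ρ)
  refine ⟨n₀, fun n hn hn' x hx0 hx1 => ?_⟩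
  have hn0 : (0 : ℝ) < n := by exact_mod_cast hn'
  obtain ⟨k, hk, h1, h2, h3⟩ := stf_eq P hn' hx0 hx1
  rw [h3]
  have h4 : 1 / ρ < n := lt_of_lt_of_le hn₀ (by exact_mod_cast hn)
  have h5 : 1 / (n : ℝ) < ρ := by
    rw [div_lt_iff₀ hρ] at h4
    rw [div_lt_iff₀ hn0]
    linarith
  have hk0 : 0 ≤ (k : ℝ) / n := by positivity
  have hk1 : (k : ℝ) / n ≤ 1 := by
    rw [div_le_one hn0]; exact_mod_cast hk.le
  have h6 : dist ((k : ℝ) / n) x < ρ := by
    rw [Real.dist_eq, abs_lt]
    have h7 : (k : ℝ) / n < x := by rw [div_lt_iff₀ hn0]; linarith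
    have h8 : x ≤ (k : ℝ) / n + 1 / n := by
      rw [← add_div, le_div_iff₀ hn0]; linarith
    constructor <;> linarith
  have h9 := hU _ ⟨hk0, hk1⟩ _ ⟨hx0.le, hx1⟩ h6
  rw [Real.dist_eq] at h9
  linarith [(abs_lt.1 h9).2]

end Pool.Agent.MP_67227b_nt.Lw
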